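import Mathlib

set_option autoImplicit false

/-!
# Duality: a Gram matrix bound, and the dual Turan-Kubilius inequality on windows
-/

namespace Pool.Agent.Q259.FQ

open Finset

/-- generalised Bessel inequality -/
lemma gram {ι κ : Type*} (I : Finset ι) (W : Finset κ) (v : ι → κ → ℂ) (a : κ → ℂ) (Λ : ℝ) (hΛ0 : 0 ≤ Λ)
    (hΛ : ∀ i ∈ I, ∑ j ∈ I, ‖∑ m ∈ W, v i m * starRingEnd ℂ (v j m)‖ ≤ Λ) :
    ∑ i ∈ I, ‖∑ m ∈ W, a m * starRingEnd ℂ (v i m)‖ ^ 2 ≤ Λ * ∑ m ∈ W, ‖a m‖ ^ 2 := by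
  classical
  set x : ι → ℂ := fun i => ∑ m ∈ W, a m * starRingEnd ℂ (v i m) with hx
  set y : κ → ℂ := fun m => ∑ i ∈ I, x i * v i m with hy
  set S : ℝ := ∑ i ∈ I, ‖x i‖ ^ 2 with hS
  set A : ℝ := ∑ m ∈ W, ‖a m‖ ^ 2 with hA
  have hS0 : 0 ≤ S := sum_nonneg fun _ _ => by positivity
  have hA0 : 0 ≤ A := sum_nonneg fun _ _ => by positivity
  have e1 : (S : ℂ) = ∑ m ∈ W, a m * starRingEnd ℂ (y m) := by
    rw [hS]
    push_cast
    have h1 : ∀ i, ((‖x i‖ : ℂ)) ^ 2 = x i * starRingEnd ℂ (x i) := fun i => by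
      rw [Complex.mul_conj, Complex.normSq_eq_norm_sq]; push_cast; rfl
    simp only [h1, hy, map_sum, map_mul]
    simp only [mul_sum]
    rw [sum_comm]
    refine sum_congr rfl fun i _ => ?_
    have e2 : ∀ m ∈ W, a m * ((starRingEnd ℂ) (x i) * (starRingEnd ℂ) (v i m)) =
        (starRingEnd ℂ) (x i) * (a m * (starRingEnd ℂ) (v i m)) := fun m _ => by ring
    rw [sum_congr rfl e2, ← mul_sum, mul_comm]
  have h2 : S ^ 2 ≤ A * ∑ m ∈ W, ‖y m‖ ^ 2 := by
    have h3 : S ≤ ∑ m ∈ W, ‖a m‖ * ‖y m‖ := by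
      have h4 : S = ‖(S : ℂ)‖ := by rw [Complex.norm_real, Real.norm_of_nonneg hS0]
      rw [h4, e1]
      refine (norm_sum_le _ _).trans (le_of_eq ?_)
      refine sum_congr rfl fun m _ => ?_
      rw [norm_mul, RCLike.norm_conj]
    calc S ^ 2 ≤ (∑ m ∈ W, ‖a m‖ * ‖y m‖) ^ 2 := pow_le_pow_left₀ hS0 h3 2
      _ ≤ _ := sum_mul_sq_le_sq_mul_sq _ _ _
  have h5 : ∑ m ∈ W, ‖y m‖ ^ 2 ≤ Λ * S := by
    have e3 : ((∑ m ∈ W, ‖y m‖ ^ 2 : ℝ) : ℂ) = ∑ i ∈ I, ∑ j ∈ I, x i * starRingEnd ℂ (x j) *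
        ∑ m ∈ W, v i m * starRingEnd ℂ (v j m) := by
      push_cast
      have h1 : ∀ m ∈ W, ((‖y m‖ : ℂ)) ^ 2 = ∑ i ∈ I, ∑ j ∈ I, x i * starRingEnd ℂ (x j) *
          (v i m * starRingEnd ℂ (v j m)) := fun m _ => by
        have h2 : ((‖y m‖ : ℂ)) ^ 2 = y m * starRingEnd ℂ (y m) := by
          rw [Complex.mul_conj, Complex.normSq_eq_norm_sq]; push_cast; rfl
        rw [h2, hy]
        simp only [map_sum, map_mul]
        rw [sum_mul_sum]
        refine sum_congr rfl fun i _ => sum_congr rfl fun j _ => ?_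
        ring
      rw [sum_congr rfl h1, sum_comm]
      refine sum_congr rfl fun i _ => ?_
      rw [sum_comm]
      refine sum_congr rfl fun j _ => ?_
      rw [mul_sum]
    have h6 : ∑ m ∈ W, ‖y m‖ ^ 2 ≤ ∑ i ∈ I, ∑ j ∈ I, ‖x i‖ * ‖x j‖ *
        ‖∑ m ∈ W, v i m * starRingEnd ℂ (v j m)‖ := by
      have h7 : 0 ≤ ∑ m ∈ W, ‖y m‖ ^ 2 := sum_nonneg fun _ _ => by positivity
      have h8 : ∑ m ∈ W, ‖y m‖ ^ 2 = ‖((∑ m ∈ W, ‖y m‖ ^ 2 : ℝ) : ℂ)‖ := by
        rw [Complex.norm_real, Real.norm_of_nonneg h7]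
      rw [h8, e3]
      refine (norm_sum_le _ _).trans (sum_le_sum fun i _ => (norm_sum_le _ _).trans (sum_le_sum fun j _ => ?_))
      rw [norm_mul, norm_mul, RCLike.norm_conj]
    have hsym : ∀ i j, ‖∑ m ∈ W, v i m * starRingEnd ℂ (v j m)‖ = ‖∑ m ∈ W, v j m * starRingEnd ℂ (v i m)‖ := by
      intro i j
      rw [← RCLike.norm_conj, map_sum]
      congr 1
      refine sum_congr rfl fun m _ => ?_
      rw [map_mul, Complex.conj_conj, mul_comm]
    have h9 : ∑ i ∈ I, ∑ j ∈ I, ‖x i‖ * ‖x j‖ * ‖∑ m ∈ W, v i m * starRingEnd ℂ (v j m)‖ ≤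
        ∑ i ∈ I, ∑ j ∈ I, (‖x i‖ ^ 2 / 2 * ‖∑ m ∈ W, v i m * starRingEnd ℂ (v j m)‖ +
          ‖x j‖ ^ 2 / 2 * ‖∑ m ∈ W, v i m * starRingEnd ℂ (v j m)‖) := by
      refine sum_le_sum fun i _ => sum_le_sum fun j _ => ?_
      rw [← add_mul]
      refine mul_le_mul_of_nonneg_right ?_ (norm_nonneg _)
      nlinarith [sq_nonneg (‖x i‖ - ‖x j‖)]
    have h10 : ∑ i ∈ I, ∑ j ∈ I, (‖x i‖ ^ 2 / 2 * ‖∑ m ∈ W, v i m * starRingEnd ℂ (v j m)‖ +
          ‖x j‖ ^ 2 / 2 * ‖∑ m ∈ W, v i m * starRingEnd ℂ (v j m)‖) ≤ Λ * S := by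
      simp only [sum_add_distrib]
      have h11 : ∑ i ∈ I, ∑ j ∈ I, ‖x i‖ ^ 2 / 2 * ‖∑ m ∈ W, v i m * starRingEnd ℂ (v j m)‖ ≤ Λ * S / 2 := by
        calc _ ≤ ∑ i ∈ I, ‖x i‖ ^ 2 / 2 * Λ := by
              refine sum_le_sum fun i hi => ?_
              rw [← mul_sum]
              exact mul_le_mul_of_nonneg_left (hΛ i hi) (by positivity)
          _ = _ := by rw [← sum_mul, ← sum_div]; ring
      have h12 : ∑ i ∈ I, ∑ j ∈ I, ‖x j‖ ^ 2 / 2 * ‖∑ m ∈ W, v i m * starRingEnd ℂ (v j m)‖ ≤ Λ * S / 2 := by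
        rw [sum_comm]
        calc _ ≤ ∑ i ∈ I, ‖x i‖ ^ 2 / 2 * Λ := by
              refine sum_le_sum fun i hi => ?_
              rw [← mul_sum]
              refine mul_le_mul_of_nonneg_left ?_ (by positivity)
              refine le_trans (le_of_eq ?_) (hΛ i hi)
              exact sum_congr rfl fun j _ => hsym j i
          _ = _ := by rw [← sum_mul, ← sum_div]; ring
      linarith
    exact h6.trans (h9.trans h10)
  rcases hS0.eq_or_lt with h0 | h0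
  · rw [← h0]; exact mul_nonneg hΛ0 hA0
  · have h14 : S ^ 2 ≤ Λ * A * S := by
      calc S ^ 2 ≤ A * ∑ m ∈ W, ‖y m‖ ^ 2 := h2
        _ ≤ A * (Λ * S) := mul_le_mul_of_nonneg_left h5 hA0
        _ = _ := by ring
    nlinarith

/-- ceiling of `n / p` -/
def cd (n p : ℕ) : ℕ := (n + (p - 1)) / p

lemma le_cd (n p : ℕ) (hp : 1 ≤ p) : n ≤ p * cd n p := by
  unfold cd
  have h1 := Nat.div_add_mod (n + (p - 1)) p
  have h2 := Nat.mod_lt (n + (p - 1)) (show 0 < p by omega)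
  omega

lemma cd_lt (n p : ℕ) (hp : 1 ≤ p) : p * cd n p < n + p := by
  unfold cd
  have h1 := Nat.mul_div_le (n + (p - 1)) p
  omega

lemma cd_mono {n m : ℕ} (h : n ≤ m) (p : ℕ) : cd n p ≤ cd m p := by
  unfold cd
  exact Nat.div_le_div_right (by omega)

lemma lt_cd_iff (x n p : ℕ) (hp : 1 ≤ p) : x < cd n p ↔ p * x < n := by
  constructor
  · intro h
    have h1 := cd_lt n p hp
    have h2 : p * (x + 1) ≤ p * cd n p := Nat.mul_le_mul_left p h
    rw [mul_add, mul_one] at h2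
    omega
  · intro h
    by_contra hc
    push Not at hc
    have h1 := le_cd n p hp
    have h2 : p * cd n p ≤ p * x := Nat.mul_le_mul_left p hc
    omega

/-- sums over the multiples of `p` in a window -/
lemma mult_sum {A : Type*} [AddCommMonoid A] (F : ℕ → A) (n N p : ℕ) (hp : 1 ≤ p) :
    ∑ h ∈ range N, (if p ∣ n + h then F (n + h) else 0) =
      ∑ h ∈ range (cd (n + N) p - cd n p), F (p * (cd n p + h)) := by
  rw [← sum_filter]
  have h0 : cd n p ≤ cd (n + N) p := cd_mono (by omega) p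
  refine sum_bij' (fun h _ => (n + h) / p - cd n p) (fun h _ => p * (cd n p + h) - n) ?_ ?_ ?_ ?_ ?_
  · intro h hh
    rw [mem_filter, mem_range] at hh
    obtain ⟨h1, x, hx⟩ := hh
    rw [mem_range, hx, Nat.mul_div_cancel_left _ (by omega)]
    have h2 : x < cd (n + N) p := (lt_cd_iff _ _ _ hp).2 (by omega)
    have h3 : ¬ x < cd n p := fun h => by
      have := (lt_cd_iff _ _ _ hp).1 h
      omega
    omega
  · intro h hh
    rw [mem_range] at hh
    rw [mem_filter, mem_range]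
    have h2 : p * (cd n p + h) < n + N := (lt_cd_iff _ _ _ hp).1 (by omega)
    have h3 := le_cd n p hp
    have h4 : p * cd n p ≤ p * (cd n p + h) := Nat.mul_le_mul_left p (by omega)
    refine ⟨by omega, ?_⟩
    have h5 : n + (p * (cd n p + h) - n) = p * (cd n p + h) := by omega
    rw [h5]
    exact dvd_mul_right _ _
  · intro h hh
    rw [mem_filter, mem_range] at hh
    obtain ⟨h1, x, hx⟩ := hh
    rw [hx, Nat.mul_div_cancel_left _ (by omega)]
    have h3 : ¬ x < cd n p := fun h => by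
      have := (lt_cd_iff _ _ _ hp).1 h
      omega
    have h5 : cd n p + (x - cd n p) = x := by omega
    rw [h5]
    omega
  · intro h hh
    rw [mem_range] at hh
    have h3 := le_cd n p hp
    have h4 : p * cd n p ≤ p * (cd n p + h) := Nat.mul_le_mul_left p (by omega)
    have h5 : n + (p * (cd n p + h) - n) = p * (cd n p + h) := by omega
    rw [h5, Nat.mul_div_cancel_left _ (by omega)]
    omega
  · intro h hh
    rw [mem_filter, mem_range] at hh
    obtain ⟨h1, x, hx⟩ := hh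
    rw [hx, Nat.mul_div_cancel_left _ (by omega)]
    have h3 : ¬ x < cd n p := fun h => by
      have := (lt_cd_iff _ _ _ hp).1 h
      omega
    congr 2
    omega

lemma cd_real (n p : ℕ) (hp : 1 ≤ p) : (n : ℝ) / p ≤ cd n p ∧ (cd n p : ℝ) < n / p + 1 := by
  have hp0 : (0 : ℝ) < p := by exact_mod_cast hp
  have h1 : (n : ℝ) ≤ p * cd n p := by exact_mod_cast le_cd n p hp
  have h2 : (p : ℝ) * cd n p < n + p := by exact_mod_cast cd_lt n p hp
  constructor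
  · rw [div_le_iff₀ hp0]; linarith
  · rw [← sub_lt_iff_lt_add, lt_div_iff₀ hp0]; linarith

/-- number of multiples -/
lemma mult_card (n N p : ℕ) (hp : 1 ≤ p) :
    |(((range N).filter (fun h => p ∣ n + h)).card : ℝ) - N / p| ≤ 1 := by
  have h1 := mult_sum (fun _ => (1 : ℝ)) n N p hp
  rw [← sum_filter, sum_const, sum_const, card_range, nsmul_eq_mul, nsmul_eq_mul, mul_one, mul_one] at h1
  rw [h1, Nat.cast_sub (cd_mono (by omega) p)]
  obtain ⟨h2, h3⟩ := cd_real n p hp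
  obtain ⟨h4, h5⟩ := cd_real (n + N) p hp
  push_cast at h4 h5
  rw [add_div] at h4 h5
  rw [abs_le]
  constructor <;> linarith

end Pool.Agent.Q259.FQ
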