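import Pool.Agent.Q259.FQ.A1

set_option autoImplicit false

/-!
# The dual Turan-Kubilius inequality on windows
-/

namespace Pool.Agent.Q259.FQ

open Finset

lemma G_off (n N p q : ℕ) (hp : p.Prime) (hq : q.Prime) (hpq : p ≠ q) :
    |∑ h ∈ range N, ((if p ∣ n + h then (p : ℝ) else 0) - 1) * ((if q ∣ n + h then (q : ℝ) else 0) - 1)| ≤
      3 * p * q := by
  have hp1 : (1 : ℝ) ≤ p := by exact_mod_cast hp.one_lt.le
  have hq1 : (1 : ℝ) ≤ q := by exact_mod_cast hq.one_lt.le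
  have e : ∀ h ∈ range N, ((if p ∣ n + h then (p : ℝ) else 0) - 1) * ((if q ∣ n + h then (q : ℝ) else 0) - 1) =
      (if p * q ∣ n + h then (p : ℝ) * q else 0) - (if p ∣ n + h then (p : ℝ) else 0) -
        (if q ∣ n + h then (q : ℝ) else 0) + 1 := by
    intro h _
    have h1 : p * q ∣ n + h ↔ p ∣ n + h ∧ q ∣ n + h := by
      constructor
      · intro h; exact ⟨(dvd_mul_right p q).trans h, (dvd_mul_left q p).trans h⟩
      · rintro ⟨h2, h3⟩
        exact ((Nat.coprime_primes hp hq).2 hpq).mul_dvd_of_dvd_of_dvd h2 h3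
    by_cases h2 : p ∣ n + h <;> by_cases h3 : q ∣ n + h
    · rw [if_pos h2, if_pos h3, if_pos (h1.2 ⟨h2, h3⟩)]; ring
    · rw [if_pos h2, if_neg h3, if_neg (fun h => h3 (h1.1 h).2)]; ring
    · rw [if_neg h2, if_pos h3, if_neg (fun h => h2 (h1.1 h).1)]; ring
    · rw [if_neg h2, if_neg h3, if_neg (fun h => h2 (h1.1 h).1)]; ring
  rw [sum_congr rfl e, sum_add_distrib, sum_sub_distrib, sum_sub_distrib, ← sum_filter, ← sum_filter,
    ← sum_filter, sum_const, sum_const, sum_const, sum_const, nsmul_eq_mul, nsmul_eq_mul, nsmul_eq_mul,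
    nsmul_eq_mul, card_range, mul_one]
  have c1 := mult_card n N (p * q) (Nat.mul_pos hp.pos hq.pos)
  have c2 := mult_card n N p hp.pos
  have c3 := mult_card n N q hq.pos
  set x1 : ℝ := (((range N).filter (fun h => p * q ∣ n + h)).card : ℝ)
  set x2 : ℝ := (((range N).filter (fun h => p ∣ n + h)).card : ℝ)
  set x3 : ℝ := (((range N).filter (fun h => q ∣ n + h)).card : ℝ)
  have e2 : x1 * ((p : ℝ) * q) - x2 * p - x3 * q + N =
      (x1 - N / ((p * q : ℕ) : ℝ)) * (p * q) - (x2 - N / p) * p - (x3 - N / q) * q := by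
    push_cast
    field_simp
    ring
  rw [e2]
  have hpq0 : (0 : ℝ) ≤ (p : ℝ) * q := by positivity
  have t1 : |(x1 - N / ((p * q : ℕ) : ℝ)) * (p * q)| ≤ 1 * (p * q) := by
    rw [abs_mul, abs_of_nonneg hpq0]; exact mul_le_mul_of_nonneg_right c1 hpq0
  have t2 : |(x2 - N / p) * p| ≤ 1 * p := by
    rw [abs_mul, abs_of_nonneg (by linarith : (0 : ℝ) ≤ p)]; exact mul_le_mul_of_nonneg_right c2 (by linarith)
  have t3 : |(x3 - N / q) * q| ≤ 1 * q := by
    rw [abs_mul, abs_of_nonneg (by linarith : (0 : ℝ) ≤ q)]; exact mul_le_mul_of_nonneg_right c3 (by linarith)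
  have h4 : (p : ℝ) ≤ p * q := by nlinarith
  have h5 : (q : ℝ) ≤ p * q := by nlinarith
  rw [abs_le] at *
  constructor <;> linarith [t1.1, t1.2, t2.1, t2.2, t3.1, t3.2]

lemma G_diag (n N p : ℕ) (hp : p.Prime) :
    |∑ h ∈ range N, ((if p ∣ n + h then (p : ℝ) else 0) - 1) * ((if p ∣ n + h then (p : ℝ) else 0) - 1)| ≤
      p * N + p ^ 2 := by
  have hp1 : (2 : ℝ) ≤ p := by exact_mod_cast hp.two_le
  have h0 : 0 ≤ ∑ h ∈ range N, ((if p ∣ n + h then (p : ℝ) else 0) - 1) * ((if p ∣ n + h then (p : ℝ) else 0) - 1) :=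
    sum_nonneg fun h _ => mul_self_nonneg _
  rw [abs_of_nonneg h0]
  have e : ∀ h ∈ range N, ((if p ∣ n + h then (p : ℝ) else 0) - 1) * ((if p ∣ n + h then (p : ℝ) else 0) - 1) =
      (if p ∣ n + h then (p : ℝ) ^ 2 - 2 * p else 0) + 1 := by
    intro h _
    by_cases h2 : p ∣ n + h
    · rw [if_pos h2, if_pos h2]; ring
    · rw [if_neg h2, if_neg h2]; ring
  rw [sum_congr rfl e, sum_add_distrib, ← sum_filter, sum_const, sum_const, nsmul_eq_mul, nsmul_eq_mul,
    card_range, mul_one]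
  have c2 := mult_card n N p hp.pos
  set x2 : ℝ := (((range N).filter (fun h => p ∣ n + h)).card : ℝ)
  have h3 : x2 ≤ N / p + 1 := by rw [abs_le] at c2; linarith [c2.2]
  have h4 : 0 ≤ (p : ℝ) ^ 2 - 2 * p := by nlinarith
  have h5 : x2 * ((p : ℝ) ^ 2 - 2 * p) ≤ (N / p + 1) * ((p : ℝ) ^ 2 - 2 * p) := mul_le_mul_of_nonneg_right h3 h4
  have e3 : ((N : ℝ) / p + 1) * ((p : ℝ) ^ 2 - 2 * p) = p * N - 2 * N + p ^ 2 - 2 * p := by
    field_simp
    ring
  have hN : (0 : ℝ) ≤ N := Nat.cast_nonneg N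
  rw [e3] at h5
  linarith

/-- dual Turan-Kubilius inequality on windows -/
lemma tk (I : Finset ℕ) (M N n : ℕ) (hI : ∀ p ∈ I, p.Prime ∧ p ≤ M) (w : ℕ → ℝ) (hw0 : ∀ p ∈ I, 0 ≤ w p)
    (hw : ∀ p ∈ I, w p ≤ 3 / p) (hN : 12 * M ^ 2 ≤ N) (a : ℕ → ℂ) (ha : ∀ h, ‖a h‖ ≤ 1) :
    ∑ p ∈ I, w p * ‖∑ h ∈ range N, a h * ((if p ∣ n + h then (p : ℂ) else 0) - 1)‖ ^ 2 ≤ 4 * (N : ℝ) ^ 2 := by
  set v : ℕ → ℕ → ℂ := fun p h => ((√(w p) * ((if p ∣ n + h then (p : ℝ) else 0) - 1) : ℝ) : ℂ) with hv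
  have hN' : 12 * (M : ℝ) ^ 2 ≤ N := by exact_mod_cast hN
  have hM0 : (0 : ℝ) ≤ M := Nat.cast_nonneg M
  have key := gram I (range N) v a (4 * N) (by positivity) ?_
  · have e1 : ∀ p ∈ I, ‖∑ h ∈ range N, a h * starRingEnd ℂ (v p h)‖ ^ 2 =
        w p * ‖∑ h ∈ range N, a h * ((if p ∣ n + h then (p : ℂ) else 0) - 1)‖ ^ 2 := by
      intro p hp
      have e2 : ∑ h ∈ range N, a h * starRingEnd ℂ (v p h) = ((√(w p) : ℝ) : ℂ) *
          ∑ h ∈ range N, a h * ((if p ∣ n + h then (p : ℂ) else 0) - 1) := by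
        rw [mul_sum]
        refine sum_congr rfl fun h _ => ?_
        simp only [hv, Complex.conj_ofReal]
        push_cast
        split_ifs <;> push_cast <;> ring
      rw [e2, norm_mul, mul_pow, Complex.norm_real, Real.norm_of_nonneg (Real.sqrt_nonneg _),
        Real.sq_sqrt (hw0 p hp)]
    rw [sum_congr rfl e1] at key
    refine key.trans ?_
    have h1 : ∑ m ∈ range N, ‖a m‖ ^ 2 ≤ N := by
      calc ∑ m ∈ range N, ‖a m‖ ^ 2 ≤ ∑ _m ∈ range N, (1 : ℝ) :=
            sum_le_sum fun m _ => pow_le_one₀ (norm_nonneg _) (ha m)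
        _ = N := by simp
    have h2 : (0 : ℝ) ≤ 4 * N := by positivity
    nlinarith [mul_le_mul_of_nonneg_left h1 h2]
  · intro p hp
    obtain ⟨hpp, hpM⟩ := hI p hp
    have hpM' : (p : ℝ) ≤ M := by exact_mod_cast hpM
    have hp1 : (1 : ℝ) ≤ p := by exact_mod_cast hpp.one_lt.le
    have hM1 : (1 : ℝ) ≤ M := hp1.trans hpM'
    have hG : ∀ q ∈ I, ‖∑ m ∈ range N, v p m * starRingEnd ℂ (v q m)‖ ≤
        (if p = q then 3 * (N : ℝ) + 3 * M else 0) + 9 * M := by
      intro q hq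
      obtain ⟨hqp, hqM⟩ := hI q hq
      have hqM' : (q : ℝ) ≤ M := by exact_mod_cast hqM
      have hq1 : (1 : ℝ) ≤ q := by exact_mod_cast hqp.one_lt.le
      have e2 : ∑ m ∈ range N, v p m * starRingEnd ℂ (v q m) = ((√(w p) * √(w q) *
          ∑ h ∈ range N, ((if p ∣ n + h then (p : ℝ) else 0) - 1) * ((if q ∣ n + h then (q : ℝ) else 0) - 1) : ℝ) : ℂ) := by
        push_cast
        rw [mul_sum]
        refine sum_congr rfl fun h _ => ?_
        simp only [hv, Complex.conj_ofReal]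
        push_cast
        ring
      rw [e2, Complex.norm_real, Real.norm_eq_abs, abs_mul, abs_of_nonneg (by positivity : 0 ≤ √(w p) * √(w q))]
      by_cases hpq : p = q
      · subst hpq
        rw [if_pos rfl, Real.mul_self_sqrt (hw0 p hp)]
        calc w p * _ ≤ (3 / p) * (p * N + p ^ 2) :=
              mul_le_mul (hw p hp) (G_diag n N p hpp) (abs_nonneg _) (by positivity)
          _ = 3 * N + 3 * p := by field_simp
          _ ≤ _ := by nlinarith
      · rw [if_neg hpq, zero_add]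
        refine (mul_le_mul_of_nonneg_left (G_off n N p q hpp hqp hpq) (by positivity)).trans ?_
        apply abs_le_of_sq_le_sq' _ (by positivity) |>.2
        have h3 : (√(w p) * √(w q) * (3 * p * q)) ^ 2 = w p * w q * (9 * p ^ 2 * q ^ 2) := by
          have s1 := Real.sq_sqrt (hw0 p hp)
          have s2 := Real.sq_sqrt (hw0 q hq)
          calc (√(w p) * √(w q) * (3 * p * q)) ^ 2 = √(w p) ^ 2 * √(w q) ^ 2 * (9 * p ^ 2 * q ^ 2) := by ring
            _ = _ := by rw [s1, s2]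
        rw [h3]
        calc w p * w q * (9 * (p : ℝ) ^ 2 * (q : ℝ) ^ 2) ≤ (3 / (p : ℝ)) * (3 / (q : ℝ)) * (9 * (p : ℝ) ^ 2 * (q : ℝ) ^ 2) := by
              refine mul_le_mul_of_nonneg_right ?_ (by positivity)
              exact mul_le_mul (hw p hp) (hw q hq) (hw0 q hq) (by positivity)
          _ = 81 * ((p : ℝ) * q) := by field_simp; ring
          _ ≤ 81 * ((M : ℝ) * M) := by gcongr
          _ = (9 * (M : ℝ)) ^ 2 := by ring
    calc ∑ q ∈ I, ‖∑ m ∈ range N, v p m * starRingEnd ℂ (v q m)‖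
        ≤ ∑ q ∈ I, ((if p = q then 3 * (N : ℝ) + 3 * M else 0) + 9 * M) := sum_le_sum hG
      _ = 3 * N + 3 * M + I.card * (9 * M) := by
          rw [sum_add_distrib, sum_ite_eq, if_pos hp, sum_const, nsmul_eq_mul]
      _ ≤ 3 * N + 3 * M + M * (9 * M) := by
          have hc : (I.card : ℝ) ≤ M := by
            have h1 : I ⊆ Icc 1 M := fun q hq => mem_Icc.2 ⟨(hI q hq).1.pos, (hI q hq).2⟩
            have h2 := card_le_card h1
            rw [Nat.card_Icc, Nat.add_sub_cancel] at h2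
            exact_mod_cast h2
          have := mul_le_mul_of_nonneg_right hc (by positivity : (0 : ℝ) ≤ 9 * M)
          linarith
      _ ≤ 4 * N := by nlinarith

end Pool.Agent.Q259.FQ
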