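import Pool.Agent.Q259.FQ.A2
import Pool.Agent.Q257.MD.PCore

set_option autoImplicit false

/-!
# Dilating polynomial averages on windows
-/

namespace Pool.Agent.Q259.FQ

open Finset
open Pool.Agent.Helper602.MK (ee)
open Pool.Agent.Helper602.MK.N_J5b (ee_add ee_zero ee_conj norm_ee)
open Pool.Agent.H373R2.NB (Ph)

/-- average over the window of length `H` starting at `n` -/
noncomputable def AA (f : ℕ → ℂ) (n : ℕ) (H : ℝ) (φ : ℕ → ℝ) : ℂ :=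
  (1 / (H : ℂ)) * ∑ h ∈ range ⌈H⌉₊, f (n + h) * ee (φ h)

lemma norm_term (f : ℕ → ℂ) (hf : ∀ n, ‖f n‖ ≤ 1) (n : ℕ) (x : ℝ) : ‖f n * ee x‖ ≤ 1 := by
  rw [norm_mul, norm_ee, mul_one]; exact hf n

lemma sum_range_le (a : ℕ → ℂ) (ha : ∀ h, ‖a h‖ ≤ 1) (N : ℕ) : ‖∑ h ∈ range N, a h‖ ≤ N := by
  refine (norm_sum_le _ _).trans ?_
  calc ∑ h ∈ range N, ‖a h‖ ≤ ∑ _h ∈ range N, (1 : ℝ) := sum_le_sum fun h _ => ha h
    _ = N := by simp

lemma ceil_bd (H : ℝ) (hH : 1 ≤ H) : H ≤ ⌈H⌉₊ ∧ (⌈H⌉₊ : ℝ) ≤ H + 1 :=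
  ⟨Nat.le_ceil H, (Nat.ceil_lt_add_one (by linarith)).le⟩

lemma norm_AA (f : ℕ → ℂ) (n : ℕ) (H : ℝ) (hH : 1 ≤ H) (φ : ℕ → ℝ) :
    ‖AA f n H φ‖ = (1 / H) * ‖∑ h ∈ range ⌈H⌉₊, f (n + h) * ee (φ h)‖ := by
  unfold AA
  rw [norm_mul, norm_div, norm_one, Complex.norm_real, Real.norm_of_nonneg (by linarith)]

lemma AA_le (f : ℕ → ℂ) (hf : ∀ n, ‖f n‖ ≤ 1) (n : ℕ) (H : ℝ) (hH : 1 ≤ H) (φ : ℕ → ℝ) :
    ‖AA f n H φ‖ ≤ 1 + 1 / H := by
  rw [norm_AA f n H hH]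
  have h1 := sum_range_le (fun h => f (n + h) * ee (φ h)) (fun h => norm_term f hf _ _) ⌈H⌉₊
  have h2 := (ceil_bd H hH).2
  calc (1 / H) * _ ≤ (1 / H) * (H + 1) := mul_le_mul_of_nonneg_left (h1.trans h2) (by positivity)
    _ = _ := by field_simp

lemma AA_le_two (f : ℕ → ℂ) (hf : ∀ n, ‖f n‖ ≤ 1) (n : ℕ) (H : ℝ) (hH : 1 ≤ H) (φ : ℕ → ℝ) :
    ‖AA f n H φ‖ ≤ 2 := by
  have h1 := AA_le f hf n H hH φ
  have h2 : 1 / H ≤ 1 := by rw [div_le_one (by linarith)]; exact hH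
  linarith

/-- the dilated phase -/
def dph (n p : ℕ) (φ : ℕ → ℝ) : ℕ → ℝ := fun h => φ (h * p + (p * cd n p - n))

lemma Ph_dph (k n p : ℕ) (α : ℝ) (φ : ℕ → ℝ) (h : Ph k α φ) : Ph k ((p : ℝ) ^ k * α) (dph n p φ) :=
  Q257.MD.Ph_scale p k α _ (Q257.MD.Ph_shift (p * cd n p - n) k α φ h)

/-- the discrepancy of the multiples of `p` -/
noncomputable def DD (f : ℕ → ℂ) (n : ℕ) (H : ℝ) (φ : ℕ → ℝ) (p : ℕ) : ℝ :=
  (1 / H) * ‖∑ h ∈ range ⌈H⌉₊, f (n + h) * ee (φ h) * ((if p ∣ n + h then (p : ℂ) else 0) - 1)‖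

lemma DD_nonneg (f : ℕ → ℂ) (n : ℕ) (H : ℝ) (hH : 1 ≤ H) (φ : ℕ → ℝ) (p : ℕ) : 0 ≤ DD f n H φ p := by
  unfold DD; positivity

lemma DD_sum (f : ℕ → ℂ) (hf : ∀ n, ‖f n‖ ≤ 1) (n : ℕ) (H : ℝ) (hH : 1 ≤ H) (φ : ℕ → ℝ)
    (I : Finset ℕ) (M : ℕ) (hI : ∀ p ∈ I, p.Prime ∧ p ≤ M) (w : ℕ → ℝ) (hw0 : ∀ p ∈ I, 0 ≤ w p)
    (hw : ∀ p ∈ I, w p ≤ 3 / p) (hN : 12 * (M : ℝ) ^ 2 ≤ H) :
    ∑ p ∈ I, w p * DD f n H φ p ^ 2 ≤ 16 := by
  obtain ⟨c1, c2⟩ := ceil_bd H hH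
  have hN' : 12 * M ^ 2 ≤ ⌈H⌉₊ := by
    have : 12 * (M : ℝ) ^ 2 ≤ ⌈H⌉₊ := hN.trans c1
    exact_mod_cast this
  have h1 := tk I M ⌈H⌉₊ n hI w hw0 hw hN' (fun h => f (n + h) * ee (φ h)) (fun h => norm_term f hf _ _)
  have e : ∀ p ∈ I, w p * DD f n H φ p ^ 2 = (1 / H ^ 2) * (w p * ‖∑ h ∈ range ⌈H⌉₊, f (n + h) * ee (φ h) *
      ((if p ∣ n + h then (p : ℂ) else 0) - 1)‖ ^ 2) := fun p _ => by
    unfold DD; ring
  rw [sum_congr rfl e, ← mul_sum]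
  have h2 : (⌈H⌉₊ : ℝ) ^ 2 ≤ (2 * H) ^ 2 := by
    apply pow_le_pow_left₀ (by positivity)
    linarith
  calc (1 / H ^ 2) * _ ≤ (1 / H ^ 2) * (4 * (2 * H) ^ 2) :=
        mul_le_mul_of_nonneg_left (h1.trans (by linarith)) (by positivity)
    _ = 16 := by field_simp; norm_num

lemma trunc (a : ℕ → ℂ) (ha : ∀ h, ‖a h‖ ≤ 1) (L N : ℕ) (D : ℕ) (h1 : L ≤ N + D) (h2 : N ≤ L + D) :
    ‖∑ h ∈ range L, a h - ∑ h ∈ range N, a h‖ ≤ D := by
  rcases le_total L N with h | h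
  · have e : ∑ h ∈ range N, a h = ∑ h ∈ range L, a h + ∑ h ∈ range (N - L), a (L + h) := by
      rw [← sum_range_add, Nat.add_sub_cancel' h]
    rw [e, sub_add_cancel_left, norm_neg]
    refine (sum_range_le _ (fun h => ha _) _).trans ?_
    exact_mod_cast (by omega : N - L ≤ D)
  · have e : ∑ h ∈ range L, a h = ∑ h ∈ range N, a h + ∑ h ∈ range (L - N), a (N + h) := by
      rw [← sum_range_add, Nat.add_sub_cancel' h]
    rw [e, add_sub_cancel_left]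
    refine (sum_range_le _ (fun h => ha _) _).trans ?_
    exact_mod_cast (by omega : L - N ≤ D)

/-- passing to the multiples of `p` -/
lemma dil_le (f : ℕ → ℂ) (hf : ∀ n, ‖f n‖ ≤ 1) (hm : ∀ a b : ℕ, a.Coprime b → f (a * b) = f a * f b)
    (n : ℕ) (H : ℝ) (φ : ℕ → ℝ) (p : ℕ) (hp : p.Prime) (hpH : (p : ℝ) ≤ H) :
    ‖AA f n H φ‖ ≤ ‖AA f (cd n p) (H / p) (dph n p φ)‖ + DD f n H φ p + 2 / p + 8 * p / H := by
  have hp1 : (1 : ℝ) ≤ p := by exact_mod_cast hp.one_lt.le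
  have hp0 : (0 : ℝ) < p := by linarith
  have hH : 1 ≤ H := hp1.trans hpH
  have hH0 : 0 < H := by linarith
  have hHp : 1 ≤ H / p := by rw [le_div_iff₀ hp0]; linarith
  set N := ⌈H⌉₊ with hN
  set a : ℕ → ℂ := fun h => f (n + h) * ee (φ h) with ha
  set S : ℂ := ∑ h ∈ range N, a h with hS
  set S1 : ℂ := ∑ h ∈ range N, a h * (if p ∣ n + h then (p : ℂ) else 0) with hS1
  set b : ℕ → ℂ := fun h => f (cd n p + h) * ee (dph n p φ h) with hb
  set L := cd (n + N) p - cd n p with hL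
  have hb1 : ∀ h, ‖b h‖ ≤ 1 := fun h => norm_term f hf _ _
  have eS1 : S1 = p * ∑ h ∈ range L, f (p * (cd n p + h)) * ee (dph n p φ h) := by
    have h1 := mult_sum (fun m => f m * ee (φ (m - n))) n N p hp.pos
    have e1 : S1 = p * ∑ h ∈ range N, (if p ∣ n + h then (fun m => f m * ee (φ (m - n))) (n + h) else 0) := by
      rw [hS1, mul_sum]
      refine sum_congr rfl fun h _ => ?_
      by_cases h2 : p ∣ n + h
      · rw [if_pos h2, if_pos h2]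
        simp only [ha, Nat.add_sub_cancel_left]
        ring
      · rw [if_neg h2, if_neg h2]; ring
    rw [e1, h1]
    congr 1
    refine sum_congr rfl fun h _ => ?_
    simp only [dph]
    congr 3
    have := le_cd n p hp.pos
    rw [mul_add, mul_comm h p]
    omega
  have h2 : ‖∑ h ∈ range L, f (p * (cd n p + h)) * ee (dph n p φ h) - f p * ∑ h ∈ range L, b h‖ ≤
      2 * (L / p + 1) := by
    rw [mul_sum, ← sum_sub_distrib]
    refine (norm_sum_le _ _).trans ?_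
    calc ∑ h ∈ range L, ‖f (p * (cd n p + h)) * ee (dph n p φ h) - f p * b h‖
        ≤ ∑ h ∈ range L, (if p ∣ cd n p + h then (2 : ℝ) else 0) := by
          refine sum_le_sum fun h _ => ?_
          by_cases h3 : p ∣ cd n p + h
          · rw [if_pos h3]
            refine (norm_sub_le _ _).trans ?_
            have h4 := norm_term f hf (p * (cd n p + h)) (dph n p φ h)
            have h5 : ‖f p * b h‖ ≤ 1 := by
              rw [norm_mul]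
              exact mul_le_one₀ (hf p) (norm_nonneg _) (hb1 h)
            linarith
          · rw [if_neg h3, hm p _ ((Nat.Prime.coprime_iff_not_dvd hp).2 h3)]
            simp only [hb]
            rw [mul_assoc, sub_self, norm_zero]
      _ = ((range L).filter (fun h => p ∣ cd n p + h)).card * 2 := by
          rw [← sum_filter, sum_const, nsmul_eq_mul]
      _ ≤ (L / p + 1) * 2 := by
          have := mult_card (cd n p) L p hp.pos
          rw [abs_le] at this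
          linarith [this.2]
      _ = _ := by ring
  obtain ⟨c1, c2⟩ := ceil_bd H hH
  obtain ⟨c3, c4⟩ := ceil_bd (H / p) hHp
  obtain ⟨d1, d2⟩ := cd_real n p hp.pos
  obtain ⟨d3, d4⟩ := cd_real (n + N) p hp.pos
  have hLr : (L : ℝ) = cd (n + N) p - cd n p := by
    rw [hL, Nat.cast_sub (cd_mono (by omega) p)]
  push_cast at d3 d4
  rw [add_div] at d3 d4
  have hNp : (N : ℝ) / p ≤ H / p + 1 / p := by
    rw [← add_div]; exact div_le_div_of_nonneg_right c2 hp0.le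
  have hNp' : H / p ≤ (N : ℝ) / p := div_le_div_of_nonneg_right c1 hp0.le
  have h1p : 1 / (p : ℝ) ≤ 1 := by rw [div_le_one hp0]; exact hp1
  have hLu : (L : ℝ) < H / p + 1 / p + 1 := by rw [hLr]; linarith
  have hLl : H / p - 1 < L := by rw [hLr]; linarith
  have h3 : ‖∑ h ∈ range L, b h - ∑ h ∈ range ⌈H / p⌉₊, b h‖ ≤ (2 : ℕ) := by
    apply trunc b hb1
    · have : (L : ℝ) < ⌈H / p⌉₊ + 2 := by linarith
      have : L < ⌈H / p⌉₊ + 2 := by exact_mod_cast this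
      omega
    · have : (⌈H / p⌉₊ : ℝ) < L + 2 + 1 := by linarith
      have : ⌈H / p⌉₊ < L + 2 + 1 := by exact_mod_cast this
      omega
  have hAA : ‖AA f (cd n p) (H / p) (dph n p φ)‖ = (p / H) * ‖∑ h ∈ range ⌈H / p⌉₊, b h‖ := by
    rw [norm_AA _ _ _ hHp]
    congr 1
    field_simp
  have h4 : ‖S1‖ ≤ p * (‖∑ h ∈ range ⌈H / p⌉₊, b h‖ + 2 + 2 * (L / p + 1)) := by
    rw [eS1, norm_mul, Complex.norm_natCast]
    refine mul_le_mul_of_nonneg_left ?_ hp0.le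
    have h5 : ∑ h ∈ range L, f (p * (cd n p + h)) * ee (dph n p φ h) =
        (∑ h ∈ range L, f (p * (cd n p + h)) * ee (dph n p φ h) - f p * ∑ h ∈ range L, b h) +
        f p * ∑ h ∈ range L, b h := by ring
    have h6 : ‖f p * ∑ h ∈ range L, b h‖ ≤ ‖∑ h ∈ range ⌈H / p⌉₊, b h‖ + 2 := by
      rw [norm_mul]
      have h7 : ‖∑ h ∈ range L, b h‖ ≤ ‖∑ h ∈ range ⌈H / p⌉₊, b h‖ + 2 := by
        have h8 : ∑ h ∈ range L, b h = (∑ h ∈ range L, b h - ∑ h ∈ range ⌈H / p⌉₊, b h) +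
          ∑ h ∈ range ⌈H / p⌉₊, b h := by ring
        rw [h8]
        refine (norm_add_le _ _).trans ?_
        push_cast at h3
        linarith
      calc _ ≤ 1 * ‖∑ h ∈ range L, b h‖ := mul_le_mul_of_nonneg_right (hf p) (norm_nonneg _)
        _ ≤ _ := by rw [one_mul]; exact h7
    rw [h5]
    refine (norm_add_le _ _).trans ?_
    linarith
  have h5 : ‖AA f n H φ‖ ≤ (1 / H) * ‖S1‖ + DD f n H φ p := by
    rw [norm_AA _ _ _ hH]
    unfold DD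
    rw [← mul_add]
    refine mul_le_mul_of_nonneg_left ?_ (by positivity)
    have e : ∑ h ∈ range ⌈H⌉₊, f (n + h) * ee (φ h) = S1 -
        ∑ h ∈ range ⌈H⌉₊, f (n + h) * ee (φ h) * ((if p ∣ n + h then (p : ℂ) else 0) - 1) := by
      rw [hS1, ← sum_sub_distrib]
      refine sum_congr rfl fun h _ => ?_
      simp only [ha]
      ring
    rw [e]
    exact norm_sub_le _ _
  refine h5.trans ?_
  rw [hAA]
  have h6 : (1 / H) * ‖S1‖ ≤ (1 / H) * (p * (‖∑ h ∈ range ⌈H / p⌉₊, b h‖ + 2 + 2 * (L / p + 1))) :=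
    mul_le_mul_of_nonneg_left h4 (by positivity)
  have h7 : (1 / H) * (p * (‖∑ h ∈ range ⌈H / p⌉₊, b h‖ + 2 + 2 * (L / p + 1))) =
      p / H * ‖∑ h ∈ range ⌈H / p⌉₊, b h‖ + (4 * p + 2 * L) / H := by
    field_simp
    ring
  have h8 : (4 * p + 2 * (L : ℝ)) / H ≤ 2 / p + 8 * p / H := by
    have h9 : (4 * p + 2 * (L : ℝ)) / H ≤ (4 * p + 2 * (H / p + 2)) / H :=
      div_le_div_of_nonneg_right (by linarith) hH0.le
    have h10 : (4 * p + 2 * (H / p + 2)) / H = 2 / p + (4 * p + 4) / H := by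
      field_simp
      ring
    have h11 : (4 * (p : ℝ) + 4) / H ≤ 8 * p / H := div_le_div_of_nonneg_right (by linarith) hH0.le
    linarith
  linarith

end Pool.Agent.Q259.FQ
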