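import Pool.Agent.Q259.FQ.A3

set_option autoImplicit false

/-!
# Separated leading coefficients: almost orthogonality, dilations
-/

namespace Pool.Agent.Q259.FQ

open Finset
open Pool.Agent.Helper602.MK (ee)
open Pool.Agent.Helper602.MK.N_J5b (ee_add ee_zero ee_conj norm_ee)
open Pool.Agent.H373R2.NB (Ph IW IW_all Ph_poly)

/-- `θ` is not near a rational with denominator at most `Q`, at scale `H` -/
def Sep (k Q : ℕ) (K H θ : ℝ) : Prop := ∀ q : ℕ, 1 ≤ q → q ≤ Q → ∀ a : ℤ, K / H ^ k < |q * θ - a|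

lemma Sep_neg {k Q : ℕ} {K H θ : ℝ} (h : Sep k Q K H θ) : Sep k Q K H (-θ) := by
  intro q hq hqQ a
  have h1 := h q hq hqQ (-a)
  have e : (q : ℝ) * -θ - a = -(q * θ - ((-a : ℤ) : ℝ)) := by push_cast; ring
  rw [e, abs_neg]
  exact h1

lemma not_Sep_zero {k Q : ℕ} (hQ : 1 ≤ Q) {K H : ℝ} (hK : 0 ≤ K) (hH : 0 < H) : ¬ Sep k Q K H 0 := by
  intro h
  have h1 := h 1 le_rfl hQ 0
  simp at h1
  have : 0 ≤ K / H ^ k := by positivity
  linarith

/-- the parameters given by the inverse theorem -/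
lemma weyl (k : ℕ) (hk : 1 ≤ k) : ∃ C m : ℕ, 1 ≤ C ∧ ∀ u : ℝ, 1 ≤ u → ∀ H : ℝ, 1 ≤ H → ∀ (θ : ℝ) (φ : ℕ → ℝ),
    Ph k θ φ → Sep k ⌊C * u ^ m⌋₊ (C * u ^ m) H θ → ‖∑ h ∈ range ⌈H⌉₊, ee (φ h)‖ ≤ ⌈H⌉₊ / u := by
  obtain ⟨c, m, hc, hI⟩ := IW_all k hk
  refine ⟨c, m, hc, fun u hu H hH θ φ hφ hS => ?_⟩
  by_contra hcon
  push Not at hcon
  have hu0 : 0 < u := by linarith
  rw [div_lt_iff₀ hu0] at hcon
  have hN : 1 ≤ ⌈H⌉₊ := Nat.one_le_ceil_iff.2 (by linarith)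
  obtain ⟨q, hq1, hq2, a, ha⟩ := hI ⌈H⌉₊ u θ φ hN hu hφ (by linarith)
  have h1 := hS q hq1 (Nat.le_floor hq2) a
  have h2 : (c : ℝ) * u ^ m / (⌈H⌉₊ : ℝ) ^ k ≤ c * u ^ m / H ^ k := by
    apply div_le_div_of_nonneg_left (by positivity) (by positivity)
    exact pow_le_pow_left₀ (by linarith) (Nat.le_ceil H) k
  linarith

/-- Bessel's inequality for separated families -/
lemma bessel (f : ℕ → ℂ) (hf : ∀ n, ‖f n‖ ≤ 1) (n : ℕ) (H : ℝ) (hH : 4 ≤ H) (R : ℕ) (T : Finset ℝ)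
    (hT : T.card ≤ R) (φ : ℝ → ℕ → ℝ)
    (hsep : ∀ α ∈ T, ∀ β ∈ T, α ≠ β → ‖∑ h ∈ range ⌈H⌉₊, ee (φ α h - φ β h)‖ ≤ ⌈H⌉₊ / (4 * R)) :
    ∑ α ∈ T, ‖AA f n H (φ α)‖ ^ 2 ≤ 125 / 64 := by
  rcases T.eq_empty_or_nonempty with hE | hne
  · rw [hE, sum_empty]; norm_num
  have hR : 1 ≤ R := (Finset.card_pos.2 hne).trans_le hT
  have hRr : (1 : ℝ) ≤ R := by exact_mod_cast hR
  obtain ⟨c1, c2⟩ := ceil_bd H (by linarith)
  set N := ⌈H⌉₊ with hN
  have hN0 : (0 : ℝ) < N := by linarith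
  have key := gram T (range N) (fun α h => starRingEnd ℂ (ee (φ α h))) (fun h => f (n + h)) (5 / 4 * N)
    (by positivity) ?_
  · have e1 : ∀ α ∈ T, ‖AA f n H (φ α)‖ ^ 2 = (1 / H ^ 2) *
        ‖∑ h ∈ range N, f (n + h) * starRingEnd ℂ (starRingEnd ℂ (ee (φ α h)))‖ ^ 2 := by
      intro α _
      rw [norm_AA f n H (by linarith), mul_pow]
      simp only [Complex.conj_conj]
      congr 1
      rw [one_div_pow]
    rw [sum_congr rfl e1, ← mul_sum]
    have h1 : ∑ m ∈ range N, ‖f (n + m)‖ ^ 2 ≤ N := by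
      calc ∑ m ∈ range N, ‖f (n + m)‖ ^ 2 ≤ ∑ _m ∈ range N, (1 : ℝ) :=
            sum_le_sum fun m _ => pow_le_one₀ (norm_nonneg _) (hf _)
        _ = N := by simp
    calc (1 / H ^ 2) * _ ≤ (1 / H ^ 2) * (5 / 4 * N * N) := by
          refine mul_le_mul_of_nonneg_left (key.trans ?_) (by positivity)
          exact mul_le_mul_of_nonneg_left h1 (by positivity)
      _ ≤ (1 / H ^ 2) * (5 / 4 * (5 / 4 * H) * (5 / 4 * H)) := by
          have h2 : (N : ℝ) ≤ 5 / 4 * H := by linarith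
          gcongr
      _ = 125 / 64 := by
          have : H ≠ 0 := by linarith
          field_simp
          norm_num
  · intro α hα
    have hG : ∀ β ∈ T, ‖∑ m ∈ range N, starRingEnd ℂ (ee (φ α m)) * starRingEnd ℂ (starRingEnd ℂ (ee (φ β m)))‖ ≤
        (if α = β then (N : ℝ) else 0) + N / (4 * R) := by
      intro β hβ
      have e2 : ∑ m ∈ range N, starRingEnd ℂ (ee (φ α m)) * starRingEnd ℂ (starRingEnd ℂ (ee (φ β m))) =
          ∑ m ∈ range N, ee (φ β m - φ α m) := by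
        refine sum_congr rfl fun m _ => ?_
        rw [Complex.conj_conj, ee_conj, ← ee_add]
        congr 1
        ring
      rw [e2]
      by_cases hab : α = β
      · rw [if_pos hab]
        have h3 := sum_range_le (fun m => ee (φ β m - φ α m)) (fun m => by rw [norm_ee]) N
        have : 0 ≤ (N : ℝ) / (4 * R) := by positivity
        linarith
      · rw [if_neg hab, zero_add]
        exact hsep β hβ α hα (Ne.symm hab)
    calc ∑ β ∈ T, ‖∑ m ∈ range N, starRingEnd ℂ (ee (φ α m)) * starRingEnd ℂ (starRingEnd ℂ (ee (φ β m)))‖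
        ≤ ∑ β ∈ T, ((if α = β then (N : ℝ) else 0) + N / (4 * R)) := sum_le_sum hG
      _ = N + T.card * (N / (4 * R)) := by
          rw [sum_add_distrib, sum_ite_eq, if_pos hα, sum_const, nsmul_eq_mul]
      _ ≤ N + R * (N / (4 * R)) := by
          have : (T.card : ℝ) ≤ R := by exact_mod_cast hT
          have h4 : 0 ≤ (N : ℝ) / (4 * R) := by positivity
          nlinarith
      _ = 5 / 4 * N := by field_simp; ring

/-- at most one prime destroys a separation -/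
lemma sep_dil (k : ℕ) (Q : ℕ) (K H θ : ℝ) (hK : 0 ≤ K) (hH : 0 < H) (hS : Sep k Q K H θ)
    (M : ℕ) (hM : 2 * Q * K * (M : ℝ) ^ (2 * k) < H ^ k) (p p' : ℕ) (hp : p.Prime) (hp' : p'.Prime)
    (hpQ : Q < p) (hpM : p ≤ M) (hp'M : p' ≤ M) (hne : p ≠ p')
    (h : ¬ Sep k Q K (H / p) ((p : ℝ) ^ k * θ)) : Sep k Q K (H / p') ((p' : ℝ) ^ k * θ) := by
  by_contra h'
  unfold Sep at h h'
  push Not at h h'
  obtain ⟨q, hq1, hqQ, a, ha⟩ := h
  obtain ⟨q', hq'1, hq'Q, a', ha'⟩ := h'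
  have hpr : (1 : ℝ) ≤ p := by exact_mod_cast hp.one_lt.le
  have hp'r : (1 : ℝ) ≤ p' := by exact_mod_cast hp'.one_lt.le
  have hpMr : (p : ℝ) ≤ M := by exact_mod_cast hpM
  have hp'Mr : (p' : ℝ) ≤ M := by exact_mod_cast hp'M
  have hqr : (q : ℝ) ≤ Q := by exact_mod_cast hqQ
  have hq'r : (q' : ℝ) ≤ Q := by exact_mod_cast hq'Q
  have hHk : 0 < H ^ k := by positivity
  have e1 : K / (H / p) ^ k = K * (p : ℝ) ^ k / H ^ k := by rw [div_pow]; field_simp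
  have e2 : K / (H / p') ^ k = K * (p' : ℝ) ^ k / H ^ k := by rw [div_pow]; field_simp
  rw [e1] at ha
  rw [e2] at ha'
  -- the numerators are proportional
  have hprop : (q' : ℤ) * (p' : ℤ) ^ k * a = q * (p : ℤ) ^ k * a' := by
    have h1 : ((q' * (p' : ℤ) ^ k * a - q * (p : ℤ) ^ k * a' : ℤ) : ℝ) =
        q * (p : ℝ) ^ k * (q' * ((p' : ℝ) ^ k * θ) - a') - q' * (p' : ℝ) ^ k * (q * ((p : ℝ) ^ k * θ) - a) := by
      push_cast; ring
    have h2 : |((q' * (p' : ℤ) ^ k * a - q * (p : ℤ) ^ k * a' : ℤ) : ℝ)| < 1 := by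
      rw [h1]
      refine (abs_sub _ _).trans_lt ?_
      rw [abs_mul ((q : ℝ) * (p : ℝ) ^ k), abs_mul ((q' : ℝ) * (p' : ℝ) ^ k), abs_of_nonneg (by positivity : (0 : ℝ) ≤ q * (p : ℝ) ^ k),
        abs_of_nonneg (by positivity : (0 : ℝ) ≤ q' * (p' : ℝ) ^ k)]
      have hpk : (p : ℝ) ^ k ≤ (M : ℝ) ^ k := pow_le_pow_left₀ (by linarith) hpMr k
      have hp'k : (p' : ℝ) ^ k ≤ (M : ℝ) ^ k := pow_le_pow_left₀ (by linarith) hp'Mr k
      have hMk : (M : ℝ) ^ (2 * k) = (M : ℝ) ^ k * (M : ℝ) ^ k := by rw [two_mul, pow_add]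
      have t1 : (q : ℝ) * (p : ℝ) ^ k * |q' * ((p' : ℝ) ^ k * θ) - a'| ≤ Q * K * (M : ℝ) ^ (2 * k) / H ^ k := by
        calc (q : ℝ) * (p : ℝ) ^ k * |q' * ((p' : ℝ) ^ k * θ) - a'|
            ≤ Q * (M : ℝ) ^ k * (K * (M : ℝ) ^ k / H ^ k) := by
              refine mul_le_mul (mul_le_mul hqr hpk (by positivity) (by positivity)) (ha'.trans ?_) (abs_nonneg _) (by positivity)
              gcongr
          _ = _ := by rw [hMk]; ring
      have t2 : (q' : ℝ) * (p' : ℝ) ^ k * |q * ((p : ℝ) ^ k * θ) - a| ≤ Q * K * (M : ℝ) ^ (2 * k) / H ^ k := by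
        calc (q' : ℝ) * (p' : ℝ) ^ k * |q * ((p : ℝ) ^ k * θ) - a|
            ≤ Q * (M : ℝ) ^ k * (K * (M : ℝ) ^ k / H ^ k) := by
              refine mul_le_mul (mul_le_mul hq'r hp'k (by positivity) (by positivity)) (ha.trans ?_) (abs_nonneg _) (by positivity)
              gcongr
          _ = _ := by rw [hMk]; ring
      have t3 : Q * K * (M : ℝ) ^ (2 * k) / H ^ k + Q * K * (M : ℝ) ^ (2 * k) / H ^ k < 1 := by
        rw [← add_div, div_lt_one hHk]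
        linarith
      linarith
    have h3 : |(q' * (p' : ℤ) ^ k * a - q * (p : ℤ) ^ k * a' : ℤ)| < 1 := by exact_mod_cast h2
    have h4 := Int.abs_lt_one_iff.1 h3
    linarith
  -- hence `p ^ k` divides `a`
  have hdvd : (p : ℤ) ^ k ∣ a := by
    have h1 : (p : ℤ) ^ k ∣ (q' * (p' : ℤ) ^ k) * a := by
      rw [hprop]
      exact ⟨q * a', by ring⟩
    have hc1 : IsCoprime ((p : ℤ) ^ k) ((q' : ℤ) * (p' : ℤ) ^ k) := by
      apply IsCoprime.pow_left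
      apply IsCoprime.mul_right
      · rw [Nat.isCoprime_iff_coprime]
        exact (Nat.Prime.coprime_iff_not_dvd hp).2 fun hd => by
          have := Nat.le_of_dvd (by omega) hd
          omega
      · apply IsCoprime.pow_right
        rw [Nat.isCoprime_iff_coprime]
        exact (Nat.coprime_primes hp hp').2 hne
    exact hc1.dvd_of_dvd_mul_left h1
  obtain ⟨b, hb⟩ := hdvd
  have h5 := hS q hq1 hqQ b
  have hpk0 : (0 : ℝ) < (p : ℝ) ^ k := by positivity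
  have e3 : (q : ℝ) * ((p : ℝ) ^ k * θ) - a = (p : ℝ) ^ k * (q * θ - b) := by
    rw [hb]; push_cast; ring
  rw [e3, abs_mul, abs_of_pos hpk0] at ha
  have h6 : (p : ℝ) ^ k * (K / H ^ k) < (p : ℝ) ^ k * |(q : ℝ) * θ - b| := mul_lt_mul_of_pos_left h5 hpk0
  have e4 : K * (p : ℝ) ^ k / H ^ k = (p : ℝ) ^ k * (K / H ^ k) := by ring
  rw [e4] at ha
  linarith

end Pool.Agent.Q259.FQ
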