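import Pool.Agent.Q259.FQ.B1

set_option autoImplicit false

/-!
# The energy functional
-/

namespace Pool.Agent.Q259.FQ

open Finset
open Pool.Agent.Helper602.MK (ee)
open Pool.Agent.H373R2.NB (Ph IW IW_all Ph_poly)

/-- separated families of leading coefficients -/
def Fam (k Q R : ℕ) (K H : ℝ) (T : Finset ℝ) : Prop :=
  T.card ≤ R ∧ ∀ α ∈ T, ∀ β ∈ T, α ≠ β → Sep k Q K H (α - β)

/-- the conclusion of the inverse theorem -/
def WP (k Q R : ℕ) (K : ℝ) : Prop := ∀ H : ℝ, 1 ≤ H → ∀ (θ : ℝ) (φ : ℕ → ℝ),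
  Ph k θ φ → Sep k Q K H θ → ‖∑ h ∈ range ⌈H⌉₊, ee (φ h)‖ ≤ ⌈H⌉₊ / (4 * R)

lemma Ph_exists (k : ℕ) (α : ℝ) : ∃ φ : ℕ → ℝ, Ph k α φ := by
  have h := Ph_poly k (Polynomial.X ^ k : Polynomial ℤ) (by rw [Polynomial.natDegree_X_pow]) (α / k.factorial)
  rw [Polynomial.coeff_X_pow_self] at h
  have e : α / k.factorial * ((k.factorial : ℝ) * ((1 : ℤ) : ℝ)) = α := by
    have : (k.factorial : ℝ) ≠ 0 := by exact_mod_cast Nat.factorial_ne_zero k
    push_cast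
    field_simp
  rw [e] at h
  exact ⟨_, h⟩

instance (k : ℕ) (α : ℝ) : Nonempty {φ : ℕ → ℝ // Ph k α φ} := by
  obtain ⟨φ, h⟩ := Ph_exists k α
  exact ⟨⟨φ, h⟩⟩

/-- largest correlation with phases of leading coefficient `α` -/
noncomputable def gg (f : ℕ → ℂ) (k n : ℕ) (H α : ℝ) : ℝ := ⨆ φ : {φ : ℕ → ℝ // Ph k α φ}, ‖AA f n H φ‖ ^ 2

section
variable (f : ℕ → ℂ) (hf : ∀ n, ‖f n‖ ≤ 1) (k : ℕ)
include hf

lemma sq_le_four (n : ℕ) (H : ℝ) (hH : 1 ≤ H) (φ : ℕ → ℝ) : ‖AA f n H φ‖ ^ 2 ≤ 4 := by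
  have := pow_le_pow_left₀ (norm_nonneg _) (AA_le_two f hf n H hH φ) 2
  norm_num at this
  exact this

lemma gg_bdd (n : ℕ) (H : ℝ) (hH : 1 ≤ H) (α : ℝ) :
    BddAbove (Set.range fun φ : {φ : ℕ → ℝ // Ph k α φ} => ‖AA f n H φ‖ ^ 2) :=
  ⟨4, by rintro _ ⟨φ, rfl⟩; exact sq_le_four f hf n H hH φ⟩

lemma le_gg (n : ℕ) (H : ℝ) (hH : 1 ≤ H) (α : ℝ) (φ : ℕ → ℝ) (hφ : Ph k α φ) :
    ‖AA f n H φ‖ ^ 2 ≤ gg f k n H α :=
  le_ciSup (gg_bdd f hf k n H hH α) ⟨φ, hφ⟩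

omit hf in
lemma gg_near (n : ℕ) (H : ℝ) (α : ℝ) (η : ℝ) (hη : 0 < η) :
    ∃ φ : ℕ → ℝ, Ph k α φ ∧ gg f k n H α - η ≤ ‖AA f n H φ‖ ^ 2 := by
  obtain ⟨φ, hφ⟩ := exists_lt_of_lt_ciSup (show gg f k n H α - η < gg f k n H α by linarith)
  exact ⟨φ, φ.2, hφ.le⟩

omit hf in
lemma gg_nonneg (n : ℕ) (H : ℝ) (α : ℝ) : 0 ≤ gg f k n H α :=
  Real.iSup_nonneg fun _ => by positivity

variable (Q R : ℕ) (K : ℝ)

lemma fam_le (hWP : WP k Q R K) (n : ℕ) (H : ℝ) (hH : 4 ≤ H) (T : Finset ℝ) (hT : Fam k Q R K H T) :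
    ∑ α ∈ T, gg f k n H α ≤ 2 := by
  obtain ⟨η, hη, hη1⟩ : ∃ η : ℝ, 0 < η ∧ R * η ≤ 1 / 64 := by
    refine ⟨1 / (64 * (R + 1)), by positivity, ?_⟩
    rw [mul_one_div, div_le_iff₀ (by positivity)]
    linarith
  choose φ hφ using fun α : ℝ => gg_near f k n H α η hη
  have h1 := bessel f hf n H hH R T hT.1 φ (fun α hα β hβ hab => by
    have h2 := Q257.MD.Ph_sub k α β _ _ (hφ α).1 (hφ β).1
    exact hWP H (by linarith) _ _ h2 (hT.2 α hα β hβ hab))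
  calc ∑ α ∈ T, gg f k n H α ≤ ∑ α ∈ T, (‖AA f n H (φ α)‖ ^ 2 + η) :=
        sum_le_sum fun α _ => by linarith [(hφ α).2]
    _ = ∑ α ∈ T, ‖AA f n H (φ α)‖ ^ 2 + T.card * η := by rw [sum_add_distrib, sum_const, nsmul_eq_mul]
    _ ≤ 125 / 64 + R * η := by
        have : (T.card : ℝ) ≤ R := by exact_mod_cast hT.1
        have := mul_le_mul_of_nonneg_right this hη.le
        linarith
    _ ≤ 2 := by linarith

end

instance (k Q R : ℕ) (K H : ℝ) : Nonempty {T : Finset ℝ // Fam k Q R K H T} :=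
  ⟨⟨∅, by simp, by simp⟩⟩

/-- energy of separated families -/
noncomputable def VV (f : ℕ → ℂ) (k Q R : ℕ) (K : ℝ) (n : ℕ) (H : ℝ) : ℝ :=
  ⨆ T : {T : Finset ℝ // Fam k Q R K H T}, ∑ α ∈ T.1, gg f k n H α

section
variable (f : ℕ → ℂ) (hf : ∀ n, ‖f n‖ ≤ 1) (k Q R : ℕ) (K : ℝ) (hWP : WP k Q R K)
include hf hWP

lemma VV_bdd (n : ℕ) (H : ℝ) (hH : 4 ≤ H) :
    BddAbove (Set.range fun T : {T : Finset ℝ // Fam k Q R K H T} => ∑ α ∈ T.1, gg f k n H α) :=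
  ⟨2, by rintro _ ⟨T, rfl⟩; exact fam_le f hf k Q R K hWP n H hH T.1 T.2⟩

lemma le_VV (n : ℕ) (H : ℝ) (hH : 4 ≤ H) (T : Finset ℝ) (hT : Fam k Q R K H T) :
    ∑ α ∈ T, gg f k n H α ≤ VV f k Q R K n H :=
  le_ciSup (VV_bdd f hf k Q R K hWP n H hH) ⟨T, hT⟩

lemma VV_le_two (n : ℕ) (H : ℝ) (hH : 4 ≤ H) : VV f k Q R K n H ≤ 2 :=
  ciSup_le fun T => fam_le f hf k Q R K hWP n H hH T.1 T.2

omit hf hWP in
lemma VV_nonneg (n : ℕ) (H : ℝ) : 0 ≤ VV f k Q R K n H :=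
  Real.iSup_nonneg fun _ => sum_nonneg fun _ _ => gg_nonneg f k n H _

omit hf hWP in
lemma VV_near (n : ℕ) (H η : ℝ) (hη : 0 < η) :
    ∃ T : Finset ℝ, Fam k Q R K H T ∧ VV f k Q R K n H - η ≤ ∑ α ∈ T, gg f k n H α := by
  obtain ⟨T, hT⟩ := exists_lt_of_lt_ciSup (show VV f k Q R K n H - η < VV f k Q R K n H by linarith)
  exact ⟨T.1, T.2, hT.le⟩

/-- adding one leading coefficient raises the energy -/
lemma fam_add (hQ : 1 ≤ Q) (hK : 0 ≤ K) (c : ℝ) (hc : 0 < c) (hR : 4 ≤ c ^ 2 * R) (n : ℕ) (H : ℝ) (hH : 4 ≤ H) (T : Finset ℝ)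
    (hT : Fam k Q R K H T) (ρ : ℝ) (hρ : ∀ β ∈ T, Sep k Q K H (ρ - β)) (hg : c ^ 2 ≤ gg f k n H ρ) :
    ∑ α ∈ T, gg f k n H α + c ^ 2 / 2 ≤ VV f k Q R K n H := by
  classical
  have hRpos : (0 : ℝ) < R := by
    by_contra h
    push Not at h
    have : c ^ 2 * R ≤ 0 := mul_nonpos_of_nonneg_of_nonpos (by positivity) h
    linarith
  have hρT : ρ ∉ T := by
    intro h
    have := hρ ρ h
    rw [sub_self] at this
    exact not_Sep_zero hQ hK (by linarith) this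
  have hins : ∀ T' ⊆ T, T'.card < R → Fam k Q R K H (insert ρ T') := by
    intro T' hT' hc'
    refine ⟨(card_insert_le _ _).trans hc', ?_⟩
    intro α hα β hβ hab
    rw [mem_insert] at hα hβ
    rcases hα with rfl | hα <;> rcases hβ with rfl | hβ
    · exact absurd rfl hab
    · exact hρ β (hT' hβ)
    · have := Sep_neg (hρ α (hT' hα))
      rwa [neg_sub] at this
    · exact hT.2 α (hT' hα) β (hT' hβ) hab
  rcases Nat.lt_or_ge T.card R with hlt | hge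
  · have h1 := le_VV f hf k Q R K hWP n H hH _ (hins T (Subset.refl _) hlt)
    rw [sum_insert hρT] at h1
    have : 0 < c ^ 2 := by positivity
    linarith
  · have hcard : T.card = R := le_antisymm hT.1 hge
    have hne : T.Nonempty := by
      rw [← card_pos, hcard]
      exact_mod_cast hRpos
    obtain ⟨β, hβ, hmin⟩ := exists_min_image T (fun α => gg f k n H α) hne
    have h2 := fam_le f hf k Q R K hWP n H hH T hT
    have h3 : R * gg f k n H β ≤ ∑ α ∈ T, gg f k n H α := by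
      rw [← hcard]
      have := card_nsmul_le_sum T (fun α => gg f k n H α) (gg f k n H β) hmin
      rwa [nsmul_eq_mul] at this
    have h4 : gg f k n H β ≤ c ^ 2 / 2 := by
      by_contra hcon
      push Not at hcon
      have h5 : R * (c ^ 2 / 2) < R * gg f k n H β := mul_lt_mul_of_pos_left hcon hRpos
      linarith
    have hlt : (T.erase β).card < R := by
      rw [card_erase_of_mem hβ, hcard]
      have : 0 < R := by exact_mod_cast hRpos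
      omega
    have h5 := le_VV f hf k Q R K hWP n H hH _ (hins (T.erase β) (erase_subset _ _) hlt)
    rw [sum_insert (fun h => hρT (mem_of_mem_erase h))] at h5
    have h6 := add_sum_erase T (fun α => gg f k n H α) hβ
    linarith

omit hf hWP in
/-- dilating a family -/
lemma fam_dil (H : ℝ) (T : Finset ℝ) (hT : Fam k Q R K H T) (p : ℕ)
    (hgood : ∀ α ∈ T, ∀ β ∈ T, α ≠ β → Sep k Q K (H / p) ((p : ℝ) ^ k * (α - β))) :
    Fam k Q R K (H / p) (T.image fun α => (p : ℝ) ^ k * α) := by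
  refine ⟨card_image_le.trans hT.1, ?_⟩
  intro α hα β hβ hab
  rw [mem_image] at hα hβ
  obtain ⟨a, ha, rfl⟩ := hα
  obtain ⟨b, hb, rfl⟩ := hβ
  rw [← mul_sub]
  exact hgood a ha b hb fun h => hab (by rw [h])

omit hf hWP in
lemma sum_dil (n : ℕ) (H : ℝ) (T : Finset ℝ) (p : ℕ) (hp : 1 ≤ p) :
    ∑ α ∈ T.image (fun α => (p : ℝ) ^ k * α), gg f k n H α = ∑ α ∈ T, gg f k n H ((p : ℝ) ^ k * α) := by
  rw [sum_image]
  intro a _ b _ h
  have : ((p : ℝ) ^ k) ≠ 0 := by positivity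
  exact mul_left_cancel₀ this h

end

end Pool.Agent.Q259.FQ
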