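import Pool.Agent.Q259.FQ.D3

set_option autoImplicit false

/-!
# Dilates of a real number by powers of primes near a closed set without torsion points
-/

namespace Pool.Agent.Q259.FQ

open Finset MeasureTheory Filter
open Pool.Agent.Helper602.MK (ee)

/-- weights on primes -/
noncomputable def wt (p : ℕ) : ℝ := Real.log p / ((Nat.log 2 (p - 1) : ℝ) * 2 ^ (Nat.log 2 (p - 1)))

lemma log_Bl {i p : ℕ} (h : p ∈ Bl i) : Nat.log 2 (p - 1) = i := by
  rw [mem_Bl] at h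
  rw [Nat.log_eq_iff (Or.inr ⟨by norm_num, by
    have := Nat.one_le_two_pow (n := i)
    omega⟩)]
  omega

lemma wt_Bl {i p : ℕ} (h : p ∈ Bl i) : wt p = Real.log p / (i * 2 ^ i) := by
  unfold wt; rw [log_Bl h]

lemma wt_nonneg (p : ℕ) : 0 ≤ wt p := by
  unfold wt
  have : 0 ≤ Real.log p := Real.log_natCast_nonneg p
  positivity

lemma wt_le {i p : ℕ} (hi : 1 ≤ i) (h : p ∈ Bl i) : wt p ≤ 3 / p := by
  rw [wt_Bl h]
  rw [mem_Bl] at h
  have hp : (0 : ℝ) < p := by exact_mod_cast h.2.pos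
  have hir : (1 : ℝ) ≤ i := by exact_mod_cast hi
  have h2 : (0 : ℝ) < 2 ^ i := by positivity
  have hp2 : (p : ℝ) ≤ 2 ^ (i + 1) := by exact_mod_cast h.1.2
  have h3 : Real.log p ≤ (i + 1) * Real.log 2 := by
    have := Real.log_le_log hp hp2
    rw [Real.log_pow] at this
    push_cast at this
    exact this
  have h4 := Real.log_two_lt_d9
  rw [div_le_div_iff₀ (by positivity) hp]
  have h5 : Real.log p ≤ 1.4 * i := by nlinarith
  have h6 : 0 ≤ Real.log p := Real.log_natCast_nonneg p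
  rw [pow_succ] at hp2
  calc Real.log p * p ≤ 1.4 * i * (2 ^ i * 2) := mul_le_mul h5 hp2 hp.le (by positivity)
    _ ≤ 3 * (i * 2 ^ i) := by nlinarith [mul_pos (by linarith : (0 : ℝ) < i) h2]

/-- primes in `(2^i, 2^j]` -/
def BB (i j : ℕ) : Finset ℕ := (Ioc (2 ^ i) (2 ^ j)).filter Nat.Prime

lemma mem_BB {i j p : ℕ} : p ∈ BB i j ↔ (2 ^ i < p ∧ p ≤ 2 ^ j) ∧ p.Prime := by
  unfold BB; rw [mem_filter, mem_Ioc]

lemma BB_sum {A : Type*} [AddCommMonoid A] (F : ℕ → A) (i j : ℕ) (h : i ≤ j) :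
    ∑ p ∈ BB i j, F p = ∑ l ∈ Ico i j, ∑ p ∈ Bl l, F p := by
  induction j, h using Nat.le_induction with
  | base =>
    rw [Ico_self, sum_empty]
    have : BB i i = ∅ := by unfold BB; rw [Ioc_self, filter_empty]
    rw [this, sum_empty]
  | succ j hj ih =>
    rw [sum_Ico_succ_top hj, ← ih, ← sum_union]
    · congr 1
      ext p
      have h0 : 2 ^ j ≤ 2 ^ (j + 1) := Nat.pow_le_pow_right (by norm_num) (by omega)
      have h1 : 2 ^ i ≤ 2 ^ j := Nat.pow_le_pow_right (by norm_num) hj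
      rw [mem_union, mem_BB, mem_BB, mem_Bl]
      constructor
      · rintro ⟨⟨h2, h3⟩, h4⟩
        by_cases h5 : p ≤ 2 ^ j
        · exact Or.inl ⟨⟨h2, h5⟩, h4⟩
        · exact Or.inr ⟨⟨by omega, h3⟩, h4⟩
      · rintro (⟨⟨h2, h3⟩, h4⟩ | ⟨⟨h2, h3⟩, h4⟩)
        · exact ⟨⟨h2, by omega⟩, h4⟩
        · exact ⟨⟨by omega, h3⟩, h4⟩
    · rw [disjoint_left]
      intro p h1 h2
      rw [mem_BB] at h1
      rw [mem_Bl] at h2
      omega

lemma BB_Bl {i j p : ℕ} (hij : i ≤ j) (h : p ∈ BB i j) : ∃ l, i ≤ l ∧ l < j ∧ p ∈ Bl l := by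
  have h1 := BB_sum (fun x => if x = p then 1 else 0) i j hij
  by_contra hc
  push Not at hc
  rw [sum_ite_eq' (BB i j) p, if_pos h] at h1
  have h2 : ∑ l ∈ Ico i j, ∑ x ∈ Bl l, (if x = p then 1 else 0) = 0 := by
    refine sum_eq_zero fun l hl => sum_eq_zero fun x hx => ?_
    rw [mem_Ico] at hl
    rw [if_neg]
    rintro rfl
    exact hc l hl.1 hl.2 hx
  omega

lemma wt_BB {i j p : ℕ} (hi : 1 ≤ i) (hij : i ≤ j) (h : p ∈ BB i j) : wt p ≤ 3 / p := by
  obtain ⟨l, h1, _, h2⟩ := BB_Bl hij h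
  exact wt_le (hi.trans h1) h2

lemma W_large : ∃ i1 : ℕ, 1 ≤ i1 ∧ ∀ i, i1 ≤ i → ∀ A : ℝ, ∃ j0 : ℕ, i ≤ j0 ∧ ∀ j, j0 ≤ j → A ≤ ∑ p ∈ BB i j, wt p := by
  obtain ⟨i1, h1⟩ := theta_low
  refine ⟨max i1 1, le_max_right _ _, fun i hi A => ?_⟩
  have hi1 : 1 ≤ i := le_trans (le_max_right _ _) hi
  have ht : Tendsto (fun n : ℕ => ∑ l ∈ range n, 1 / (l : ℝ)) atTop atTop := by
    rw [← not_summable_iff_tendsto_nat_atTop_of_nonneg (fun n => by positivity)]
    exact Real.not_summable_one_div_natCast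
  obtain ⟨j0, hj0⟩ := (ht.eventually (eventually_ge_atTop (2 * A + ∑ l ∈ range i, 1 / (l : ℝ)))).exists_forall_of_atTop
  refine ⟨max j0 i, le_max_right _ _, fun j hj => ?_⟩
  have hij : i ≤ j := le_trans (le_max_right _ _) hj
  have h2 := hj0 j (le_trans (le_max_left _ _) hj)
  rw [BB_sum wt i j hij]
  have h3 : ∀ l ∈ Ico i j, 1 / 2 * (1 / (l : ℝ)) ≤ ∑ p ∈ Bl l, wt p := by
    intro l hl
    rw [mem_Ico] at hl
    have hl1 : (1 : ℝ) ≤ l := by exact_mod_cast hi1.trans hl.1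
    have e1 : ∑ p ∈ Bl l, wt p = (∑ p ∈ Bl l, Real.log p) / (l * 2 ^ l) := by
      rw [sum_div]
      exact sum_congr rfl fun p hp => wt_Bl hp
    rw [e1, le_div_iff₀ (by positivity)]
    refine le_trans (le_of_eq ?_) (h1 l (le_trans (le_max_left _ _) (hi.trans hl.1)))
    field_simp
  refine le_trans ?_ (sum_le_sum h3)
  rw [← mul_sum, sum_Ico_eq_sub _ hij]
  linarith

lemma gap (F : Set UnitAddCircle) (hF : IsClosed F) (hT : ∀ x ∈ F, ¬ IsOfFinAddOrder x) (Q : ℕ) :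
    ∃ δ : ℝ, 0 < δ ∧ ∀ y ∈ F, ∀ q : ℕ, 1 ≤ q → q ≤ Q → δ ≤ ‖q • y‖ := by
  induction Q with
  | zero => exact ⟨1, one_pos, fun y _ q h1 h2 => by omega⟩
  | succ Q ih =>
    obtain ⟨δ, hδ, h⟩ := ih
    rcases F.eq_empty_or_nonempty with hE | hne
    · exact ⟨1, one_pos, fun y hy => by rw [hE] at hy; exact absurd hy (Set.notMem_empty y)⟩
    · obtain ⟨y0, hy0, hmin⟩ := hF.isCompact.exists_isMinOn hne
        (f := fun y : UnitAddCircle => ‖(Q + 1) • y‖) (by fun_prop)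
      have hpos : 0 < ‖(Q + 1) • y0‖ := by
        rw [norm_pos_iff]
        intro h0
        exact hT y0 hy0 (isOfFinAddOrder_iff_nsmul_eq_zero.2 ⟨Q + 1, by omega, h0⟩)
      refine ⟨min δ ‖(Q + 1) • y0‖, lt_min hδ hpos, fun y hy q h1 h2 => ?_⟩
      rcases Nat.lt_or_ge q (Q + 1) with h3 | h3
      · exact (min_le_left _ _).trans (h y hy q h1 (by omega))
      · have : q = Q + 1 := by omega
        subst this
        exact (min_le_right _ _).trans (hmin hy)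

lemma circle_norm_le (x : ℝ) (a : ℤ) : ‖(x : UnitAddCircle)‖ ≤ |x - a| := by
  rw [UnitAddCircle.norm_eq]
  exact round_le x a

open Classical in
/-- for most primes `p`, `p^k α` is near a closed set without torsion points with frequency at most its
measure, uniformly in `α` -/
theorem equ (k : ℕ) (hk : 1 ≤ k) (F : Set UnitAddCircle) (hF : IsClosed F)
    (hT : ∀ x ∈ F, ¬ IsOfFinAddOrder x) (ε : ℝ) (hε : 0 < ε) :
    ∃ δ : ℝ, 0 < δ ∧ ∃ i0 : ℕ, 1 ≤ i0 ∧ ∀ i, i0 ≤ i → ∃ j0, i ≤ j0 ∧ ∀ j, j0 ≤ j → ∀ α : ℝ,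
      ∑ p ∈ (BB i j).filter (fun p : ℕ => ∃ y ∈ F, ‖((α * (p : ℝ) ^ k : ℝ) : UnitAddCircle) - y‖ ≤ δ), wt p ≤
        (volume.real F + ε) * ∑ p ∈ BB i j, wt p := by
  obtain ⟨δ₀, hδ₀, g, g0, g1, g2⟩ := majorant F hF (ε / 4) (by positivity)
  set G : C(UnitAddCircle, ℂ) := ⟨fun t => ((g t : ℝ) : ℂ), by fun_prop⟩ with hG
  obtain ⟨M₀, η, hη, hEW⟩ := EW_all G (ε / 4) (by positivity)
  obtain ⟨Q, C, i1, hQ, hC, hbl⟩ := block_inv k hk (η / 2) (by positivity)
  obtain ⟨i2, hth⟩ := theta_low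
  obtain ⟨i3, hi3, hW⟩ := W_large
  set Q' : ℕ := Q * M₀ + 1 with hQ'
  have hQ'r : (0 : ℝ) < Q' := by positivity
  obtain ⟨δ₂, hδ₂, hgap⟩ := gap F hF hT Q'
  -- a depth
  obtain ⟨D, hD⟩ : ∃ D : ℕ, C * 2 * 2 ^ k * (1 / 2 : ℝ) ^ D ≤ δ₂ / 3 := by
    have h1 := (tendsto_pow_atTop_nhds_zero_of_lt_one (r := (1 / 2 : ℝ)) (by norm_num) (by norm_num)).const_mul (C * 2 * 2 ^ k)
    rw [mul_zero] at h1
    have h2 := (h1.eventually (ge_mem_nhds (show (0 : ℝ) < δ₂ / 3 by positivity))).exists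
    exact h2
  set δ : ℝ := min δ₀ (δ₂ / (3 * Q')) with hδ
  have hδpos : 0 < δ := lt_min hδ₀ (by positivity)
  refine ⟨δ, hδpos, max (max i1 i2) (max i3 1), le_trans (le_max_right _ _) (le_max_right _ _), fun i hi => ?_⟩
  have hii1 : i1 ≤ i := le_trans (le_trans (le_max_left _ _) (le_max_left _ _)) hi
  have hii2 : i2 ≤ i := le_trans (le_trans (le_max_right _ _) (le_max_left _ _)) hi
  have hii3 : i3 ≤ i := le_trans (le_trans (le_max_left _ _) (le_max_right _ _)) hi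
  have hi1 : 1 ≤ i := le_trans (le_trans (le_max_right _ _) (le_max_right _ _)) hi
  obtain ⟨j0, hij0, hj0⟩ := hW i hii3 (3 * D * (4 / ε))
  refine ⟨j0, hij0, fun j hj α => ?_⟩
  have hij : i ≤ j := hij0.trans hj
  set near : ℕ → Prop := fun p => ∃ y ∈ F, ‖((α * (p : ℝ) ^ k : ℝ) : UnitAddCircle) - y‖ ≤ δ with hnear
  set T : ℕ → ℝ := fun l => ∑ p ∈ Bl l, (if near p then wt p else 0) with hTd
  set Wl : ℕ → ℝ := fun l => ∑ p ∈ Bl l, wt p with hWl
  set c : ℝ := volume.real F + ε / 2 with hc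
  have hc0 : 0 ≤ c := by rw [hc]; positivity
  have hWl0 : ∀ l, 0 ≤ Wl l := fun l => sum_nonneg fun p _ => wt_nonneg p
  have hTle : ∀ l, T l ≤ Wl l := fun l => sum_le_sum fun p _ => by
    split_ifs
    · exact le_rfl
    · exact wt_nonneg p
  have hWl3 : ∀ l, 1 ≤ l → Wl l ≤ 3 := by
    intro l hl
    have hlr : (1 : ℝ) ≤ l := by exact_mod_cast hl
    have e1 : Wl l = (∑ p ∈ Bl l, Real.log p) / (l * 2 ^ l) := by
      rw [hWl, sum_div]
      exact sum_congr rfl fun p hp => wt_Bl hp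
    rw [e1, div_le_iff₀ (by positivity)]
    have h1 := theta_up l
    have h2 : (0 : ℝ) < 2 ^ l := by positivity
    nlinarith
  -- good blocks
  set bad : ℕ → Prop := fun l => ∃ m ∈ Icc 1 M₀, η * ∑ p ∈ Bl l, Real.log p <
    ‖∑ p ∈ Bl l, ((Real.log p : ℝ) : ℂ) * ee ((m : ℝ) * (α * (p : ℝ) ^ k))‖ with hbad
  have hgood : ∀ l, i ≤ l → ¬ bad l → T l ≤ c * Wl l := by
    intro l hl hnb
    have hl1 : 1 ≤ l := hi1.trans hl
    have hlr : (1 : ℝ) ≤ l := by exact_mod_cast hl1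
    have hnb' : ∀ m ∈ Icc 1 M₀, ‖∑ p ∈ Bl l, ((Real.log p : ℝ) : ℂ) * ee ((m : ℝ) * (α * (p : ℝ) ^ k))‖ ≤
        η * ∑ p ∈ Bl l, Real.log p := by
      intro m hm
      by_contra hcon
      exact hnb ⟨m, hm, not_le.1 hcon⟩
    have h1 := hEW (Bl l) (fun p => Real.log p) (fun p => α * (p : ℝ) ^ k)
      (fun p _ => Real.log_natCast_nonneg p) hnb'
    have e1 : ∑ p ∈ Bl l, ((Real.log p : ℝ) : ℂ) * G ((α * (p : ℝ) ^ k : ℝ) : UnitAddCircle) =
        ((∑ p ∈ Bl l, Real.log p * g ((α * (p : ℝ) ^ k : ℝ) : UnitAddCircle) : ℝ) : ℂ) := by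
      push_cast
      rfl
    have e2 : ∫ t, G t = ((∫ t, g t : ℝ) : ℂ) := by
      rw [← integral_complex_ofReal]
      rfl
    rw [e1, e2, ← Complex.ofReal_mul, ← Complex.ofReal_sub, Complex.norm_real, Real.norm_eq_abs] at h1
    have h2 := (abs_le.1 h1).2
    set θ := ∑ p ∈ Bl l, Real.log p with hθ
    have hθ0 : 0 ≤ θ := sum_nonneg fun p _ => Real.log_natCast_nonneg p
    have h3 : ∑ p ∈ Bl l, (if near p then Real.log p else 0) ≤
        ∑ p ∈ Bl l, Real.log p * g ((α * (p : ℝ) ^ k : ℝ) : UnitAddCircle) := by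
      refine sum_le_sum fun p _ => ?_
      split_ifs with hn
      · obtain ⟨y, hy, hyd⟩ := hn
        rw [g1 _ y hy (hyd.trans (min_le_left _ _)), mul_one]
      · exact mul_nonneg (Real.log_natCast_nonneg p) (g0 _)
    have h4 : θ * ∫ t, g t ≤ θ * (volume.real F + ε / 4) := mul_le_mul_of_nonneg_left g2 hθ0
    have h5 : ∑ p ∈ Bl l, (if near p then Real.log p else 0) ≤ c * θ := by
      rw [hc]; linarith
    have e3 : T l = (∑ p ∈ Bl l, (if near p then Real.log p else 0)) / (l * 2 ^ l) := by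
      rw [hTd, sum_div]
      refine sum_congr rfl fun p hp => ?_
      split_ifs
      · exact wt_Bl hp
      · rw [zero_div]
    have e4 : Wl l = θ / (l * 2 ^ l) := by
      rw [hWl, hθ, sum_div]
      exact sum_congr rfl fun p hp => wt_Bl hp
    rw [e3, e4, mul_div_assoc']
    exact div_le_div_of_nonneg_right h5 (by positivity)
  -- small blocks below a bad one
  have hlow : ∀ l' l, i ≤ l' → bad l' → l + D ≤ l' → T l = 0 := by
    intro l' l hl' ⟨m, hm, hb⟩ hlD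
    rw [mem_Icc] at hm
    have h1 := hth l' (hii2.trans hl')
    have h2 : η / 2 * 2 ^ l' ≤ ‖∑ p ∈ Bl l', ((Real.log p : ℝ) : ℂ) * ee ((m * α) * (p : ℝ) ^ k)‖ := by
      have e1 : ∑ p ∈ Bl l', ((Real.log p : ℝ) : ℂ) * ee ((m * α) * (p : ℝ) ^ k) =
          ∑ p ∈ Bl l', ((Real.log p : ℝ) : ℂ) * ee ((m : ℝ) * (α * (p : ℝ) ^ k)) := by
        refine sum_congr rfl fun p _ => ?_
        rw [mul_assoc]
      rw [e1]
      refine le_trans ?_ hb.le
      nlinarith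
    obtain ⟨q, hq1, hqQ, a, ha⟩ := hbl l' (hii1.trans hl') _ h2
    refine sum_eq_zero fun p hp => ?_
    rw [if_neg]
    rintro ⟨y, hy, hyd⟩
    have hqm1 : 1 ≤ q * m := Nat.mul_pos hq1 hm.1
    have hqmQ : q * m ≤ Q' := by
      rw [hQ']
      have := Nat.mul_le_mul hqQ hm.2
      omega
    have h3 := hgap y hy (q * m) hqm1 hqmQ
    have hqmr : ((q * m : ℕ) : ℝ) ≤ Q' := by exact_mod_cast hqmQ
    rw [mem_Bl] at hp
    have hp2 : (p : ℝ) ≤ 2 ^ (l + 1) := by exact_mod_cast hp.1.2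
    have h4 : ‖(q * m) • ((α * (p : ℝ) ^ k : ℝ) : UnitAddCircle)‖ ≤ δ₂ / 3 := by
      have e2 : (q * m) • ((α * (p : ℝ) ^ k : ℝ) : UnitAddCircle) =
          (((q * m : ℕ) * (α * (p : ℝ) ^ k) : ℝ) : UnitAddCircle) := by
        rw [← AddCircle.coe_nsmul, nsmul_eq_mul]
      rw [e2]
      refine (circle_norm_le _ (a * (p : ℤ) ^ k)).trans ?_
      have e3 : ((q * m : ℕ) * (α * (p : ℝ) ^ k) : ℝ) - ((a * (p : ℤ) ^ k : ℤ) : ℝ) =
          (q * (m * α) - a) * (p : ℝ) ^ k := by push_cast; ring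
      rw [e3, abs_mul, abs_of_nonneg (by positivity : (0 : ℝ) ≤ (p : ℝ) ^ k)]
      have h5 : (p : ℝ) ^ k ≤ (2 ^ (l + 1)) ^ k := pow_le_pow_left₀ (by positivity) hp2 k
      calc |(q : ℝ) * (m * α) - a| * (p : ℝ) ^ k ≤ C / ((2 : ℝ) ^ l') ^ k * (2 ^ (l + 1)) ^ k :=
            mul_le_mul ha h5 (by positivity) (by positivity)
        _ ≤ C * 2 * 2 ^ k * (1 / 2 : ℝ) ^ D := by
            have e4 : C / ((2 : ℝ) ^ l') ^ k * (2 ^ (l + 1)) ^ k = C * 2 ^ k * ((2 : ℝ) ^ l / 2 ^ l') ^ k := by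
              rw [pow_succ, mul_pow, div_pow]
              ring
            rw [e4]
            have h6 : (2 : ℝ) ^ l / 2 ^ l' ≤ (1 / 2) ^ D := by
              rw [div_le_iff₀ (by positivity), one_div_pow, div_mul_eq_mul_div, one_mul,
                le_div_iff₀ (by positivity), ← pow_add]
              exact pow_le_pow_right₀ (by norm_num) hlD
            have h7 : ((2 : ℝ) ^ l / 2 ^ l') ^ k ≤ (2 : ℝ) ^ l / 2 ^ l' := by
              apply pow_le_of_le_one (by positivity) _ (by omega)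
              exact h6.trans (pow_le_one₀ (by norm_num) (by norm_num))
            have h8 : 0 ≤ C * 2 ^ k := by positivity
            have h9 : (0 : ℝ) ≤ (1 / 2 : ℝ) ^ D := by positivity
            calc C * 2 ^ k * ((2 : ℝ) ^ l / 2 ^ l') ^ k ≤ C * 2 ^ k * (1 / 2 : ℝ) ^ D :=
                  mul_le_mul_of_nonneg_left (h7.trans h6) h8
              _ ≤ C * 2 * 2 ^ k * (1 / 2 : ℝ) ^ D := by nlinarith [mul_nonneg h8 h9]
        _ ≤ _ := hD
    have h5 : ‖(q * m) • y‖ ≤ ‖(q * m) • ((α * (p : ℝ) ^ k : ℝ) : UnitAddCircle)‖ +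
        ‖(q * m) • (((α * (p : ℝ) ^ k : ℝ) : UnitAddCircle) - y)‖ := by
      have e5 : (q * m) • y = (q * m) • ((α * (p : ℝ) ^ k : ℝ) : UnitAddCircle) -
          (q * m) • (((α * (p : ℝ) ^ k : ℝ) : UnitAddCircle) - y) := by
        rw [smul_sub]; abel
      rw [e5]
      exact norm_sub_le _ _
    have h6 : ‖(q * m) • (((α * (p : ℝ) ^ k : ℝ) : UnitAddCircle) - y)‖ ≤ δ₂ / 3 := by
      refine (norm_nsmul_le).trans ?_
      calc ((q * m : ℕ) : ℝ) * ‖((α * (p : ℝ) ^ k : ℝ) : UnitAddCircle) - y‖ ≤ Q' * (δ₂ / (3 * Q')) :=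
            mul_le_mul hqmr (hyd.trans (min_le_right _ _)) (norm_nonneg _) hQ'r.le
        _ = δ₂ / 3 := by field_simp
    linarith
  -- all blocks
  obtain ⟨ls, hls⟩ : ∃ ls : ℕ, ∀ l ∈ Ico i j, T l ≤ c * Wl l ∨ (ls < l + D ∧ l ≤ ls) := by
    by_cases hne : ((Ico i j).filter bad).Nonempty
    · refine ⟨((Ico i j).filter bad).max' hne, fun l hl => ?_⟩
      set ls := ((Ico i j).filter bad).max' hne with hlsd
      have hlsm : ls ∈ (Ico i j).filter bad := max'_mem _ hne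
      rw [mem_filter, mem_Ico] at hlsm
      rw [mem_Ico] at hl
      by_cases h1 : l ≤ ls
      · by_cases h2 : l + D ≤ ls
        · left
          rw [hlow ls l hlsm.1.1 hlsm.2 h2]
          exact mul_nonneg hc0 (hWl0 l)
        · right
          exact ⟨by omega, h1⟩
      · left
        apply hgood l hl.1
        intro hb
        exact h1 (le_max' _ l (by rw [mem_filter, mem_Ico]; exact ⟨hl, hb⟩))
    · refine ⟨0, fun l hl => ?_⟩
      left
      rw [not_nonempty_iff_eq_empty] at hne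
      have hl' := mem_Ico.1 hl
      apply hgood l hl'.1
      intro hb
      have : l ∈ (Ico i j).filter bad := by rw [mem_filter]; exact ⟨hl, hb⟩
      rw [hne] at this
      exact absurd this (notMem_empty l)
  have hfin : ∑ l ∈ Ico i j, T l ≤ ∑ l ∈ Ico i j, (c * Wl l + if (ls < l + D ∧ l ≤ ls) then 3 else 0) := by
    refine sum_le_sum fun l hl => ?_
    have hl' := mem_Ico.1 hl
    rcases hls l hl with h1 | h1
    · split_ifs <;> linarith
    · rw [if_pos h1]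
      have h2 := (hTle l).trans (hWl3 l (hi1.trans hl'.1))
      have h3 := mul_nonneg hc0 (hWl0 l)
      linarith
  rw [sum_filter]
  have eT : ∑ p ∈ BB i j, (if near p then wt p else 0) = ∑ l ∈ Ico i j, T l := BB_sum _ i j hij
  have eW : ∑ p ∈ BB i j, wt p = ∑ l ∈ Ico i j, Wl l := BB_sum _ i j hij
  have hcard : ∑ l ∈ Ico i j, (if (ls < l + D ∧ l ≤ ls) then (3 : ℝ) else 0) ≤ 3 * D := by
    rw [← sum_filter, sum_const, nsmul_eq_mul, mul_comm]
    have h1 : ((Ico i j).filter (fun l => ls < l + D ∧ l ≤ ls)) ⊆ Ico (ls + 1 - D) (ls + 1) := by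
      intro l hl
      rw [mem_filter] at hl
      rw [mem_Ico]
      omega
    have h2 := card_le_card h1
    rw [Nat.card_Ico] at h2
    have h3 : ((Ico i j).filter (fun l => ls < l + D ∧ l ≤ ls)).card ≤ D := by omega
    have h4 : (((Ico i j).filter (fun l => ls < l + D ∧ l ≤ ls)).card : ℝ) ≤ D := by exact_mod_cast h3
    linarith
  rw [sum_add_distrib, ← mul_sum, ← eW] at hfin
  rw [eT]
  have hWj := hj0 j hj
  have h10 : 3 * (D : ℝ) ≤ ε / 4 * ∑ p ∈ BB i j, wt p := by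
    calc 3 * (D : ℝ) = ε / 4 * (3 * D * (4 / ε)) := by field_simp
      _ ≤ _ := mul_le_mul_of_nonneg_left hWj (by positivity)
  have h11 : 0 ≤ ∑ p ∈ BB i j, wt p := sum_nonneg fun p _ => wt_nonneg p
  rw [hc] at hfin
  nlinarith

end Pool.Agent.Q259.FQ
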