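import Pool.Agent.Q259.FQ.C1
import Pool.Agent.Q259.FQ.D4

set_option autoImplicit false

/-!
# The energy increment, for one window
-/

namespace Pool.Agent.Q259.FQ

open Finset
open Pool.Agent.Helper602.MK (ee)
open Pool.Agent.H373R2.NB (Ph IW IW_all Ph_poly)

/-- some phase with leading coefficient in `E` correlates on the window -/
def Ev (f : ℕ → ℂ) (k : ℕ) (E : Set UnitAddCircle) (c : ℝ) (n : ℕ) (H : ℝ) : Prop :=
  ∃ ρ : ℝ, (ρ : UnitAddCircle) ∈ E ∧ ∃ ψ : ℕ → ℝ, Ph k ρ ψ ∧ c ≤ ‖AA f n H ψ‖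

open Classical in
/-- its indicator -/
noncomputable def ev (f : ℕ → ℂ) (k : ℕ) (E : Set UnitAddCircle) (c : ℝ) (n : ℕ) (H : ℝ) : ℝ :=
  if Ev f k E c n H then 1 else 0

lemma ev_nonneg (f : ℕ → ℂ) (k : ℕ) (E : Set UnitAddCircle) (c : ℝ) (n : ℕ) (H : ℝ) : 0 ≤ ev f k E c n H := by
  unfold ev; split_ifs <;> norm_num

lemma ev_le_one (f : ℕ → ℂ) (k : ℕ) (E : Set UnitAddCircle) (c : ℝ) (n : ℕ) (H : ℝ) : ev f k E c n H ≤ 1 := by
  unfold ev; split_ifs <;> norm_num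

open Classical in
lemma ub {ι : Type*} (s : Finset ℕ) (X : Finset ι) (P : ι → ℕ → Prop) (w : ℕ → ℝ) (hw : ∀ p ∈ s, 0 ≤ w p) :
    ∑ p ∈ s, (if ∃ x ∈ X, P x p then w p else 0) ≤ ∑ x ∈ X, ∑ p ∈ s, (if P x p then w p else 0) := by
  rw [sum_comm]
  refine sum_le_sum fun p hp => ?_
  split_ifs with h
  · obtain ⟨x, hx, hP⟩ := h
    have := single_le_sum (f := fun x => if P x p then w p else 0) (s := X)
      (fun y _ => by split_ifs <;> [exact hw p hp; exact le_rfl]) hx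
    simp only [if_pos hP] at this
    exact this
  · refine sum_nonneg fun y _ => ?_
    split_ifs <;> [exact hw p hp; exact le_rfl]

lemma sq_step (x y e : ℝ) (hx : 0 ≤ x) (hx2 : x ≤ 2) (hy : 0 ≤ y) (he : 0 ≤ e) (h : x ≤ y + e) :
    x ^ 2 ≤ y ^ 2 + 4 * e := by
  rcases le_total x y with h1 | h1
  · have := pow_le_pow_left₀ hx h1 2
    linarith
  · nlinarith

open Classical in
theorem pointwise (f : ℕ → ℂ) (hf : ∀ n, ‖f n‖ ≤ 1) (hm : ∀ a b : ℕ, a.Coprime b → f (a * b) = f a * f b)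
    (k Q R : ℕ) (K : ℝ) (hWP : WP k Q R K) (hQ : 1 ≤ Q) (hK : 0 ≤ K) (c : ℝ) (hc : 0 < c) (hc1 : c ≤ 1)
    (hR : 4 ≤ c ^ 2 * R) (E : Set UnitAddCircle) (i j : ℕ) (hi : 1 ≤ i) (hij : i ≤ j) (hQi : Q < 2 ^ i)
    (H : ℝ) (hH1 : 4 * (2 : ℝ) ^ j ≤ H) (hH2 : 12 * ((2 : ℝ) ^ j) ^ 2 ≤ H)
    (hH3 : 2 * Q * K * ((2 : ℝ) ^ j) ^ (2 * k) < H ^ k) (δ : ℝ) (hδ : K * ((2 : ℝ) ^ j) ^ k / H ^ k ≤ δ)
    (κ : ℕ → ℝ) (W : ℝ) (hW : W = ∑ p ∈ BB i j, wt p)
    (hκ : ∀ q ∈ Icc 1 Q, ∀ α : ℝ, ∑ p ∈ (BB i j).filter (fun p : ℕ => ∃ y ∈ (fun x : UnitAddCircle => q • x) '' E,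
      ‖((α * (p : ℝ) ^ k : ℝ) : UnitAddCircle) - y‖ ≤ δ), wt p ≤ κ q * W)
    (τ : ℝ) (hτ : 0 < τ) (n : ℕ) :
    W * VV f k Q R K n H + c ^ 2 / 2 * ∑ p ∈ BB i j, wt p * ev f k E c (cd n p) (H / p) ≤
      ∑ p ∈ BB i j, wt p * VV f k Q R K (cd n p) (H / p) + (2 * τ * W +
      4 * (R * (4 * √W + W * (2 / 2 ^ i + 8 * 2 ^ j / H))) + 9 * R ^ 2 / 2 ^ i +
      c ^ 2 / 2 * (R * (∑ q ∈ Icc 1 Q, κ q) * W)) := by
  have h2i : (0 : ℝ) < 2 ^ i := by positivity
  have h2j1 : (1 : ℝ) ≤ 2 ^ j := one_le_pow₀ (by norm_num)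
  have hH4 : 4 ≤ H := by linarith
  have hH0 : 0 < H := by linarith
  have hw0 : ∀ p ∈ BB i j, 0 ≤ wt p := fun p _ => wt_nonneg p
  have hW0 : 0 ≤ W := by rw [hW]; exact sum_nonneg hw0
  have hmem : ∀ p ∈ BB i j, p.Prime ∧ (2 : ℝ) ^ i < p ∧ (p : ℝ) ≤ 2 ^ j ∧ 4 * (p : ℝ) ≤ H ∧ Q < p := by
    intro p hp
    rw [mem_BB] at hp
    have h1 : (p : ℝ) ≤ 2 ^ j := by exact_mod_cast hp.1.2
    exact ⟨hp.2, by exact_mod_cast hp.1.1, h1, by linarith, by omega⟩
  obtain ⟨T, hT, hTV⟩ := VV_near f k Q R K n H τ hτ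
  have hTR : (T.card : ℝ) ≤ R := by exact_mod_cast hT.1
  have hη : 0 < τ / (R + 1) := by positivity
  choose φ hφ using fun α : ℝ => gg_near f k n H α (τ / (R + 1)) hη
  set S : ℝ := ∑ α ∈ T, ‖AA f n H (φ α)‖ ^ 2 with hS
  have hSV : VV f k Q R K n H - 2 * τ ≤ S := by
    have h1 : ∑ α ∈ T, gg f k n H α ≤ S + T.card * (τ / (R + 1)) := by
      rw [hS, ← nsmul_eq_mul, ← sum_const, ← sum_add_distrib]
      exact sum_le_sum fun α _ => by linarith [(hφ α).2]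
    have h2 : (T.card : ℝ) * (τ / (R + 1)) ≤ τ := by
      calc (T.card : ℝ) * (τ / (R + 1)) ≤ (R + 1) * (τ / (R + 1)) :=
            mul_le_mul_of_nonneg_right (by linarith) hη.le
        _ = τ := by field_simp
    linarith
  have hS2 : S ≤ 2 := by
    refine le_trans ?_ (fam_le f hf k Q R K hWP n H hH4 T hT)
    exact sum_le_sum fun α _ => le_gg f hf k n H (by linarith) α _ (hφ α).1
  set e : ℕ → ℝ → ℝ := fun p α => DD f n H (φ α) p + 2 / p + 8 * p / H with he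
  set bad : ℕ → Prop := fun p => ∃ x ∈ T ×ˢ T, x.1 ≠ x.2 ∧ ¬ Sep k Q K (H / p) ((p : ℝ) ^ k * (x.1 - x.2)) with hbad
  set near : ℕ → Prop := fun p => ∃ x ∈ T ×ˢ Icc 1 Q, ∃ y ∈ (fun z : UnitAddCircle => x.2 • z) '' E,
    ‖(((x.2 * x.1) * (p : ℝ) ^ k : ℝ) : UnitAddCircle) - y‖ ≤ δ with hnear
  have hc2 : c ^ 2 / 2 ≤ 1 / 2 := by
    have : c ^ 2 ≤ 1 := pow_le_one₀ hc.le hc1
    linarith
  have hc20 : 0 < c ^ 2 / 2 := by positivity
  have he0 : ∀ p α, 0 ≤ e p α := fun p α => by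
    have := DD_nonneg f n H (by linarith) (φ α) p
    simp only [he]
    positivity
  -- one prime
  have hone : ∀ p ∈ BB i j, S + c ^ 2 / 2 * ev f k E c (cd n p) (H / p) ≤
      VV f k Q R K (cd n p) (H / p) + 4 * ∑ α ∈ T, e p α + (if bad p then 3 else 0) +
        (if near p then c ^ 2 / 2 else 0) := by
    intro p hp
    obtain ⟨hpp, hp2i, hp2j, hp4, hpQ⟩ := hmem p hp
    have hp0 : (0 : ℝ) < p := by linarith
    have hHp4 : 4 ≤ H / p := by rw [le_div_iff₀ hp0]; linarith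
    have hesum : 0 ≤ ∑ α ∈ T, e p α := sum_nonneg fun α _ => he0 p α
    have hev := ev_le_one f k E c (cd n p) (H / p)
    have hev0 := ev_nonneg f k E c (cd n p) (H / p)
    have hevc : c ^ 2 / 2 * ev f k E c (cd n p) (H / p) ≤ c ^ 2 / 2 := by nlinarith
    have hVV := VV_nonneg f k Q R K (cd n p) (H / p)
    by_cases hb : bad p
    · rw [if_pos hb]
      have : (0 : ℝ) ≤ if near p then c ^ 2 / 2 else 0 := by split_ifs <;> linarith
      linarith
    · rw [if_neg hb, add_zero]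
      have hgood : ∀ α ∈ T, ∀ β ∈ T, α ≠ β → Sep k Q K (H / p) ((p : ℝ) ^ k * (α - β)) := by
        intro α hα β hβ hab
        by_contra hcon
        exact hb ⟨(α, β), mem_product.2 ⟨hα, hβ⟩, hab, hcon⟩
      have hF := fam_dil k Q R K H T hT p hgood
      have hsd := sum_dil f k (cd n p) (H / p) T p hpp.one_lt.le
      have h1 : S ≤ ∑ α ∈ T, gg f k (cd n p) (H / p) ((p : ℝ) ^ k * α) + 4 * ∑ α ∈ T, e p α := by
        rw [hS, mul_sum, ← sum_add_distrib]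
        refine sum_le_sum fun α _ => ?_
        have h2 := dil_le f hf hm n H (φ α) p hpp (by linarith)
        have h3 := le_gg f hf k (cd n p) (H / p) (by linarith) _ _ (Ph_dph k n p α (φ α) (hφ α).1)
        have h4 := sq_step _ _ (e p α) (norm_nonneg _) (AA_le_two f hf n H (by linarith) (φ α)) (norm_nonneg _)
          (he0 p α) (by simp only [he]; linarith)
        linarith
      by_cases hE : Ev f k E c (cd n p) (H / p)
      · by_cases hn : near p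
        · rw [if_pos hn]
          have h5 := le_VV f hf k Q R K hWP (cd n p) (H / p) hHp4 _ hF
          rw [hsd] at h5
          linarith
        · rw [if_neg hn, add_zero]
          obtain ⟨ρ, hρE, ψ, hψ, hcψ⟩ := hE
          have hg : c ^ 2 ≤ gg f k (cd n p) (H / p) ρ :=
            (pow_le_pow_left₀ hc.le hcψ 2).trans (le_gg f hf k (cd n p) (H / p) (by linarith) ρ ψ hψ)
          have hsep : ∀ β ∈ T.image (fun α => (p : ℝ) ^ k * α), Sep k Q K (H / p) (ρ - β) := by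
            intro β hβ
            rw [mem_image] at hβ
            obtain ⟨α, hα, rfl⟩ := hβ
            by_contra hcon
            unfold Sep at hcon
            push Not at hcon
            obtain ⟨q, hq1, hqQ, a, ha⟩ := hcon
            apply hn
            refine ⟨(α, q), mem_product.2 ⟨hα, mem_Icc.2 ⟨hq1, hqQ⟩⟩, q • (ρ : UnitAddCircle), ⟨_, hρE, rfl⟩, ?_⟩
            have e1 : (((q : ℝ) * α * (p : ℝ) ^ k : ℝ) : UnitAddCircle) - q • (ρ : UnitAddCircle) =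
                (((q : ℝ) * α * (p : ℝ) ^ k - q * ρ : ℝ) : UnitAddCircle) := by
              rw [AddCircle.coe_sub, ← AddCircle.coe_nsmul, nsmul_eq_mul]
            show ‖(((q : ℝ) * α * (p : ℝ) ^ k : ℝ) : UnitAddCircle) - q • (ρ : UnitAddCircle)‖ ≤ δ
            rw [e1]
            refine (circle_norm_le _ (-a)).trans ?_
            have e2 : (q : ℝ) * α * (p : ℝ) ^ k - q * ρ - ((-a : ℤ) : ℝ) = -(q * (ρ - (p : ℝ) ^ k * α) - a) := by
              push_cast; ring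
            rw [e2, abs_neg]
            refine ha.trans (le_trans ?_ hδ)
            rw [div_pow, div_div_eq_mul_div]
            gcongr
          have h5 := fam_add f hf k Q R K hWP hQ hK c hc hR (cd n p) (H / p) hHp4 _ hF ρ hsep hg
          rw [hsd] at h5
          linarith
      · have h5 := le_VV f hf k Q R K hWP (cd n p) (H / p) hHp4 _ hF
        rw [hsd] at h5
        have h6 : ev f k E c (cd n p) (H / p) = 0 := by unfold ev; rw [if_neg hE]
        rw [h6, mul_zero, add_zero]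
        have : (0 : ℝ) ≤ if near p then c ^ 2 / 2 else 0 := by split_ifs <;> linarith
        linarith
  -- sum over the primes
  have hsum : ∑ p ∈ BB i j, wt p * (S + c ^ 2 / 2 * ev f k E c (cd n p) (H / p)) ≤
      ∑ p ∈ BB i j, wt p * (VV f k Q R K (cd n p) (H / p) + 4 * ∑ α ∈ T, e p α + (if bad p then 3 else 0) +
        (if near p then c ^ 2 / 2 else 0)) :=
    sum_le_sum fun p hp => mul_le_mul_of_nonneg_left (hone p hp) (hw0 p hp)
  have eL : ∑ p ∈ BB i j, wt p * (S + c ^ 2 / 2 * ev f k E c (cd n p) (H / p)) =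
      W * S + c ^ 2 / 2 * ∑ p ∈ BB i j, wt p * ev f k E c (cd n p) (H / p) := by
    rw [hW, sum_mul, mul_sum, ← sum_add_distrib]
    exact sum_congr rfl fun p _ => by ring
  have eR : ∑ p ∈ BB i j, wt p * (VV f k Q R K (cd n p) (H / p) + 4 * ∑ α ∈ T, e p α + (if bad p then 3 else 0) +
        (if near p then c ^ 2 / 2 else 0)) =
      ∑ p ∈ BB i j, wt p * VV f k Q R K (cd n p) (H / p) + 4 * ∑ α ∈ T, ∑ p ∈ BB i j, wt p * e p α +
      3 * ∑ p ∈ BB i j, (if bad p then wt p else 0) + c ^ 2 / 2 * ∑ p ∈ BB i j, (if near p then wt p else 0) := by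
    rw [sum_comm (s := T), mul_sum, mul_sum, mul_sum, ← sum_add_distrib, ← sum_add_distrib, ← sum_add_distrib]
    refine sum_congr rfl fun p _ => ?_
    rw [mul_add, mul_add, mul_add, ← mul_sum]
    congr 1
    · congr 1
      · ring
      · split_ifs <;> ring
    · split_ifs <;> ring
  rw [eL, eR] at hsum
  -- the error terms
  have hE1 : ∀ α ∈ T, ∑ p ∈ BB i j, wt p * e p α ≤ 4 * √W + W * (2 / 2 ^ i + 8 * 2 ^ j / H) := by
    intro α _
    have h1 : ∑ p ∈ BB i j, wt p * e p α = ∑ p ∈ BB i j, wt p * DD f n H (φ α) p +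
        ∑ p ∈ BB i j, wt p * (2 / p + 8 * p / H) := by
      rw [← sum_add_distrib]
      refine sum_congr rfl fun p _ => ?_
      simp only [he]
      ring
    have h2 : ∑ p ∈ BB i j, wt p * (2 / p + 8 * p / H) ≤ W * (2 / 2 ^ i + 8 * 2 ^ j / H) := by
      rw [hW, sum_mul]
      refine sum_le_sum fun p hp => mul_le_mul_of_nonneg_left ?_ (hw0 p hp)
      obtain ⟨_, hp2i, hp2j, _, _⟩ := hmem p hp
      have hp0 : (0 : ℝ) < p := by linarith
      gcongr
    have h3 : ∑ p ∈ BB i j, wt p * DD f n H (φ α) p ≤ 4 * √W := by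
      have h4 := DD_sum f hf n H (by linarith) (φ α) (BB i j) (2 ^ j)
        (fun p hp => by rw [mem_BB] at hp; exact ⟨hp.2, hp.1.2⟩) wt hw0 (fun p hp => wt_BB hi hij hp)
        (by push_cast; exact hH2)
      have h5 : (∑ p ∈ BB i j, wt p * DD f n H (φ α) p) ^ 2 ≤ W * 16 := by
        have h6 := sum_mul_sq_le_sq_mul_sq (BB i j) (fun p => √(wt p)) (fun p => √(wt p) * DD f n H (φ α) p)
        have h7 : ∑ p ∈ BB i j, √(wt p) * (√(wt p) * DD f n H (φ α) p) = ∑ p ∈ BB i j, wt p * DD f n H (φ α) p :=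
          sum_congr rfl fun p hp => by rw [← mul_assoc, Real.mul_self_sqrt (hw0 p hp)]
        have h8 : ∑ p ∈ BB i j, √(wt p) ^ 2 = W := by
          rw [hW]; exact sum_congr rfl fun p hp => Real.sq_sqrt (hw0 p hp)
        have h9 : ∑ p ∈ BB i j, (√(wt p) * DD f n H (φ α) p) ^ 2 = ∑ p ∈ BB i j, wt p * DD f n H (φ α) p ^ 2 :=
          sum_congr rfl fun p hp => by rw [mul_pow, Real.sq_sqrt (hw0 p hp)]
        rw [h7, h8, h9] at h6
        exact h6.trans (mul_le_mul_of_nonneg_left h4 hW0)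
      have h10 : W * 16 = (4 * √W) ^ 2 := by rw [mul_pow, Real.sq_sqrt hW0]; ring
      rw [h10] at h5
      exact (abs_le_of_sq_le_sq' h5 (by positivity)).2
    linarith
  have hE1' : ∑ α ∈ T, ∑ p ∈ BB i j, wt p * e p α ≤ R * (4 * √W + W * (2 / 2 ^ i + 8 * 2 ^ j / H)) := by
    calc _ ≤ ∑ _α ∈ T, (4 * √W + W * (2 / 2 ^ i + 8 * 2 ^ j / H)) := sum_le_sum hE1
      _ = T.card * (4 * √W + W * (2 / 2 ^ i + 8 * 2 ^ j / H)) := by rw [sum_const, nsmul_eq_mul]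
      _ ≤ _ := mul_le_mul_of_nonneg_right hTR (by positivity)
  have hE2 : ∑ p ∈ BB i j, (if bad p then wt p else 0) ≤ R ^ 2 * (3 / 2 ^ i) := by
    obtain ⟨P, hP⟩ : ∃ P : ℝ × ℝ → ℕ → Prop, ∀ x p, P x p ↔
      (x.1 ≠ x.2 ∧ ¬ Sep k Q K (H / p) ((p : ℝ) ^ k * (x.1 - x.2))) := ⟨_, fun _ _ => Iff.rfl⟩
    have hub := ub (BB i j) (T ×ˢ T) P wt hw0
    refine le_trans (le_of_eq (sum_congr rfl fun p _ => ?_)) (hub.trans ?_)
    · by_cases hb : bad p
      · rw [if_pos hb]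
        obtain ⟨x, hx, hx2⟩ := hb
        exact (if_pos ⟨x, hx, (hP x p).2 hx2⟩).symm
      · rw [if_neg hb]
        refine (if_neg ?_).symm
        rintro ⟨x, hx, hx2⟩
        exact hb ⟨x, hx, (hP x p).1 hx2⟩
    have h1 : ∀ x ∈ T ×ˢ T, ∑ p ∈ BB i j, (if P x p then wt p else 0) ≤ 3 / 2 ^ i := by
      intro x hx
      rw [mem_product] at hx
      rw [← sum_filter]
      by_cases hne : ((BB i j).filter (P x)).Nonempty
      · obtain ⟨p, hp⟩ := hne
        have hp' : p ∈ BB i j ∧ (x.1 ≠ x.2 ∧ ¬ Sep k Q K (H / p) ((p : ℝ) ^ k * (x.1 - x.2))) :=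
          ⟨(mem_filter.1 hp).1, (hP x p).1 (mem_filter.1 hp).2⟩
        have hall : (BB i j).filter (P x) = {p} := by
          refine eq_singleton_iff_unique_mem.2 ⟨hp, fun p' hp'' => ?_⟩
          by_contra hne'
          have hp3 : p' ∈ BB i j ∧ (x.1 ≠ x.2 ∧ ¬ Sep k Q K (H / p') ((p' : ℝ) ^ k * (x.1 - x.2))) :=
            ⟨(mem_filter.1 hp'').1, (hP x p').1 (mem_filter.1 hp'').2⟩
          have m1 := mem_BB.1 hp'.1
          have m2 := mem_BB.1 hp3.1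
          exact hp3.2.2 (sep_dil k Q K H _ hK hH0 (hT.2 _ hx.1 _ hx.2 hp'.2.1) (2 ^ j) (by push_cast; exact hH3) p p' m1.2 m2.2
            (hmem p hp'.1).2.2.2.2 m1.1.2 m2.1.2 (Ne.symm hne') hp'.2.2)
        rw [hall, sum_singleton]
        have h2 := wt_BB hi hij hp'.1
        obtain ⟨_, hp2i, _, _, _⟩ := hmem p hp'.1
        refine h2.trans ?_
        gcongr
      · rw [not_nonempty_iff_eq_empty] at hne
        rw [hne, sum_empty]
        positivity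
    calc _ ≤ ∑ _x ∈ T ×ˢ T, (3 : ℝ) / 2 ^ i := sum_le_sum h1
      _ = (T.card * T.card : ℕ) * (3 / 2 ^ i) := by rw [sum_const, nsmul_eq_mul, card_product]
      _ ≤ (R : ℝ) ^ 2 * (3 / 2 ^ i) := by
        push_cast
        refine mul_le_mul_of_nonneg_right ?_ (by positivity)
        rw [pow_two]
        exact mul_le_mul hTR hTR (Nat.cast_nonneg _) (Nat.cast_nonneg _)
  have hE3 : ∑ p ∈ BB i j, (if near p then wt p else 0) ≤ R * (∑ q ∈ Icc 1 Q, κ q) * W := by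
    have hub := ub (BB i j) (T ×ˢ Icc 1 Q) (fun x p => ∃ y ∈ (fun z : UnitAddCircle => x.2 • z) '' E,
      ‖(((x.2 * x.1) * (p : ℝ) ^ k : ℝ) : UnitAddCircle) - y‖ ≤ δ) wt hw0
    refine hub.trans ?_
    rw [sum_product]
    have hκ0 : 0 ≤ (∑ q ∈ Icc 1 Q, κ q) * W := by
      rw [sum_mul]
      refine sum_nonneg fun q hq => le_trans ?_ (hκ q hq 0)
      exact sum_nonneg fun p _ => wt_nonneg p
    calc ∑ α ∈ T, ∑ q ∈ Icc 1 Q, ∑ p ∈ BB i j, (if (∃ y ∈ (fun z : UnitAddCircle => q • z) '' E,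
          ‖(((q * α) * (p : ℝ) ^ k : ℝ) : UnitAddCircle) - y‖ ≤ δ) then wt p else 0)
        ≤ ∑ _α ∈ T, (∑ q ∈ Icc 1 Q, κ q) * W := by
          refine sum_le_sum fun α _ => ?_
          rw [sum_mul]
          refine sum_le_sum fun q hq => ?_
          rw [← sum_filter]
          exact hκ q hq (q * α)
      _ = T.card * ((∑ q ∈ Icc 1 Q, κ q) * W) := by rw [sum_const, nsmul_eq_mul]
      _ ≤ R * ((∑ q ∈ Icc 1 Q, κ q) * W) := mul_le_mul_of_nonneg_right hTR hκ0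
      _ = _ := by ring
  have h1 : W * (VV f k Q R K n H - 2 * τ) ≤ W * S := mul_le_mul_of_nonneg_left hSV hW0
  have h2 : c ^ 2 / 2 * ∑ p ∈ BB i j, (if near p then wt p else 0) ≤ c ^ 2 / 2 * (R * (∑ q ∈ Icc 1 Q, κ q) * W) :=
    mul_le_mul_of_nonneg_left hE3 hc20.le
  have h3 : 3 * ((R : ℝ) ^ 2 * (3 / 2 ^ i)) = 9 * R ^ 2 / 2 ^ i := by ring
  linarith

end Pool.Agent.Q259.FQ
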