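import Pool.Agent.Q257.MD.PPrime

set_option autoImplicit false

/-!
# Soft inverse theorem for power phases over primes
-/

namespace Pool.Agent.Q259.FQ

open Finset Polynomial Filter Topology
open Pool.Agent.Helper602.MK (ee)
open Pool.Agent.Helper602.MK.N_J5b (ee_add ee_zero ee_conj norm_ee)
open Pool.Agent.H373R2.NB (Ph IW IW_all Ph_poly)
open Q257.MD (FF GG minor major GG_small ev_pow_le ev_log_ge)

lemma lowest (θ : ℝ) (q : ℕ) (hq1 : 1 ≤ q) (a : ℤ) : ∃ (q1 : ℕ) (a1 : ℤ), 1 ≤ q1 ∧ IsCoprime a1 (q1 : ℤ) ∧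
    q1 ≤ q ∧ |(q1 : ℝ) * θ - a1| ≤ |(q : ℝ) * θ - a| := by
  have hgpos : 0 < Int.gcd a q := Int.gcd_pos_of_ne_zero_right _ (by exact_mod_cast (by omega : q ≠ 0))
  obtain ⟨a1, ha1⟩ := Int.gcd_dvd_left a (q : ℤ)
  obtain ⟨q1, hq1'⟩ : (Int.gcd a q) ∣ q := by
    have := Int.gcd_dvd_right a (q : ℤ)
    exact_mod_cast this
  have hq1pos : 1 ≤ q1 := by
    rcases Nat.eq_zero_or_pos q1 with h | h
    · rw [h, mul_zero] at hq1'; omega
    · exact h
  have hgr : (1 : ℝ) ≤ (Int.gcd a q : ℝ) := by exact_mod_cast hgpos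
  refine ⟨q1, a1, hq1pos, ?_, ?_, ?_⟩
  · have h5 := Int.isCoprime_iff_gcd_eq_one.2 (?_ : Int.gcd a1 (q1 : ℤ) = 1)
    · exact h5
    · have h7 : (q : ℤ) = (Int.gcd a q : ℤ) * q1 := by exact_mod_cast hq1'
      have h6 : Int.gcd a q = Int.gcd a q * Int.gcd a1 (q1 : ℤ) := by
        calc Int.gcd a q = Int.gcd ((Int.gcd a q : ℤ) * a1) ((Int.gcd a q : ℤ) * q1) := by
              rw [← ha1, ← h7]
          _ = _ := by rw [Int.gcd_mul_left]; simp
      have h8 := Nat.eq_of_mul_eq_mul_left hgpos (h6.symm.trans (mul_one _).symm)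
      exact h8
  · calc q1 = 1 * q1 := (one_mul _).symm
      _ ≤ Int.gcd a q * q1 := Nat.mul_le_mul_right _ hgpos
      _ = q := hq1'.symm
  · have h7 : (q : ℝ) = (Int.gcd a q : ℝ) * q1 := by exact_mod_cast hq1'
    have h8 : (a : ℝ) = (Int.gcd a q : ℝ) * a1 := by exact_mod_cast ha1
    have h9 : (q : ℝ) * θ - a = (Int.gcd a q : ℝ) * (q1 * θ - a1) := by
      conv_lhs => rw [h7, h8]
      ring
    rw [h9, abs_mul, abs_of_nonneg (by linarith : (0 : ℝ) ≤ (Int.gcd a q : ℝ))]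
    exact le_mul_of_one_le_left (abs_nonneg _) hgr

lemma GG_le_one (p : ℤ[X]) (q : ℕ) (hq : 1 ≤ q) (a : ℤ) : ‖GG p 1 0 q a‖ ≤ 1 := by
  unfold GG
  rw [mul_one]
  have hφ : (0 : ℝ) < Nat.totient q := by exact_mod_cast Nat.totient_pos.2 hq
  refine (norm_sum_le _ _).trans ?_
  calc ∑ r ∈ range q, ‖(if ((1 : ℕ) : ℤ) ∣ (r : ℤ) - 0 then
        ee ((a : ℝ) / q * ((p.eval (r : ℤ) : ℤ) : ℝ)) *
        ((if r.Coprime q then (1 : ℝ) / (Nat.totient q) else 0 : ℝ) : ℂ) else 0)‖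
      ≤ ∑ r ∈ range q, (if q.Coprime r then (1 : ℝ) / (Nat.totient q) else 0) := by
        refine sum_le_sum fun r _ => ?_
        have h1 : ((1 : ℕ) : ℤ) ∣ (r : ℤ) - 0 := by simp
        rw [if_pos h1, norm_mul, norm_ee, one_mul, Complex.norm_real]
        by_cases h2 : r.Coprime q
        · rw [if_pos h2, if_pos h2.symm, Real.norm_of_nonneg (by positivity)]
        · rw [if_neg h2, if_neg (fun h => h2 h.symm)]; simp
    _ = 1 := by
        rw [← sum_filter, sum_const, nsmul_eq_mul]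
        have : ((range q).filter (fun r => q.Coprime r)).card = Nat.totient q := rfl
        rw [this]
        field_simp

theorem soft_inv (k : ℕ) (hk : 1 ≤ k) (η : ℝ) (hη : 0 < η) : ∃ (Q : ℕ) (C : ℝ) (N0 : ℕ), 1 ≤ Q ∧ 0 < C ∧
    ∀ N : ℕ, N0 ≤ N → ∀ θ : ℝ, η * N ≤ ‖∑ n ∈ Icc 1 N, FF (X ^ k : ℤ[X]) 1 0 θ n‖ →
    ∃ q : ℕ, 1 ≤ q ∧ q ≤ Q ∧ ∃ a : ℤ, |q * θ - a| ≤ C / (N : ℝ) ^ k := by
  have hdeg : (X ^ k : ℤ[X]).natDegree = k := natDegree_X_pow k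
  have hd1 : 1 ≤ (X ^ k : ℤ[X]).natDegree := by rw [hdeg]; exact hk
  obtain ⟨Q0, hQ0⟩ := GG_small (X ^ k) hd1 1 one_pos 0 (η / 8) (by positivity)
  obtain ⟨B, N1, hmin⟩ := minor (X ^ k) hd1 1 one_pos 0
  obtain ⟨N2, hmaj⟩ := major (X ^ k) hd1 1 one_pos 0 B
  obtain ⟨c, m, hc, hI⟩ := IW_all k hk
  rw [hdeg] at hmin hmaj
  set u : ℝ := max 1 (2 / η) with hu
  have hu1 : 1 ≤ u := le_max_left _ _
  set D : ℝ := c * u ^ m with hD
  have hc1 : (1 : ℝ) ≤ c := by exact_mod_cast hc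
  have hD1 : 1 ≤ D := one_le_mul_of_one_le_of_one_le hc1 (one_le_pow₀ hu1)
  obtain ⟨N3, h3⟩ := ev_pow_le (4 * D * k.factorial) B
  obtain ⟨N4, h4⟩ := ev_log_ge (8 / η + 1)
  refine ⟨Q0 + 1, (Q0 + 1) * D, max (max N1 N2) (max (max N3 N4) (⌈4 * D⌉₊ + 1)), by omega, by positivity, fun N hN θ hS => ?_⟩
  have hN1 := le_trans (le_trans (le_max_left _ _) (le_max_left _ _)) hN
  have hN2 := le_trans (le_trans (le_max_right _ _) (le_max_left _ _)) hN
  have hN3 := h3 N (le_trans (le_trans (le_max_left _ _) (le_trans (le_max_left _ _) (le_max_right _ _))) hN)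
  have hN4 := h4 N (le_trans (le_trans (le_max_right _ _) (le_trans (le_max_left _ _) (le_max_right _ _))) hN)
  have hN5 : ⌈4 * D⌉₊ + 1 ≤ N := le_trans (le_trans (le_max_right _ _) (le_max_right _ _)) hN
  have hNr1 : (1 : ℝ) ≤ N := by
    have : 1 ≤ N := by omega
    exact_mod_cast this
  have hNr : (0 : ℝ) < N := by linarith
  have hND : 4 * D < N := by
    have h1 := Nat.le_ceil (4 * D)
    have h2 : ((⌈4 * D⌉₊ : ℕ) : ℝ) + 1 ≤ N := by exact_mod_cast hN5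
    linarith
  set L := Real.log N with hL
  have h8η : 0 < 8 / η := by positivity
  have hL0 : 0 < L := by linarith
  have hNL : 8 * (N : ℝ) / L < η * N := by
    rw [div_lt_iff₀ hL0]
    have h5 : 8 / η < L := by linarith
    rw [div_lt_iff₀ hη] at h5
    nlinarith
  rcases hmin N hN1 θ with h | ⟨q, hq1, hqL, a, ha⟩
  · exact absurd (hS.trans h) (not_le.2 hNL)
  obtain ⟨q1, a1, hq11, hcop, hq1q, hq1a⟩ := lowest θ q hq1 a
  have ha1 : |(q1 : ℝ) * θ - a1| ≤ L ^ B / (N : ℝ) ^ k := hq1a.trans ha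
  have hq1L : (q1 : ℝ) ≤ L ^ B := le_trans (by exact_mod_cast hq1q) hqL
  have hM' := hmaj N hN2 q1 a1 θ hq11 hq1L ha1
  set S := ∑ n ∈ Icc 1 N, FF (X ^ k : ℤ[X]) 1 0 θ n with hSd
  set W := ∑ n ∈ Icc 1 N, ee ((θ - a1 / q1) * (((X ^ k : ℤ[X]).eval (n : ℤ) : ℤ) : ℝ)) with hW
  have hWle : ‖W‖ ≤ N := by
    refine (norm_sum_le _ _).trans ?_
    simp only [norm_ee, sum_const, Nat.card_Icc, Nat.add_sub_cancel, nsmul_eq_mul, mul_one, le_refl]
  have hSle : ‖S‖ ≤ ‖GG (X ^ k) 1 0 q1 a1‖ * ‖W‖ + N / L := by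
    have h5 : S = GG (X ^ k) 1 0 q1 a1 * W + (S - GG (X ^ k) 1 0 q1 a1 * W) := by ring
    calc ‖S‖ = ‖GG (X ^ k) 1 0 q1 a1 * W + (S - GG (X ^ k) 1 0 q1 a1 * W)‖ := by rw [← h5]
      _ ≤ ‖GG (X ^ k) 1 0 q1 a1 * W‖ + ‖S - GG (X ^ k) 1 0 q1 a1 * W‖ := norm_add_le _ _
      _ ≤ _ := by rw [norm_mul]; exact add_le_add le_rfl hM'
  have hNL' : (N : ℝ) / L ≤ η / 8 * N := by
    have e1 : 8 * (N : ℝ) / L = 8 * (N / L) := by ring
    rw [e1] at hNL
    linarith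
  have hsmall : q1 < Q0 := by
    by_contra hle
    push Not at hle
    have hG := hQ0 q1 hle a1 hcop
    have h5 : ‖GG (X ^ k) 1 0 q1 a1‖ * ‖W‖ ≤ η / 8 * N := mul_le_mul hG hWle (norm_nonneg _) (by positivity)
    have : 0 < η * N := by positivity
    linarith
  have hWge : η / 2 * N ≤ ‖W‖ := by
    have h5 : ‖GG (X ^ k) 1 0 q1 a1‖ * ‖W‖ ≤ 1 * ‖W‖ :=
      mul_le_mul_of_nonneg_right (GG_le_one _ q1 hq11 a1) (norm_nonneg _)
    have : 0 < η * N := by positivity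
    linarith
  set β : ℝ := θ - a1 / q1 with hβ
  have hq1r : (1 : ℝ) ≤ q1 := by exact_mod_cast hq11
  have eβ : (q1 : ℝ) * θ - a1 = q1 * β := by rw [hβ]; field_simp
  have eW : W = ∑ n ∈ range N, ee (β * ((n : ℝ) + 1) ^ k) := by
    have e1 : Icc 1 N = (range N).image (fun n => n + 1) := by
      ext x
      simp only [mem_Icc, mem_image, mem_range]
      constructor
      · rintro ⟨h1, h2⟩; exact ⟨x - 1, by omega, by omega⟩
      · rintro ⟨n, h1, rfl⟩; omega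
    rw [hW, e1, sum_image fun a _ b _ h => by omega]
    refine sum_congr rfl fun n _ => ?_
    simp
  have hPh : Ph k (β * (k.factorial * 1)) (fun n => β * ((n : ℝ) + 1) ^ k) := by
    have h5 := Ph_poly k (X ^ k : ℤ[X]) (by rw [hdeg]) β
    rw [coeff_X_pow_self] at h5
    have h6 := Q257.MD.Ph_shift 1 k _ _ h5
    have e1 : (fun m : ℕ => (fun n : ℕ => β * (((X ^ k : ℤ[X]).eval (n : ℤ) : ℤ) : ℝ)) (m + 1)) =
        fun n : ℕ => β * ((n : ℝ) + 1) ^ k := by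
      funext n; simp
    rw [e1] at h6
    simpa using h6
  have hNu : (N : ℝ) ≤ u * ‖∑ n ∈ range N, ee (β * ((n : ℝ) + 1) ^ k)‖ := by
    rw [← eW]
    have h5 : 2 / η ≤ u := le_max_right _ _
    calc (N : ℝ) = 2 / η * (η / 2 * N) := by field_simp
      _ ≤ u * ‖W‖ := mul_le_mul h5 hWge (by positivity) (by linarith)
  obtain ⟨q', hq'1, hq'D, a', ha'⟩ := hI N u _ _ (by omega) hu1 hPh hNu
  rw [mul_one] at ha'
  have hq'r : (1 : ℝ) ≤ q' := by exact_mod_cast hq'1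
  have hfac : (1 : ℝ) ≤ k.factorial := by exact_mod_cast Nat.one_le_iff_ne_zero.2 (Nat.factorial_ne_zero k)
  have hNk : (N : ℝ) ≤ (N : ℝ) ^ k := le_self_pow₀ hNr1 (by omega)
  have hNk0 : (0 : ℝ) < (N : ℝ) ^ k := by positivity
  have hβle : |β| ≤ L ^ B / (N : ℝ) ^ k := by
    rw [eβ, abs_mul, abs_of_nonneg (by linarith : (0 : ℝ) ≤ q1)] at ha1
    exact (le_mul_of_one_le_left (abs_nonneg _) hq1r).trans ha1
  have hx1 : |(q' : ℝ) * (β * k.factorial)| ≤ 1 / 4 := by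
    rw [abs_mul, abs_mul, abs_of_nonneg (by linarith : (0 : ℝ) ≤ q'), abs_of_nonneg (by linarith : (0 : ℝ) ≤ k.factorial)]
    calc (q' : ℝ) * (|β| * k.factorial) ≤ D * (L ^ B / (N : ℝ) ^ k * k.factorial) := by gcongr
      _ = D * k.factorial * L ^ B / (N : ℝ) ^ k := by ring
      _ ≤ 1 / 4 := by
        rw [div_le_iff₀ hNk0]
        have h5 : 4 * D * k.factorial * L ^ B ≤ N := hN3
        linarith
  have hx2 : D / (N : ℝ) ^ k ≤ 1 / 4 := by
    rw [div_le_iff₀ hNk0]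
    linarith
  have ha'0 : a' = 0 := by
    have h5 : |(a' : ℝ)| < 1 := by
      have h6 : (a' : ℝ) = q' * (β * k.factorial) - (q' * (β * k.factorial) - a') := by ring
      rw [h6]
      refine (abs_sub _ _).trans_lt ?_
      have h7 := ha'.trans hx2
      linarith
    have h6 : |a'| < 1 := by exact_mod_cast h5
    exact Int.abs_lt_one_iff.1 h6
  rw [ha'0, Int.cast_zero, sub_zero, abs_mul, abs_mul, abs_of_nonneg (by linarith : (0 : ℝ) ≤ q'),
    abs_of_nonneg (by linarith : (0 : ℝ) ≤ k.factorial)] at ha'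
  have hβ2 : |β| ≤ D / (N : ℝ) ^ k := by
    refine le_trans ?_ ha'
    have h5 : |β| ≤ |β| * k.factorial := le_mul_of_one_le_right (abs_nonneg _) hfac
    exact h5.trans (le_mul_of_one_le_left (by positivity) hq'r)
  refine ⟨q1, hq11, by omega, a1, ?_⟩
  rw [eβ, abs_mul, abs_of_nonneg (by linarith : (0 : ℝ) ≤ q1)]
  have hq1Q : (q1 : ℝ) ≤ Q0 + 1 := by
    have : q1 ≤ Q0 + 1 := by omega
    exact_mod_cast this
  calc (q1 : ℝ) * |β| ≤ (Q0 + 1) * (D / (N : ℝ) ^ k) := by gcongr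
    _ = _ := by ring

end Pool.Agent.Q259.FQ
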