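import Pool.Agent.Q259.FQ.D1

set_option autoImplicit false

/-!
# Dyadic blocks of primes
-/

namespace Pool.Agent.Q259.FQ

open Finset Polynomial Filter Topology
open Pool.Agent.Helper602.MK (ee)
open Pool.Agent.Helper602.MK.N_J5b (ee_add ee_zero ee_conj norm_ee)
open Pool.Agent.H373R2.T7 (lam_ap)
open Q257.MD (FF PN Err diff_le Err_zero ev_log_ge)

/-- primes in `(2^i, 2^(i+1)]` -/
def Bl (i : ℕ) : Finset ℕ := (Ioc (2 ^ i) (2 ^ (i + 1))).filter Nat.Prime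

lemma mem_Bl {i p : ℕ} : p ∈ Bl i ↔ (2 ^ i < p ∧ p ≤ 2 ^ (i + 1)) ∧ p.Prime := by
  unfold Bl; rw [mem_filter, mem_Ioc]

lemma PN_eq (N : ℕ) : PN 1 0 0 N = (Icc 1 N).filter Nat.Prime := by
  unfold PN
  ext n
  simp only [mem_filter, mem_Icc]
  constructor
  · rintro ⟨h1, h2, _, _⟩; exact ⟨h1, h2⟩
  · rintro ⟨h1, h2⟩; exact ⟨h1, h2, h2.pos, by simp⟩

lemma Bl_sum {A : Type*} [AddCommGroup A] (F : ℕ → A) (i : ℕ) :
    ∑ p ∈ Bl i, F p = ∑ p ∈ PN 1 0 0 (2 ^ (i + 1)), F p - ∑ p ∈ PN 1 0 0 (2 ^ i), F p := by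
  rw [PN_eq, PN_eq, eq_sub_iff_add_eq, ← sum_union]
  · congr 1
    ext p
    have h0 : 2 ^ i ≤ 2 ^ (i + 1) := Nat.pow_le_pow_right (by norm_num) (by omega)
    have h1 : 1 ≤ 2 ^ i := Nat.one_le_two_pow
    simp only [mem_union, mem_Bl, mem_filter, mem_Icc]
    constructor
    · rintro (⟨⟨h2, h3⟩, h4⟩ | ⟨⟨h2, h3⟩, h4⟩)
      · exact ⟨⟨h4.pos, h3⟩, h4⟩
      · exact ⟨⟨h2, by omega⟩, h4⟩
    · rintro ⟨⟨h2, h3⟩, h4⟩
      by_cases h5 : p ≤ 2 ^ i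
      · exact Or.inr ⟨⟨h2, h5⟩, h4⟩
      · exact Or.inl ⟨⟨by omega, h3⟩, h4⟩
  · rw [disjoint_left]
    intro p h1 h2
    rw [mem_Bl] at h1
    rw [mem_filter, mem_Icc] at h2
    omega

lemma Err_small (ε : ℝ) (hε : 0 < ε) : ∃ N0 : ℕ, ∀ N : ℕ, N0 ≤ N → Err 0 N ≤ ε * N := by
  have h := (Err_zero 0).eventually (gt_mem_nhds hε)
  rw [eventually_atTop] at h
  obtain ⟨N0, h⟩ := h
  refine ⟨max N0 1, fun N hN => ?_⟩
  have h1 := h N (le_trans (le_max_left _ _) hN)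
  have h2 : (0 : ℝ) < N := by
    have : 1 ≤ N := le_trans (le_max_right _ _) hN
    exact_mod_cast this
  rw [div_lt_iff₀ h2] at h1
  exact h1.le

lemma pow_ge (N0 : ℕ) {i : ℕ} (h : N0 ≤ i) : N0 ≤ 2 ^ i := h.trans Nat.lt_two_pow_self.le

lemma lam_prime (N : ℕ) (hN : 1 ≤ N) (k : ℕ) (θ : ℝ) :
    ‖∑ n ∈ Icc 1 N, FF (X ^ k : ℤ[X]) 1 0 θ n - ∑ p ∈ PN 1 0 0 N, ((Real.log p : ℝ) : ℂ) * ee (θ * (p : ℝ) ^ k)‖ ≤
      Err 0 N := by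
  have h := diff_le 1 0 0 N hN (fun n => ee (θ * (n : ℝ) ^ k)) (fun n => by rw [norm_ee])
  refine le_trans (le_of_eq ?_) h
  congr 2
  refine sum_congr rfl fun n _ => ?_
  unfold FF
  simp

theorem block_inv (k : ℕ) (hk : 1 ≤ k) (η : ℝ) (hη : 0 < η) : ∃ (Q : ℕ) (C : ℝ) (i0 : ℕ), 1 ≤ Q ∧ 0 < C ∧
    ∀ i : ℕ, i0 ≤ i → ∀ θ : ℝ, η * 2 ^ i ≤ ‖∑ p ∈ Bl i, ((Real.log p : ℝ) : ℂ) * ee (θ * (p : ℝ) ^ k)‖ →
    ∃ q : ℕ, 1 ≤ q ∧ q ≤ Q ∧ ∃ a : ℤ, |q * θ - a| ≤ C / ((2 : ℝ) ^ i) ^ k := by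
  obtain ⟨Q, C, N0, hQ, hC, hI⟩ := soft_inv k hk (η / 8) (by positivity)
  obtain ⟨N1, h1⟩ := Err_small (η / 8) (by positivity)
  refine ⟨Q, C, max N0 N1, hQ, hC, fun i hi θ hS => ?_⟩
  have hi0 := pow_ge N0 (le_trans (le_max_left _ _) hi)
  have hi1 := pow_ge N1 (le_trans (le_max_right _ _) hi)
  have h0 : 2 ^ i ≤ 2 ^ (i + 1) := Nat.pow_le_pow_right (by norm_num) (by omega)
  have e1 := h1 _ hi1
  have e2 := h1 _ (hi1.trans h0)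
  have l1 := lam_prime (2 ^ i) Nat.one_le_two_pow k θ
  have l2 := lam_prime (2 ^ (i + 1)) Nat.one_le_two_pow k θ
  rw [Bl_sum] at hS
  push_cast at e1 e2
  set S1 := ∑ p ∈ PN 1 0 0 (2 ^ i), ((Real.log p : ℝ) : ℂ) * ee (θ * (p : ℝ) ^ k)
  set S2 := ∑ p ∈ PN 1 0 0 (2 ^ (i + 1)), ((Real.log p : ℝ) : ℂ) * ee (θ * (p : ℝ) ^ k)
  set T1 := ∑ n ∈ Icc 1 (2 ^ i), FF (X ^ k : ℤ[X]) 1 0 θ n with hT1
  set T2 := ∑ n ∈ Icc 1 (2 ^ (i + 1)), FF (X ^ k : ℤ[X]) 1 0 θ n with hT2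
  have g1 : ‖S1‖ ≤ ‖T1‖ + η / 8 * 2 ^ i := by
    have e : S1 = T1 - (T1 - S1) := by ring
    calc ‖S1‖ = ‖T1 - (T1 - S1)‖ := by rw [← e]
      _ ≤ _ := (norm_sub_le _ _).trans (by linarith)
  have g2 : ‖S2‖ ≤ ‖T2‖ + η / 8 * 2 ^ (i + 1) := by
    have e : S2 = T2 - (T2 - S2) := by ring
    calc ‖S2‖ = ‖T2 - (T2 - S2)‖ := by rw [← e]
      _ ≤ _ := (norm_sub_le _ _).trans (by linarith)
  have h2i : (0 : ℝ) < 2 ^ i := by positivity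
  have hp1 : (2 : ℝ) ^ (i + 1) = 2 * 2 ^ i := by rw [pow_succ]; ring
  rw [hp1] at g2
  have g3 := hS.trans (norm_sub_le S2 S1)
  have hηi : 0 < η * 2 ^ i := by positivity
  by_cases hA : η / 8 * ((2 ^ i : ℕ) : ℝ) ≤ ‖T1‖
  · obtain ⟨q, hq1, hq2, a, ha⟩ := hI (2 ^ i) hi0 θ hA
    refine ⟨q, hq1, hq2, a, ?_⟩
    push_cast at ha
    exact ha
  · have hB : η / 8 * ((2 ^ (i + 1) : ℕ) : ℝ) ≤ ‖T2‖ := by
      push Not at hA
      push_cast at hA ⊢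
      rw [hp1]
      linarith
    obtain ⟨q, hq1, hq2, a, ha⟩ := hI (2 ^ (i + 1)) (hi0.trans h0) θ hB
    refine ⟨q, hq1, hq2, a, ha.trans ?_⟩
    push_cast
    apply div_le_div_of_nonneg_left hC.le (by positivity)
    apply pow_le_pow_left₀ (by positivity)
    rw [hp1]; linarith

lemma theta_up (i : ℕ) : ∑ p ∈ Bl i, Real.log p ≤ 3 * 2 ^ i := by
  have h1 : ∑ p ∈ Bl i, Real.log p ≤ Chebyshev.theta ((2 ^ (i + 1) : ℕ) : ℝ) := by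
    rw [Chebyshev.theta, Nat.floor_natCast]
    apply sum_le_sum_of_subset_of_nonneg
    · intro p hp
      rw [mem_Bl] at hp
      rw [mem_filter, mem_Ioc]
      exact ⟨⟨hp.2.pos, hp.1.2⟩, hp.2⟩
    · intro p hp _
      rw [mem_filter] at hp
      exact Real.log_nonneg (by exact_mod_cast hp.2.one_lt.le)
  have h2 := Chebyshev.theta_le_log4_mul_x (x := ((2 ^ (i + 1) : ℕ) : ℝ)) (by positivity)
  have h3 : Real.log 4 = 2 * Real.log 2 := by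
    rw [show (4 : ℝ) = 2 ^ 2 by norm_num, Real.log_pow]; norm_num
  have h4 := Real.log_two_lt_d9
  refine h1.trans (h2.trans ?_)
  rw [h3]
  push_cast
  rw [pow_succ]
  have h5 : (0 : ℝ) < 2 ^ i := by positivity
  nlinarith

lemma theta_low : ∃ i1 : ℕ, ∀ i, i1 ≤ i → (2 : ℝ) ^ i / 2 ≤ ∑ p ∈ Bl i, Real.log p := by
  obtain ⟨N1, h1⟩ := lam_ap 0 1
  obtain ⟨N2, h2⟩ := ev_log_ge 20
  obtain ⟨N3, h3⟩ := Err_small (1 / 20) (by norm_num)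
  refine ⟨max N1 (max N2 N3), fun i hi => ?_⟩
  have hi1 := pow_ge N1 (le_trans (le_max_left _ _) hi)
  have hi2 := pow_ge N2 (le_trans (le_trans (le_max_left _ _) (le_max_right _ _)) hi)
  have hi3 := pow_ge N3 (le_trans (le_trans (le_max_right _ _) (le_max_right _ _)) hi)
  have key : ∀ N : ℕ, 1 ≤ N → N1 ≤ N → N2 ≤ N → N3 ≤ N →
      |∑ p ∈ PN 1 0 0 N, Real.log p - N| ≤ N / 10 := by
    intro N hN hN1 hN2 hN3
    have a1 := h1 N hN1 1 le_rfl (by simp) 0 N le_rfl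
    have a2 := h2 N hN2
    have a3 := h3 N hN3
    have a4 := diff_le 1 0 0 N hN (fun _ => 1) (fun _ => by simp)
    have e1 : (Icc 1 N).filter (fun n => n ≡ 0 [MOD 1]) = Icc 1 N := by
      apply filter_true_of_mem
      intro n _
      exact Nat.modEq_one
    rw [e1, if_pos (Nat.coprime_one_right 0), Nat.totient_one, Nat.cast_one, div_one, pow_one] at a1
    have hNr : (0 : ℝ) < N := by exact_mod_cast hN
    have a5 : (N : ℝ) / Real.log N ≤ N / 20 := div_le_div_of_nonneg_left hNr.le (by norm_num) a2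
    have a6 : |∑ n ∈ Icc 1 N, ArithmeticFunction.vonMangoldt n - ∑ p ∈ PN 1 0 0 N, Real.log p| ≤ Err 0 N := by
      have e2 : ((∑ n ∈ Icc 1 N, ArithmeticFunction.vonMangoldt n - ∑ p ∈ PN 1 0 0 N, Real.log p : ℝ) : ℂ) =
          ∑ n ∈ Icc 1 N, (if ((1 : ℕ) : ℤ) ∣ (n : ℤ) - 0 then
          ((ArithmeticFunction.vonMangoldt n : ℝ) : ℂ) * 1 else 0) -
          ∑ n ∈ PN 1 0 0 N, ((Real.log n : ℝ) : ℂ) * 1 := by
        push_cast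
        simp
      rw [← Real.norm_eq_abs, ← Complex.norm_real, e2]
      exact a4
    rw [abs_le] at a1 a6 ⊢
    constructor <;> linarith [a1.1, a1.2, a6.1, a6.2]
  have h0 : 2 ^ i ≤ 2 ^ (i + 1) := Nat.pow_le_pow_right (by norm_num) (by omega)
  have k1 := key (2 ^ i) Nat.one_le_two_pow hi1 hi2 hi3
  have k2 := key (2 ^ (i + 1)) Nat.one_le_two_pow (hi1.trans h0) (hi2.trans h0) (hi3.trans h0)
  rw [Bl_sum]
  push_cast at k1 k2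
  rw [abs_le] at k1 k2
  have hp1 : (2 : ℝ) ^ (i + 1) = 2 * 2 ^ i := by rw [pow_succ]; ring
  rw [hp1] at k2
  have : (0 : ℝ) < 2 ^ i := by positivity
  linarith [k1.1, k1.2, k2.1, k2.2]

end Pool.Agent.Q259.FQ
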