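import Pool.Agent.Q259.FQ.D2
import Pool.Agent.Q259.LU.Crit

set_option autoImplicit false

/-!
# Weighted criterion of Weyl, and neighbourhoods of closed sets
-/

namespace Pool.Agent.Q259.FQ

open Finset MeasureTheory
open Pool.Agent.Helper602.MK (ee)
open Pool.Agent.Helper602.MK.N_J5b (ee_add ee_zero ee_conj norm_ee)
open Pool.Agent.Q259.LU (vol_eq int_fourier cint)

lemma fourier_ee (m : ℤ) (x : ℝ) : (fourier m (x : UnitAddCircle) : ℂ) = ee ((m : ℝ) * x) := by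
  rw [fourier_coe_apply, ee]
  congr 1
  push_cast
  ring

/-- weighted equidistribution tested by one continuous function -/
def EW (g : C(UnitAddCircle, ℂ)) : Prop := ∀ ε : ℝ, 0 < ε → ∃ M₀ : ℕ, ∃ δ : ℝ, 0 < δ ∧
  ∀ (s : Finset ℕ) (v φ : ℕ → ℝ), (∀ p ∈ s, 0 ≤ v p) →
    (∀ m ∈ Icc 1 M₀, ‖∑ p ∈ s, (v p : ℂ) * ee ((m : ℝ) * φ p)‖ ≤ δ * ∑ p ∈ s, v p) →
    ‖∑ p ∈ s, (v p : ℂ) * g ((φ p : ℝ) : UnitAddCircle) - (∑ p ∈ s, v p : ℝ) * ∫ t, g t‖ ≤ ε * ∑ p ∈ s, v p

lemma EW_fourier (m : ℤ) : EW (fourier m) := by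
  intro ε hε
  refine ⟨m.natAbs, ε, hε, fun s v φ hv h => ?_⟩
  have hS : 0 ≤ ∑ p ∈ s, v p := sum_nonneg hv
  rw [int_fourier]
  by_cases hm : m = 0
  · subst hm
    simp only [fourier_zero, if_true, mul_one]
    push_cast
    rw [sub_self, norm_zero]
    positivity
  · rw [if_neg hm, mul_zero, sub_zero]
    have h1 := h m.natAbs (by rw [mem_Icc]; exact ⟨by omega, le_rfl⟩)
    rcases Int.natAbs_eq m with h2 | h2
    · have e1 : ∀ x : ℝ, (fourier m (x : UnitAddCircle) : ℂ) = ee (((m.natAbs : ℕ) : ℝ) * x) := by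
        intro x
        rw [fourier_ee]
        congr 2
        have : (m : ℝ) = ((m.natAbs : ℤ) : ℝ) := by rw [← h2]
        rw [this]; simp
      simp only [e1]
      exact h1
    · have e1 : ∀ x : ℝ, (fourier m (x : UnitAddCircle) : ℂ) =
          (starRingEnd ℂ) (ee (((m.natAbs : ℕ) : ℝ) * x)) := by
        intro x
        rw [fourier_ee, ee_conj]
        congr 1
        have h3 : (m : ℝ) = ((-(m.natAbs : ℤ) : ℤ) : ℝ) := by rw [← h2]
        rw [Int.cast_neg, Int.cast_natCast] at h3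
        rw [h3, neg_mul]
      simp only [e1]
      have e2 : ∑ p ∈ s, (v p : ℂ) * (starRingEnd ℂ) (ee (((m.natAbs : ℕ) : ℝ) * φ p)) =
          (starRingEnd ℂ) (∑ p ∈ s, (v p : ℂ) * ee (((m.natAbs : ℕ) : ℝ) * φ p)) := by
        rw [map_sum]
        refine sum_congr rfl fun p _ => ?_
        rw [map_mul, Complex.conj_ofReal]
      rw [e2, RCLike.norm_conj]
      exact h1

lemma EW_add {f g : C(UnitAddCircle, ℂ)} (hf : EW f) (hg : EW g) : EW (f + g) := by
  intro ε hε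
  obtain ⟨M1, d1, hd1, h1⟩ := hf (ε / 2) (by positivity)
  obtain ⟨M2, d2, hd2, h2⟩ := hg (ε / 2) (by positivity)
  refine ⟨max M1 M2, min d1 d2, lt_min hd1 hd2, fun s v φ hv h => ?_⟩
  have hS : 0 ≤ ∑ p ∈ s, v p := sum_nonneg hv
  have a1 := h1 s v φ hv (fun m hm => (h m (by rw [mem_Icc] at hm ⊢; exact ⟨hm.1, hm.2.trans (le_max_left _ _)⟩)).trans
    (mul_le_mul_of_nonneg_right (min_le_left _ _) hS))
  have a2 := h2 s v φ hv (fun m hm => (h m (by rw [mem_Icc] at hm ⊢; exact ⟨hm.1, hm.2.trans (le_max_right _ _)⟩)).trans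
    (mul_le_mul_of_nonneg_right (min_le_right _ _) hS))
  have e1 : ∫ t, (f + g) t = (∫ t, f t) + ∫ t, g t := by
    simp only [ContinuousMap.add_apply]
    exact integral_add (cint f) (cint g)
  have e2 : ∑ p ∈ s, (v p : ℂ) * (f + g) ((φ p : ℝ) : UnitAddCircle) - (∑ p ∈ s, v p : ℝ) * ∫ t, (f + g) t =
      (∑ p ∈ s, (v p : ℂ) * f ((φ p : ℝ) : UnitAddCircle) - (∑ p ∈ s, v p : ℝ) * ∫ t, f t) +
      (∑ p ∈ s, (v p : ℂ) * g ((φ p : ℝ) : UnitAddCircle) - (∑ p ∈ s, v p : ℝ) * ∫ t, g t) := by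
    rw [e1]
    simp only [ContinuousMap.add_apply, mul_add, sum_add_distrib]
    ring
  rw [e2]
  refine (norm_add_le _ _).trans ?_
  linarith

lemma EW_smul {f : C(UnitAddCircle, ℂ)} (hf : EW f) (c : ℂ) : EW (c • f) := by
  intro ε hε
  obtain ⟨M1, d1, hd1, h1⟩ := hf (ε / (‖c‖ + 1)) (by positivity)
  refine ⟨M1, d1, hd1, fun s v φ hv h => ?_⟩
  have hS : 0 ≤ ∑ p ∈ s, v p := sum_nonneg hv
  have a1 := h1 s v φ hv h
  have e2 : ∑ p ∈ s, (v p : ℂ) * (c • f) ((φ p : ℝ) : UnitAddCircle) - (∑ p ∈ s, v p : ℝ) * ∫ t, (c • f) t =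
      c * (∑ p ∈ s, (v p : ℂ) * f ((φ p : ℝ) : UnitAddCircle) - (∑ p ∈ s, v p : ℝ) * ∫ t, f t) := by
    simp only [ContinuousMap.smul_apply, smul_eq_mul]
    rw [integral_const_mul, mul_sub, mul_sum]
    congr 1
    · exact sum_congr rfl fun p _ => by ring
    · ring
  rw [e2, norm_mul]
  calc ‖c‖ * ‖∑ p ∈ s, (v p : ℂ) * f ((φ p : ℝ) : UnitAddCircle) - (∑ p ∈ s, v p : ℝ) * ∫ t, f t‖
      ≤ (‖c‖ + 1) * (ε / (‖c‖ + 1) * ∑ p ∈ s, v p) :=
        mul_le_mul (by linarith) a1 (norm_nonneg _) (by positivity)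
    _ = ε * ∑ p ∈ s, v p := by field_simp

lemma EW_zero : EW 0 := by
  intro ε hε
  refine ⟨0, 1, one_pos, fun s v φ hv _ => ?_⟩
  have hS : 0 ≤ ∑ p ∈ s, v p := sum_nonneg hv
  simp only [ContinuousMap.zero_apply, mul_zero, sum_const_zero, integral_zero, sub_zero, norm_zero]
  positivity

lemma EW_lim {g : C(UnitAddCircle, ℂ)} (h : ∀ ε : ℝ, 0 < ε → ∃ f, EW f ∧ ‖g - f‖ ≤ ε) : EW g := by
  intro ε hε
  obtain ⟨f, hf, hfg⟩ := h (ε / 3) (by positivity)
  obtain ⟨M1, d1, hd1, h1⟩ := hf (ε / 3) (by positivity)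
  refine ⟨M1, d1, hd1, fun s v φ hv hh => ?_⟩
  have hS : 0 ≤ ∑ p ∈ s, v p := sum_nonneg hv
  have a1 := h1 s v φ hv hh
  have hpt : ∀ t, ‖g t - f t‖ ≤ ε / 3 := fun t => ((g - f).norm_coe_le_norm t).trans hfg
  have b1 : ‖∑ p ∈ s, (v p : ℂ) * (g ((φ p : ℝ) : UnitAddCircle) - f ((φ p : ℝ) : UnitAddCircle))‖ ≤
      (∑ p ∈ s, v p) * (ε / 3) := by
    refine (norm_sum_le _ _).trans ?_
    rw [sum_mul]
    refine sum_le_sum fun p hp => ?_
    rw [norm_mul, Complex.norm_real, Real.norm_of_nonneg (hv p hp)]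
    exact mul_le_mul_of_nonneg_left (hpt _) (hv p hp)
  have b2 : ‖(∫ t, g t) - ∫ t, f t‖ ≤ ε / 3 := by
    rw [← integral_sub (cint g) (cint f)]
    refine (norm_integral_le_integral_norm _).trans ?_
    have h3 : ∫ t : UnitAddCircle, ‖g t - f t‖ ≤ ∫ _t : UnitAddCircle, (ε / 3) := by
      refine integral_mono ((cint g).sub (cint f)).norm (integrable_const _) fun t => hpt t
    refine h3.trans ?_
    rw [integral_const, Measure.real, AddCircle.measure_univ]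
    simp
  have e2 : ∑ p ∈ s, (v p : ℂ) * g ((φ p : ℝ) : UnitAddCircle) - (∑ p ∈ s, v p : ℝ) * ∫ t, g t =
      (∑ p ∈ s, (v p : ℂ) * f ((φ p : ℝ) : UnitAddCircle) - (∑ p ∈ s, v p : ℝ) * ∫ t, f t) +
      (∑ p ∈ s, (v p : ℂ) * (g ((φ p : ℝ) : UnitAddCircle) - f ((φ p : ℝ) : UnitAddCircle))) -
      (∑ p ∈ s, v p : ℝ) * ((∫ t, g t) - ∫ t, f t) := by
    simp only [mul_sub, sum_sub_distrib]
    ring
  rw [e2]
  refine (norm_sub_le _ _).trans ?_
  refine (add_le_add (norm_add_le _ _) le_rfl).trans ?_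
  rw [norm_mul, Complex.norm_real, Real.norm_of_nonneg hS]
  have : (∑ p ∈ s, v p) * ‖(∫ t, g t) - ∫ t, f t‖ ≤ (∑ p ∈ s, v p) * (ε / 3) := mul_le_mul_of_nonneg_left b2 hS
  linarith

theorem EW_all (g : C(UnitAddCircle, ℂ)) : EW g := by
  have hspan : ∀ f ∈ Submodule.span ℂ (Set.range (@fourier (1 : ℝ))), EW f := by
    intro f hf
    induction hf using Submodule.span_induction with
    | mem x hx => obtain ⟨m, rfl⟩ := hx; exact EW_fourier m
    | zero => exact EW_zero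
    | add x y _ _ hx hy => exact EW_add hx hy
    | smul a x _ hx => exact EW_smul hx a
  have hg : g ∈ (Submodule.span ℂ (Set.range (@fourier (1 : ℝ)))).topologicalClosure := by
    rw [span_fourier_closure_eq_top]
    trivial
  refine EW_lim fun ε hε => ?_
  have h1 : g ∈ closure ((Submodule.span ℂ (Set.range (@fourier (1 : ℝ))) : Set C(UnitAddCircle, ℂ))) := hg
  obtain ⟨f, hf, hd⟩ := Metric.mem_closure_iff.mp h1 ε hε
  refine ⟨f, hspan f hf, ?_⟩
  rw [← dist_eq_norm]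
  exact hd.le

/-- a continuous majorant of a neighbourhood of a closed set -/
lemma majorant (F : Set UnitAddCircle) (hF : IsClosed F) (ε : ℝ) (hε : 0 < ε) :
    ∃ δ : ℝ, 0 < δ ∧ ∃ g : C(UnitAddCircle, ℝ), (∀ x, 0 ≤ g x) ∧
      (∀ x, ∀ y ∈ F, ‖x - y‖ ≤ δ → g x = 1) ∧ ∫ t, g t ≤ volume.real F + ε := by
  have hfin : volume F ≠ ⊤ := measure_ne_top _ _
  obtain ⟨U, hFU, hUo, hU⟩ := F.exists_isOpen_le_add (volume : Measure UnitAddCircle)
    (ε := ENNReal.ofReal ε) (by simpa using hε)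
  obtain ⟨δ, hδ, hsub⟩ := hF.isCompact.exists_cthickening_subset_open hUo hFU
  obtain ⟨g, g0, g1, g2⟩ := exists_continuous_zero_one_of_isClosed (hUo.isClosed_compl)
    (Metric.isClosed_cthickening (δ := δ) (E := F)) (by
      rw [Set.disjoint_left]
      intro x hx hx'
      exact hx (hsub hx'))
  refine ⟨δ, hδ, g, fun x => (g2 x).1, fun x y hy hxy => ?_, ?_⟩
  · apply g1
    exact Metric.mem_cthickening_of_dist_le x y δ F hy (by rw [dist_eq_norm]; exact hxy)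
  · have hgi : Integrable (fun t => g t) (volume : Measure UnitAddCircle) :=
      g.continuous.integrable_of_hasCompactSupport (HasCompactSupport.of_compactSpace _)
    have h1 : ∫ t, g t ≤ ∫ t, U.indicator (fun _ => (1 : ℝ)) t := by
      apply integral_mono hgi ((integrable_const (1 : ℝ)).indicator hUo.measurableSet)
      intro x
      by_cases hx : x ∈ U
      · rw [Set.indicator_of_mem hx]; exact (g2 x).2
      · rw [Set.indicator_of_notMem hx]; exact (g0 hx).le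
    rw [integral_indicator hUo.measurableSet, setIntegral_const, smul_eq_mul, mul_one] at h1
    refine h1.trans ?_
    unfold Measure.real
    have h2 : (volume F + ENNReal.ofReal ε).toReal = (volume F).toReal + ε := by
      rw [ENNReal.toReal_add hfin ENNReal.ofReal_ne_top, ENNReal.toReal_ofReal hε.le]
    rw [← h2]
    exact ENNReal.toReal_mono (by simp [hfin]) hU

end Pool.Agent.Q259.FQ
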