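import Pool.Agent.Q259.FQ.D4
import Pool.Agent.Q259.FQ.A1
import Pool.Agent.TH112.BL.Mean

set_option autoImplicit false

/-!
# Images under multiplication, simultaneous equidistribution, invariant means
-/

namespace Pool.Agent.Q259.FQ

open Finset MeasureTheory Filter
open Pool.Agent.TH112.BL (Bd LM)

lemma img_closed (E : Set UnitAddCircle) (hE : IsClosed E) (q : ℕ) :
    IsClosed ((fun x : UnitAddCircle => q • x) '' E) :=
  (hE.isCompact.image (by fun_prop)).isClosed

lemma img_tors (E : Set UnitAddCircle) (hT : ∀ x ∈ E, ¬ IsOfFinAddOrder x) (q : ℕ) (hq : 1 ≤ q) :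
    ∀ x ∈ (fun x : UnitAddCircle => q • x) '' E, ¬ IsOfFinAddOrder x := by
  rintro _ ⟨y, hy, rfl⟩ h
  apply hT y hy
  obtain ⟨n, hn, h0⟩ := isOfFinAddOrder_iff_nsmul_eq_zero.1 h
  refine isOfFinAddOrder_iff_nsmul_eq_zero.2 ⟨n * q, Nat.mul_pos hn hq, ?_⟩
  rw [mul_smul]
  exact h0

lemma img_vol (E : Set UnitAddCircle) (hE : IsClosed E) (q : ℕ) (hq : 1 ≤ q) :
    volume.real ((fun x : UnitAddCircle => q • x) '' E) ≤ q * volume.real E := by
  have hmp : MeasurePreserving (fun x : UnitAddCircle => q • x) volume volume := by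
    rcases Nat.lt_or_ge 1 q with h | h
    · exact (AddCircle.ergodic_nsmul h).toMeasurePreserving
    · have : q = 1 := by omega
      subst this
      simp only [one_smul]
      exact MeasurePreserving.id (volume : Measure UnitAddCircle)
  have h1 : (fun x : UnitAddCircle => q • x) ⁻¹' ((fun x : UnitAddCircle => q • x) '' E) ⊆
      ⋃ j ∈ range q, (fun x : UnitAddCircle => x + (((j : ℝ) / q : ℝ) : UnitAddCircle)) ⁻¹' E := by
    rintro x ⟨y, hy, hxy⟩
    have h2 : q • (y - x) = 0 := by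
      rw [smul_sub, sub_eq_zero]; exact hxy
    obtain ⟨m, hm, hk⟩ := (AddCircle.nsmul_eq_zero_iff (by omega : 0 < q)).1 h2
    rw [Set.mem_iUnion₂]
    refine ⟨m, mem_range.2 hm, ?_⟩
    show x + _ ∈ E
    have h3 : x + (((m : ℝ) / q : ℝ) : UnitAddCircle) = y := by
      have e : (((m : ℝ) / q : ℝ) : UnitAddCircle) = y - x := by
        rw [← hk]; simp
      rw [e]; abel
    rw [h3]
    exact hy
  have h2 := hmp.measure_preimage (img_closed E hE q).measurableSet.nullMeasurableSet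
  have h3 : volume ((fun x : UnitAddCircle => q • x) '' E) ≤ q * volume E := by
    rw [← h2]
    refine (measure_mono h1).trans ?_
    refine (measure_biUnion_finset_le _ _).trans ?_
    have e : ∀ j ∈ range q, volume ((fun x : UnitAddCircle => x + (((j : ℝ) / q : ℝ) : UnitAddCircle)) ⁻¹' E) = volume E := by
      intro j _
      exact measure_preimage_add_right _ _ _
    rw [sum_congr rfl e, sum_const, card_range, nsmul_eq_mul]
  unfold Measure.real
  have h4 : (q * volume E).toReal = q * (volume E).toReal := by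
    rw [ENNReal.toReal_mul, ENNReal.toReal_natCast]
  rw [← h4]
  exact ENNReal.toReal_mono (ENNReal.mul_ne_top (ENNReal.natCast_ne_top q) (measure_ne_top _ _)) h3

open Classical in
lemma near_mono (i j k : ℕ) (F : Set UnitAddCircle) (α δ δ' : ℝ) (h : δ ≤ δ') :
    ∑ p ∈ (BB i j).filter (fun p : ℕ => ∃ y ∈ F, ‖((α * (p : ℝ) ^ k : ℝ) : UnitAddCircle) - y‖ ≤ δ), wt p ≤
    ∑ p ∈ (BB i j).filter (fun p : ℕ => ∃ y ∈ F, ‖((α * (p : ℝ) ^ k : ℝ) : UnitAddCircle) - y‖ ≤ δ'), wt p := by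
  apply sum_le_sum_of_subset_of_nonneg
  · intro p hp
    rw [mem_filter] at hp ⊢
    obtain ⟨h1, y, hy, h2⟩ := hp
    exact ⟨h1, y, hy, h2.trans h⟩
  · intro p _ _
    exact wt_nonneg p

open Classical in
theorem equ_all (k : ℕ) (hk : 1 ≤ k) (E : Set UnitAddCircle) (hE : IsClosed E)
    (hT : ∀ x ∈ E, ¬ IsOfFinAddOrder x) (ε : ℝ) (hε : 0 < ε) (Q : ℕ) :
    ∃ δ : ℝ, 0 < δ ∧ ∃ i0 : ℕ, 1 ≤ i0 ∧ ∀ i, i0 ≤ i → ∃ j0, i ≤ j0 ∧ ∀ j, j0 ≤ j → ∀ q ∈ Icc 1 Q, ∀ α : ℝ,
      ∑ p ∈ (BB i j).filter (fun p : ℕ => ∃ y ∈ (fun x : UnitAddCircle => q • x) '' E,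
        ‖((α * (p : ℝ) ^ k : ℝ) : UnitAddCircle) - y‖ ≤ δ), wt p ≤
        (volume.real ((fun x : UnitAddCircle => q • x) '' E) + ε) * ∑ p ∈ BB i j, wt p := by
  induction Q with
  | zero => exact ⟨1, one_pos, 1, le_rfl, fun i _ => ⟨i, le_rfl, fun j _ q hq => by
      rw [mem_Icc] at hq; omega⟩⟩
  | succ Q ih =>
    obtain ⟨δ, hδ, i0, hi0, h⟩ := ih
    obtain ⟨δ', hδ', i0', hi0', h'⟩ := equ k hk ((fun x : UnitAddCircle => (Q + 1) • x) '' E)
      (img_closed E hE _) (img_tors E hT _ (by omega)) ε hε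
    refine ⟨min δ δ', lt_min hδ hδ', max i0 i0', le_trans hi0 (le_max_left _ _), fun i hi => ?_⟩
    obtain ⟨j0, hj0, g⟩ := h i (le_trans (le_max_left _ _) hi)
    obtain ⟨j0', hj0', g'⟩ := h' i (le_trans (le_max_right _ _) hi)
    refine ⟨max j0 j0', le_trans hj0 (le_max_left _ _), fun j hj q hq α => ?_⟩
    rw [mem_Icc] at hq
    rcases Nat.lt_or_ge q (Q + 1) with h1 | h1
    · exact (near_mono i j k _ α _ _ (min_le_left _ _)).trans
        (g j (le_trans (le_max_left _ _) hj) q (mem_Icc.2 ⟨hq.1, by omega⟩) α)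
    · have : q = Q + 1 := by omega
      subst this
      exact (near_mono i j k _ α _ _ (min_le_right _ _)).trans (g' j (le_trans (le_max_right _ _) hj) α)

/-- invariance under ceiling division -/
lemma mean_cd (μ : LM) (p : ℕ) (hp : 1 ≤ p) (φ : ℕ → ℝ) (hφ : Bd φ) : μ.m (fun n => φ (cd n p)) = μ.m φ := by
  obtain ⟨C, hC⟩ := hφ
  have hC0 : 0 ≤ C := (abs_nonneg _).trans (hC 0)
  have hp0 : (0 : ℝ) < p := by exact_mod_cast hp
  set ψ : ℕ → ℝ := fun n => φ (cd n p) with hψ
  have hψb : Bd ψ := ⟨C, fun n => hC _⟩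
  set χ : ℕ → ℝ := fun n => if p ∣ n then (p : ℝ) * ψ n else 0 with hχ
  have hχb : Bd χ := ⟨p * C, fun n => by
    simp only [hχ]
    split_ifs
    · rw [abs_mul, abs_of_pos hp0]; exact mul_le_mul_of_nonneg_left (hC _) hp0.le
    · rw [abs_zero]; positivity⟩
  have h1 : μ.m φ = μ.m χ := by
    have h2 := μ.dil p ψ hp hψb
    have e : (fun n => ψ (p * n)) = φ := by
      funext n
      simp only [hψ]
      congr 1
      unfold cd
      rw [Nat.mul_comm, Nat.add_comm, Nat.add_mul_div_right _ _ (by omega), Nat.div_eq_of_lt (by omega), zero_add]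
    rw [e] at h2
    exact h2
  have h3 : ∀ j, μ.m (fun n => χ (n + j)) = μ.m φ := fun j => by rw [μ.shiftk j hχb, h1]
  have h4 : μ.m (fun n => ∑ j ∈ range p, χ (n + j)) = p * μ.m φ := by
    rw [μ.sum (range p) (φ := fun j n => χ (n + j)) (fun j _ => hχb.comp _)]
    rw [sum_congr rfl fun j _ => h3 j, sum_const, card_range, nsmul_eq_mul]
  have e : (fun n => ∑ j ∈ range p, χ (n + j)) = fun n => (p : ℝ) * ψ n := by
    funext n
    have hle := le_cd n p hp
    have hlt := cd_lt n p hp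
    have h5 : p * cd n p - n ∈ range p := by rw [mem_range]; omega
    rw [sum_eq_single_of_mem _ h5]
    · simp only [hχ]
      have e1 : n + (p * cd n p - n) = p * cd n p := by omega
      rw [e1, if_pos (dvd_mul_right _ _)]
      congr 1
      simp only [hψ]
      congr 1
      unfold cd
      rw [Nat.mul_comm p, Nat.add_comm, Nat.add_mul_div_right _ _ (by omega),
        Nat.div_eq_of_lt (by omega : p - 1 < p), zero_add]
    · intro j hj hne
      simp only [hχ]
      rw [if_neg]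
      rintro ⟨x, hx⟩
      rw [mem_range] at hj
      apply hne
      have h6 : cd n p ≤ x := by
        by_contra hcon
        push Not at hcon
        have := (lt_cd_iff x n p hp).1 hcon
        omega
      have h7 : x ≤ cd n p := by
        by_contra hcon
        push Not at hcon
        have h8 : p * (cd n p + 1) ≤ p * x := Nat.mul_le_mul_left p hcon
        rw [mul_add, mul_one] at h8
        omega
      have h9 : x = cd n p := le_antisymm h7 h6
      rw [h9] at hx
      omega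
  rw [e, μ.smul p ψ hψb] at h4
  exact mul_left_cancel₀ hp0.ne' h4

/-- almost maximal values at infinity -/
lemma near_limsup (F : ℝ → ℝ) (B : ℝ) (hF : ∀ x, |F x| ≤ B) (τ : ℝ) (hτ : 0 < τ) :
    ∃ H1 : ℝ, ∀ H2 : ℝ, ∃ H, H2 ≤ H ∧ ∀ H', H1 ≤ H' → F H' ≤ F H + τ := by
  have hb1 : IsBoundedUnder (· ≤ ·) (atTop : Filter ℝ) F := ⟨B, eventually_map.2 (Eventually.of_forall fun x => (abs_le.1 (hF x)).2)⟩
  have hb2 : IsBoundedUnder (· ≥ ·) (atTop : Filter ℝ) F := ⟨-B, eventually_map.2 (Eventually.of_forall fun x => (abs_le.1 (hF x)).1)⟩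
  have h1 := eventually_lt_of_limsup_lt (f := (atTop : Filter ℝ)) (u := F) (b := limsup F atTop + τ / 2) (by linarith) hb1
  have h2 := frequently_lt_of_lt_limsup (f := (atTop : Filter ℝ)) (u := F) (b := limsup F atTop - τ / 2)
    hb2.isCoboundedUnder_le (by linarith)
  rw [eventually_atTop] at h1
  obtain ⟨H1, h1⟩ := h1
  refine ⟨H1, fun H2 => ?_⟩
  obtain ⟨H, hH2, hH⟩ := (frequently_atTop.1 h2) H2
  exact ⟨H, hH2, fun H' hH' => by linarith [h1 H' hH']⟩

end Pool.Agent.Q259.FQ
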