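import Pool.Agent.Q259.FQ.C2
import Pool.Agent.Q259.FQ.E0

set_option autoImplicit false

/-!
# Invariant means: the leading coefficients have bounded density
-/

namespace Pool.Agent.Q259.FQ

open Finset MeasureTheory Filter
open Pool.Agent.TH112.BL (Bd LM)

lemma ev_bd (f : ℕ → ℂ) (k : ℕ) (E : Set UnitAddCircle) (c : ℝ) (H : ℝ) : Bd (fun n => ev f k E c n H) :=
  ⟨1, fun n => by rw [abs_of_nonneg (ev_nonneg f k E c n H)]; exact ev_le_one f k E c n H⟩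

theorem mean_small (μ : LM) (f : ℕ → ℂ) (hf : ∀ n, ‖f n‖ ≤ 1)
    (hm : ∀ a b : ℕ, a.Coprime b → f (a * b) = f a * f b)
    (k : ℕ) (hk : 1 ≤ k) (Q R : ℕ) (K : ℝ) (hWP : WP k Q R K) (hQ : 1 ≤ Q) (hK : 0 ≤ K) (c : ℝ) (hc : 0 < c)
    (hc1 : c ≤ 1) (hR : 4 ≤ c ^ 2 * R) (E : Set UnitAddCircle) (hE : IsClosed E)
    (hT : ∀ x ∈ E, ¬ IsOfFinAddOrder x) (ε : ℝ) (hε : 0 < ε) (H2 : ℝ) :
    ∃ H, H2 ≤ H ∧ μ.m (fun n => ev f k E c n H) ≤
      R * ∑ q ∈ Icc 1 Q, volume.real ((fun x : UnitAddCircle => q • x) '' E) + ε := by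
  classical
  have hRr : (0 : ℝ) ≤ R := Nat.cast_nonneg R
  -- parameters
  set τ : ℝ := c ^ 2 * ε / 28 with hτd
  have hτ : 0 < τ := by positivity
  set τ' : ℝ := ε / (2 * (R * Q + 1)) with hτ'd
  have hτ' : 0 < τ' := by positivity
  set F : ℝ → ℝ := fun H => μ.m (fun n => VV f k Q R K n (max H 4)) with hF
  have hVbd : ∀ H : ℝ, Bd (fun n => VV f k Q R K n (max H 4)) := fun H => ⟨2, fun n => by
    rw [abs_of_nonneg (VV_nonneg f k Q R K n _)]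
    exact VV_le_two f hf k Q R K hWP n _ (le_max_right _ _)⟩
  have hFb : ∀ x, |F x| ≤ 2 := by
    intro x
    have h1 := μ.mono (hVbd x) (Pool.Agent.TH112.BL.Bd.const 2) (fun n => VV_le_two f hf k Q R K hWP n _ (le_max_right x 4))
    have h2 := μ.nonneg _ (hVbd x) (fun n => VV_nonneg f k Q R K n _)
    have h3 : μ.m (fun _ => (2 : ℝ)) = 2 := by
      have := μ.smul 2 (fun _ => 1) (Pool.Agent.TH112.BL.Bd.const 1)
      rw [μ.one] at this
      simpa using this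
    rw [h3] at h1
    rw [abs_of_nonneg h2]
    exact h1
  obtain ⟨H1, hH1⟩ := near_limsup F 2 hFb τ hτ
  obtain ⟨δ, hδ, i0, hi0, hequ⟩ := equ_all k hk E hE hT τ' hτ' Q
  obtain ⟨i1, hi1, hW⟩ := W_large
  -- the lower scale
  obtain ⟨i, hii0, hii1, hQi, hiR⟩ : ∃ i, i0 ≤ i ∧ i1 ≤ i ∧ Q < 2 ^ i ∧ (9 * R ^ 2 + 8 * R) / τ ≤ (2 : ℝ) ^ i := by
    obtain ⟨n, hn⟩ := exists_nat_ge ((9 * (R : ℝ) ^ 2 + 8 * R) / τ)
    refine ⟨max (max i0 i1) (max Q n), le_trans (le_max_left _ _) (le_max_left _ _),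
      le_trans (le_max_right _ _) (le_max_left _ _), ?_, hn.trans ?_⟩
    · exact lt_of_le_of_lt (le_trans (le_max_left _ _) (le_max_right _ _)) Nat.lt_two_pow_self
    · have h1 : n ≤ 2 ^ (max (max i0 i1) (max Q n)) :=
        (le_trans (le_max_right _ _) (le_max_right _ _)).trans Nat.lt_two_pow_self.le
      exact_mod_cast h1
  have hi : 1 ≤ i := hi0.trans hii0
  have h2i : (0 : ℝ) < 2 ^ i := by positivity
  obtain ⟨j0, hij0, hj0⟩ := hequ i hii0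
  obtain ⟨j1, hij1, hj1⟩ := hW i hii1 (max 1 ((16 * R / τ) ^ 2))
  set j := max j0 j1 with hj
  have hij : i ≤ j := hij0.trans (le_max_left _ _)
  have hequj := hj0 j (le_max_left _ _)
  set W : ℝ := ∑ p ∈ BB i j, wt p with hWd
  have hWj : max 1 ((16 * R / τ) ^ 2) ≤ W := hj1 j (le_max_right _ _)
  have hW1 : 1 ≤ W := (le_max_left _ _).trans hWj
  have hW0 : 0 < W := by linarith
  have hsq : 16 * R / τ ≤ √W := by
    apply Real.le_sqrt_of_sq_le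
    exact (le_max_right _ _).trans hWj
  have hsq2 : 16 * R * √W ≤ τ * W := by
    have h1 : 16 * (R : ℝ) ≤ τ * √W := by
      rw [div_le_iff₀ hτ] at hsq
      linarith
    calc 16 * R * √W ≤ τ * √W * √W := mul_le_mul_of_nonneg_right h1 (Real.sqrt_nonneg _)
      _ = τ * W := by rw [mul_assoc, Real.mul_self_sqrt hW0.le]
  have h2j : (1 : ℝ) ≤ 2 ^ j := one_le_pow₀ (by norm_num)
  -- the upper scale
  obtain ⟨H, hHlow, hHF⟩ := hH1 (4 * (2 : ℝ) ^ j + 12 * ((2 : ℝ) ^ j) ^ 2 + (2 * Q * K * ((2 : ℝ) ^ j) ^ (2 * k) + 1) +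
    K * ((2 : ℝ) ^ j) ^ k / δ + 2 ^ j * |H1| + 2 ^ j * |H2| + 32 * R * 2 ^ j / τ)
  have p1 : 0 ≤ 12 * ((2 : ℝ) ^ j) ^ 2 := by positivity
  have p2 : 0 ≤ 2 * Q * K * ((2 : ℝ) ^ j) ^ (2 * k) + 1 := by positivity
  have p3 : 0 ≤ K * ((2 : ℝ) ^ j) ^ k / δ := by positivity
  have p4 : 0 ≤ 2 ^ j * |H1| := by positivity
  have p5 : 0 ≤ 2 ^ j * |H2| := by positivity
  have p6 : 0 ≤ 32 * R * 2 ^ j / τ := by positivity
  have p7 : 0 ≤ 4 * (2 : ℝ) ^ j := by positivity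
  have q1 : 4 * (2 : ℝ) ^ j ≤ H := by linarith
  have q2 : 12 * ((2 : ℝ) ^ j) ^ 2 ≤ H := by linarith
  have q3 : 2 * Q * K * ((2 : ℝ) ^ j) ^ (2 * k) + 1 ≤ H := by linarith
  have q4 : K * ((2 : ℝ) ^ j) ^ k / δ ≤ H := by linarith
  have q5 : 2 ^ j * |H1| ≤ H := by linarith
  have q6 : 2 ^ j * |H2| ≤ H := by linarith
  have q7 : 32 * R * 2 ^ j / τ ≤ H := by linarith
  have hH4 : 4 ≤ H := by linarith
  have hH0 : 0 < H := by linarith
  have hHk : H ≤ H ^ k := le_self_pow₀ (by linarith) (by omega)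
  have hHk0 : 0 < H ^ k := by positivity
  have q4' : K * ((2 : ℝ) ^ j) ^ k / H ^ k ≤ δ := by
    rw [div_le_iff₀ hHk0]
    rw [div_le_iff₀ hδ] at q4
    nlinarith
  have hpw := pointwise f hf hm k Q R K hWP hQ hK c hc hc1 hR E i j hi hij hQi H q1 q2 (by linarith) δ q4'
    (fun q => volume.real ((fun x : UnitAddCircle => q • x) '' E) + τ') W hWd hequj τ hτ
  -- error terms
  have r1 : 4 * (R * (4 * √W + W * (2 / 2 ^ i + 8 * 2 ^ j / H))) + 9 * (R : ℝ) ^ 2 / 2 ^ i ≤ 3 * τ * W := by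
    have s1 : 9 * (R : ℝ) ^ 2 + 8 * R ≤ τ * 2 ^ i := by
      rw [div_le_iff₀ hτ] at hiR; linarith
    have s2 : 8 * (R : ℝ) / 2 ^ i + 9 * (R : ℝ) ^ 2 / 2 ^ i ≤ τ := by
      rw [← add_div, div_le_iff₀ h2i]; linarith
    have s3 : 32 * R * 2 ^ j / H ≤ τ := by
      rw [div_le_iff₀ hH0]
      rw [div_le_iff₀ hτ] at q7
      linarith
    have s4 : 9 * (R : ℝ) ^ 2 / 2 ^ i ≤ 9 * (R : ℝ) ^ 2 / 2 ^ i * W := le_mul_of_one_le_right (by positivity) hW1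
    calc 4 * (R * (4 * √W + W * (2 / 2 ^ i + 8 * 2 ^ j / H))) + 9 * (R : ℝ) ^ 2 / 2 ^ i
        ≤ 4 * (R * (4 * √W + W * (2 / 2 ^ i + 8 * 2 ^ j / H))) + 9 * (R : ℝ) ^ 2 / 2 ^ i * W := by linarith
      _ = 16 * R * √W + W * (8 * (R : ℝ) / 2 ^ i + 9 * (R : ℝ) ^ 2 / 2 ^ i) + W * (32 * R * 2 ^ j / H) := by ring
      _ ≤ τ * W + W * τ + W * τ := by gcongr
      _ = _ := by ring
  set κs : ℝ := ∑ q ∈ Icc 1 Q, (volume.real ((fun x : UnitAddCircle => q • x) '' E) + τ') with hκs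
  -- the mean of the inequality
  set G : ℕ → ℝ := fun p => μ.m (fun n => ev f k E c n (H / p)) with hG
  have hpp : ∀ p ∈ BB i j, (0 : ℝ) < p ∧ (p : ℝ) ≤ 2 ^ j ∧ 4 ≤ H / p ∧ H1 ≤ H / p ∧ H2 ≤ H / p ∧ 1 ≤ p := by
    intro p hp
    rw [mem_BB] at hp
    have hp0 : (0 : ℝ) < p := by exact_mod_cast hp.2.pos
    have hpj : (p : ℝ) ≤ 2 ^ j := by exact_mod_cast hp.1.2
    refine ⟨hp0, hpj, ?_, ?_, ?_, hp.2.pos⟩
    · rw [le_div_iff₀ hp0]; linarith
    · rw [le_div_iff₀ hp0]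
      calc H1 * p ≤ |H1| * 2 ^ j := mul_le_mul (le_abs_self _) hpj hp0.le (abs_nonneg _)
        _ ≤ H := by linarith
    · rw [le_div_iff₀ hp0]
      calc H2 * p ≤ |H2| * 2 ^ j := mul_le_mul (le_abs_self _) hpj hp0.le (abs_nonneg _)
        _ ≤ H := by linarith
  set A : ℝ := 2 * τ * W + 4 * (R * (4 * √W + W * (2 / 2 ^ i + 8 * 2 ^ j / H))) + 9 * R ^ 2 / 2 ^ i +
      c ^ 2 / 2 * (R * κs * W) with hA
  have hbV : ∀ p ∈ BB i j, Bd (fun n => VV f k Q R K (cd n p) (H / p)) := by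
    intro p hp
    refine ⟨2, fun n => ?_⟩
    rw [abs_of_nonneg (VV_nonneg f k Q R K _ _)]
    exact VV_le_two f hf k Q R K hWP _ _ (hpp p hp).2.2.1
  have hbE : ∀ p : ℕ, Bd (fun n => ev f k E c (cd n p) (H / p)) := by
    intro p
    exact ⟨1, fun n => by rw [abs_of_nonneg (ev_nonneg _ _ _ _ _ _)]; exact ev_le_one _ _ _ _ _ _⟩
  have hmean : W * F H + c ^ 2 / 2 * ∑ p ∈ BB i j, wt p * G p ≤ ∑ p ∈ BB i j, wt p * F (H / p) + A := by
    have b1 : Bd (fun n => ∑ p ∈ BB i j, wt p * ev f k E c (cd n p) (H / p)) :=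
      Pool.Agent.TH112.BL.Bd.sum (BB i j) fun p _ => (hbE p).cmul (wt p)
    have b2 : Bd (fun n => ∑ p ∈ BB i j, wt p * VV f k Q R K (cd n p) (H / p)) :=
      Pool.Agent.TH112.BL.Bd.sum (BB i j) fun p hp => (hbV p hp).cmul (wt p)
    have eH : max H 4 = H := max_eq_left hH4
    have b3 : Bd (fun n => VV f k Q R K n H) := by
      have := hVbd H
      rwa [eH] at this
    have m1 := μ.mono (φ := fun n => W * VV f k Q R K n H + c ^ 2 / 2 * ∑ p ∈ BB i j, wt p * ev f k E c (cd n p) (H / p))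
      (ψ := fun n => ∑ p ∈ BB i j, wt p * VV f k Q R K (cd n p) (H / p) + A)
      ((b3.cmul W).add (b1.cmul _)) (b2.add (Pool.Agent.TH112.BL.Bd.const A)) hpw
    rw [μ.add _ _ (b3.cmul W) (b1.cmul _), μ.smul _ _ b3, μ.smul _ _ b1, μ.add _ _ b2 (Pool.Agent.TH112.BL.Bd.const A)] at m1
    have m2 : μ.m (fun _ => A) = A := by
      have := μ.smul A (fun _ => 1) (Pool.Agent.TH112.BL.Bd.const 1)
      rw [μ.one] at this
      simpa using this
    have m3 : μ.m (fun n => ∑ p ∈ BB i j, wt p * ev f k E c (cd n p) (H / p)) = ∑ p ∈ BB i j, wt p * G p := by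
      rw [μ.sum (BB i j) fun p _ => (hbE p).cmul (wt p)]
      refine sum_congr rfl fun p hp => ?_
      rw [μ.smul _ _ (hbE p), mean_cd μ p (hpp p hp).2.2.2.2.2 (fun n => ev f k E c n (H / p)) (ev_bd f k E c _)]
    have m4 : μ.m (fun n => ∑ p ∈ BB i j, wt p * VV f k Q R K (cd n p) (H / p)) = ∑ p ∈ BB i j, wt p * F (H / p) := by
      rw [μ.sum (BB i j) fun p hp => (hbV p hp).cmul (wt p)]
      refine sum_congr rfl fun p hp => ?_
      have h4 := (hpp p hp).2.2.1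
      have b4 : Bd (fun n => VV f k Q R K n (H / p)) := by
        have := hVbd (H / p)
        rwa [max_eq_left h4] at this
      rw [μ.smul _ _ (hbV p hp), mean_cd μ p (hpp p hp).2.2.2.2.2 (fun n => VV f k Q R K n (H / p)) b4, hF]
      simp only
      rw [max_eq_left h4]
    rw [m2, m3, m4] at m1
    have e5 : F H = μ.m (fun n => VV f k Q R K n H) := by rw [hF]; simp only; rw [eH]
    rw [e5]
    exact m1
  have hFp : ∑ p ∈ BB i j, wt p * F (H / p) ≤ W * (F H + τ) := by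
    rw [hWd, sum_mul]
    exact sum_le_sum fun p hp => mul_le_mul_of_nonneg_left (hHF _ (hpp p hp).2.2.2.1) (wt_nonneg p)
  have hc2 : 0 < c ^ 2 / 2 := by positivity
  -- conclusion
  have hkey : ∑ p ∈ BB i j, wt p * G p ≤ W * (R * κs + ε / 2) := by
    have h1 : c ^ 2 / 2 * ∑ p ∈ BB i j, wt p * G p ≤ W * (6 * τ) + c ^ 2 / 2 * (R * κs * W) := by
      rw [hA] at hmean
      linarith
    have h2 : W * (6 * τ) + c ^ 2 / 2 * (R * κs * W) ≤ c ^ 2 / 2 * (W * (R * κs + ε / 2)) := by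
      have h3 : W * (6 * τ) ≤ c ^ 2 / 2 * (W * (ε / 2)) := by
        rw [hτd]
        nlinarith [mul_pos (mul_pos (pow_pos hc 2) hε) hW0]
      linarith
    exact le_of_mul_le_mul_left (h1.trans h2) hc2
  obtain ⟨p, hp, hGp⟩ : ∃ p ∈ BB i j, G p ≤ R * κs + ε / 2 := by
    by_contra hcon
    push Not at hcon
    have h1 : W * (R * κs + ε / 2) < ∑ p ∈ BB i j, wt p * G p := by
      rw [hWd, sum_mul]
      have hne : ∃ p ∈ BB i j, 0 < wt p := by
        by_contra h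
        push Not at h
        have h2 : W ≤ 0 := sum_nonpos fun p hp => h p hp
        linarith
      obtain ⟨p, hp, hwp⟩ := hne
      exact sum_lt_sum (fun p hp => mul_le_mul_of_nonneg_left (hcon p hp).le (wt_nonneg p))
        ⟨p, hp, mul_lt_mul_of_pos_left (hcon p hp) hwp⟩
    linarith
  refine ⟨H / p, (hpp p hp).2.2.2.2.1, hGp.trans ?_⟩
  rw [hκs, sum_add_distrib, sum_const, Nat.card_Icc, Nat.add_sub_cancel, nsmul_eq_mul, mul_add]
  have h1 : (R : ℝ) * (Q * τ') ≤ ε / 2 := by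
    rw [hτ'd]
    have h2 : (R : ℝ) * (Q * (ε / (2 * (R * Q + 1)))) = (R * Q / (R * Q + 1)) * (ε / 2) := by
      field_simp
    rw [h2]
    have h3 : (R : ℝ) * Q / (R * Q + 1) ≤ 1 := by
      rw [div_le_one (by positivity)]
      linarith
    calc (R : ℝ) * Q / (R * Q + 1) * (ε / 2) ≤ 1 * (ε / 2) := mul_le_mul_of_nonneg_right h3 (by positivity)
      _ = _ := one_mul _
  linarith

end Pool.Agent.Q259.FQ
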