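import Pool.Agent.Q259.FQ.E1
import Pool.Agent.TH833.BL.J4542

set_option autoImplicit false

/-!
# From logarithmic averages to invariant means
-/

namespace Pool.Agent.Q259.FQ

open Finset MeasureTheory Filter
open Pool.Agent.Helper602.MK (ee)
open Pool.Agent.Helper602.MK.N_J5b (norm_ee)
open Pool.Agent.H373R2.NB (Ph)
open Pool.Agent.TH112.BL (Bd LM)
open Pool.Agent.TH833.BL

/-- the logarithmic mean along an ultrafilter -/
noncomputable def ulm (U : Ultrafilter ℕ) (hU : (U : Filter ℕ) ≤ atTop) : LM where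
  m := lm U
  add φ ψ hφ hψ := by
    apply lm_eq
    refine ((lm_tendsto hU hφ).add (lm_tendsto hU hψ)).congr fun N => ?_
    unfold avg
    rw [S_add]; ring
  smul c φ hφ := by
    apply lm_eq
    refine ((lm_tendsto hU hφ).const_mul c).congr fun N => ?_
    unfold avg
    rw [S_smul]; ring
  nonneg φ hφ h0 := by
    apply ge_of_tendsto (lm_tendsto hU hφ)
    apply hU
    filter_upwards [eventually_ge_atTop 3] with N hN
    have := one_le_log hN
    exact mul_nonneg (by positivity) (S_nonneg h0 N)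
  one := by
    apply lm_eq
    apply Tendsto.mono_left _ hU
    have h1 : Tendsto (fun N : ℕ => 1 + (1 / Real.log (N : ℝ)) * (H N - Real.log N)) atTop
        (nhds (1 + 0)) := by
      apply Tendsto.add tendsto_const_nhds
      apply small_of_bdd (K := 1)
      intro N
      rcases Nat.eq_zero_or_pos N with rfl | hN
      · simp [H]
      · have h1 := H_le N
        have h2 := le_H N
        have h3 : Real.log (N : ℝ) ≤ Real.log ((N : ℝ) + 1) :=
          Real.log_le_log (by positivity) (by linarith)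
        rw [abs_le]; constructor <;> linarith
    rw [add_zero] at h1
    refine h1.congr' ?_
    filter_upwards [eventually_ge_atTop 3] with N hN
    have := one_le_log hN
    unfold avg
    rw [S_one]
    field_simp
    ring
  shift φ hφ := by
    obtain ⟨C, hC⟩ := hφ
    exact lm_eq_of_diff hU ⟨C, hC⟩ (shift_diff hC)
  dil p φ hp hφ := by
    obtain ⟨C, hC⟩ := hφ
    refine lm_eq_of_diff hU ⟨p * C, fun n => ?_⟩ (dil_diff hC hp)
    have hC0 : 0 ≤ C := (abs_nonneg _).trans (hC 0)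
    dsimp only
    split_ifs
    · rw [abs_mul, abs_of_nonneg (by positivity : (0 : ℝ) ≤ (p : ℝ))]
      exact mul_le_mul_of_nonneg_left (hC n) (by positivity)
    · rw [abs_zero]; positivity

/-- splitting a window into shorter ones -/
lemma split_win (f : ℕ → ℂ) (hf : ∀ n, ‖f n‖ ≤ 1) (k : ℕ) (E : Set UnitAddCircle) (c : ℝ) (hc : 0 < c)
    (n N : ℕ) (H1 : ℝ) (hH1 : 1 ≤ H1) (ρ : ℝ) (hρ : (ρ : UnitAddCircle) ∈ E) (φ : ℕ → ℝ) (hφ : Ph k ρ φ)
    (hN : c * N ≤ ‖∑ h ∈ range N, f (n + h) * ee (φ h)‖) :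
    c / 2 * N - 2 * ⌈H1⌉₊ ≤ ∑ j ∈ range N, ev f k E (c / 2) (n + j) H1 := by
  set L := ⌈H1⌉₊ with hL
  have hL1 : H1 ≤ L := Nat.le_ceil H1
  have hL0 : (0 : ℝ) < L := by linarith
  set a : ℕ → ℂ := fun h => f (n + h) * ee (φ h) with ha
  have ha1 : ∀ h, ‖a h‖ ≤ 1 := fun h => norm_term f hf _ _
  have h1 : ∀ h, h < L → ‖∑ x ∈ range N, a x - ∑ j ∈ range N, a (j + h)‖ ≤ 2 * L := by
    intro h hh
    have e1 : ∑ j ∈ range N, a (j + h) = ∑ x ∈ range (h + N), a x - ∑ x ∈ range h, a x := by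
      rw [sum_range_add, add_sub_cancel_left]
      exact sum_congr rfl fun j _ => by rw [Nat.add_comm]
    have h2 := trunc a ha1 N (h + N) h (by omega) (by omega)
    have h3 := sum_range_le a ha1 h
    have hhr : (h : ℝ) ≤ L := by exact_mod_cast hh.le
    rw [e1]
    calc ‖∑ x ∈ range N, a x - (∑ x ∈ range (h + N), a x - ∑ x ∈ range h, a x)‖
        = ‖(∑ x ∈ range N, a x - ∑ x ∈ range (h + N), a x) + ∑ x ∈ range h, a x‖ := by congr 1; ring
      _ ≤ _ := (norm_add_le _ _).trans (by linarith)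
  have h2 : ‖(L : ℂ) * ∑ x ∈ range N, a x - ∑ j ∈ range N, ∑ h ∈ range L, a (j + h)‖ ≤ L * (2 * L) := by
    rw [sum_comm]
    have e1 : (L : ℂ) * ∑ x ∈ range N, a x = ∑ _h ∈ range L, ∑ x ∈ range N, a x := by
      rw [sum_const, card_range, nsmul_eq_mul]
    rw [e1, ← sum_sub_distrib]
    refine (norm_sum_le _ _).trans ?_
    calc _ ≤ ∑ _h ∈ range L, 2 * (L : ℝ) := sum_le_sum fun h hh => h1 h (mem_range.1 hh)
      _ = _ := by rw [sum_const, card_range, nsmul_eq_mul]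
  have h3 : ∀ j ∈ range N, ‖∑ h ∈ range L, a (j + h)‖ ≤ L * (c / 2) + L * ev f k E (c / 2) (n + j) H1 := by
    intro j _
    have e1 : ∑ h ∈ range L, a (j + h) = ∑ h ∈ range L, f (n + j + h) * ee (φ (h + j)) := by
      refine sum_congr rfl fun h _ => ?_
      simp only [ha]
      rw [← Nat.add_assoc, Nat.add_comm j h]
    have hAA := norm_AA f (n + j) H1 hH1 (fun h => φ (h + j))
    by_cases hEv : Ev f k E (c / 2) (n + j) H1
    · have h4 : ev f k E (c / 2) (n + j) H1 = 1 := by unfold ev; rw [if_pos hEv]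
      rw [h4]
      have h5 := sum_range_le (fun h => a (j + h)) (fun h => ha1 _) L
      have : 0 < L * (c / 2) := by positivity
      linarith
    · have h4 : ev f k E (c / 2) (n + j) H1 = 0 := by unfold ev; rw [if_neg hEv]
      rw [h4, mul_zero, add_zero]
      have h5 : ‖AA f (n + j) H1 (fun h => φ (h + j))‖ < c / 2 := by
        by_contra hcon
        push Not at hcon
        exact hEv ⟨ρ, hρ, _, Q257.MD.Ph_shift j k ρ φ hφ, hcon⟩
      rw [hAA, ← e1] at h5
      have hH0 : 0 < H1 := by linarith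
      rw [one_div, inv_mul_lt_iff₀ hH0] at h5
      refine h5.le.trans ?_
      exact mul_le_mul_of_nonneg_right hL1 (by positivity)
  have h4 : ‖∑ j ∈ range N, ∑ h ∈ range L, a (j + h)‖ ≤
      N * (L * (c / 2)) + L * ∑ j ∈ range N, ev f k E (c / 2) (n + j) H1 := by
    refine (norm_sum_le _ _).trans ((sum_le_sum h3).trans (le_of_eq ?_))
    rw [sum_add_distrib, sum_const, card_range, nsmul_eq_mul, mul_sum]
  have h5 : L * (c * N) ≤ L * (2 * L) + (N * (L * (c / 2)) + L * ∑ j ∈ range N, ev f k E (c / 2) (n + j) H1) := by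
    calc L * (c * N) ≤ L * ‖∑ x ∈ range N, a x‖ := mul_le_mul_of_nonneg_left hN hL0.le
      _ = ‖(L : ℂ) * ∑ x ∈ range N, a x‖ := by rw [norm_mul, Complex.norm_natCast]
      _ = ‖((L : ℂ) * ∑ x ∈ range N, a x - ∑ j ∈ range N, ∑ h ∈ range L, a (j + h)) +
          ∑ j ∈ range N, ∑ h ∈ range L, a (j + h)‖ := by congr 1; ring
      _ ≤ _ := (norm_add_le _ _).trans (add_le_add h2 h4)
  have h6 : L * (c / 2 * N - 2 * L) ≤ L * ∑ j ∈ range N, ev f k E (c / 2) (n + j) H1 := by linarith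
  exact le_of_mul_le_mul_left h6 hL0

lemma shiftj_diff {φ : ℕ → ℝ} {C : ℝ} (h : ∀ n, |φ n| ≤ C) (N j : ℕ) :
    |S (fun n => φ (n + j)) N - S φ N| ≤ 3 * C * j := by
  induction j with
  | zero => simp
  | succ j ih =>
    have h1 := shift_diff (φ := fun n => φ (n + j)) (fun n => h _) N
    have e : (fun n => (fun n => φ (n + j)) (n + 1)) = fun n => φ (n + (j + 1)) := by
      funext n
      simp only
      congr 1
      omega
    rw [e] at h1
    have h2 : S (fun n => φ (n + (j + 1))) N - S φ N = (S (fun n => φ (n + (j + 1))) N - S (fun n => φ (n + j)) N) +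
      (S (fun n => φ (n + j)) N - S φ N) := by ring
    rw [h2]
    refine (abs_add_le _ _).trans ?_
    push_cast
    linarith

open Classical in
/-- windows of natural length -/
def EvN (f : ℕ → ℂ) (k : ℕ) (E : Set UnitAddCircle) (c : ℝ) (n N : ℕ) : Prop :=
  ∃ ρ : ℝ, (ρ : UnitAddCircle) ∈ E ∧ ∃ φ : ℕ → ℝ, Ph k ρ φ ∧ c * N ≤ ‖∑ h ∈ range N, f (n + h) * ee (φ h)‖

open Classical in
lemma log_split (f : ℕ → ℂ) (hf : ∀ n, ‖f n‖ ≤ 1) (k : ℕ) (E : Set UnitAddCircle) (c : ℝ) (hc : 0 < c)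
    (N X : ℕ) (H1 : ℝ) (hH1 : 1 ≤ H1) :
    (c / 2 * N - 2 * ⌈H1⌉₊) * S (fun n => if EvN f k E c n N then 1 else 0) X ≤
      N * (S (fun n => ev f k E (c / 2) n H1) X + 3 * N) := by
  have h1 : (c / 2 * N - 2 * ⌈H1⌉₊) * S (fun n => if EvN f k E c n N then 1 else 0) X ≤
      ∑ j ∈ range N, S (fun n => ev f k E (c / 2) (n + j) H1) X := by
    unfold S
    rw [mul_sum, sum_comm]
    refine sum_le_sum fun n _ => ?_
    rw [← mul_sum]
    beta_reduce
    have hn : (0 : ℝ) ≤ 1 / (n : ℝ) := by positivity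
    by_cases hEv : EvN f k E c n N
    · obtain ⟨ρ, hρ, φ, hφ, hN⟩ := hEv
      rw [if_pos ⟨ρ, hρ, φ, hφ, hN⟩]
      have h2 := split_win f hf k E c hc n N H1 hH1 ρ hρ φ hφ hN
      have := mul_le_mul_of_nonneg_left h2 hn
      linarith
    · rw [if_neg hEv, mul_zero, mul_zero]
      exact mul_nonneg hn (sum_nonneg fun j _ => ev_nonneg _ _ _ _ _ _)
  refine h1.trans ?_
  calc ∑ j ∈ range N, S (fun n => ev f k E (c / 2) (n + j) H1) X
      ≤ ∑ _j ∈ range N, (S (fun n => ev f k E (c / 2) n H1) X + 3 * N) := by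
        refine sum_le_sum fun j hj => ?_
        have h2 := shiftj_diff (φ := fun n => ev f k E (c / 2) n H1) (C := 1)
          (fun n => by rw [abs_of_nonneg (ev_nonneg _ _ _ _ _ _)]; exact ev_le_one _ _ _ _ _ _) X j
        have h3 : (j : ℝ) ≤ N := by exact_mod_cast (mem_range.1 hj).le
        have := (abs_le.1 h2).2
        linarith
    _ = _ := by rw [sum_const, card_range, nsmul_eq_mul]

open Classical in
/-- the distribution of the leading coefficients on windows of natural length -/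
theorem density (f : ℕ → ℂ) (hf : ∀ n, ‖f n‖ ≤ 1)
    (hm : ∀ a b : ℕ, a.Coprime b → f (a * b) = f a * f b)
    (k : ℕ) (hk : 1 ≤ k) (Q R : ℕ) (K : ℝ) (hWP : WP k Q R K) (hQ : 1 ≤ Q) (hK : 0 ≤ K) (c : ℝ) (hc : 0 < c)
    (hc1 : c ≤ 1) (hR : 4 ≤ (c / 2) ^ 2 * R) (E : Set UnitAddCircle) (hE : IsClosed E)
    (hT : ∀ x ∈ E, ¬ IsOfFinAddOrder x) (ε : ℝ) (hε : 0 < ε) :
    ∃ N0 : ℕ, ∀ N : ℕ, N0 ≤ N → ∃ X0 : ℕ, ∀ X : ℕ, X0 ≤ X →
      S (fun n => if EvN f k E c n N then 1 else 0) X ≤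
        (2 / c * (R * ∑ q ∈ Icc 1 Q, volume.real ((fun x : UnitAddCircle => q • x) '' E)) + ε) * Real.log X := by
  by_contra hcon
  push Not at hcon
  set V : ℝ := R * ∑ q ∈ Icc 1 Q, volume.real ((fun x : UnitAddCircle => q • x) '' E) with hV
  have hV0 : 0 ≤ V := by positivity
  set ρ : ℝ := 2 / c * V + ε with hρ
  have hρ0 : 0 < ρ := by positivity
  choose N hN hX using hcon
  choose X hX1 hX2 using hX
  -- the sequence
  set Nn : ℕ → ℕ := fun i => N (i + 1) with hNn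
  set Xn : ℕ → ℕ := fun i => X (i + 1) (max (i + 3) (⌈Real.exp ((i + 1) * Nn i)⌉₊)) with hXn
  have hNi : ∀ i, i + 1 ≤ Nn i := fun i => hN (i + 1)
  have hXi : ∀ i, i + 3 ≤ Xn i := fun i => (le_max_left _ _).trans (hX1 (i + 1) _)
  have hXi2 : ∀ i, (i + 1) * (Nn i : ℝ) ≤ Real.log (Xn i) := by
    intro i
    have h1 : ⌈Real.exp ((i + 1) * Nn i)⌉₊ ≤ Xn i := (le_max_right _ _).trans (hX1 (i + 1) _)
    have h2 : Real.exp ((i + 1) * Nn i) ≤ Xn i := (Nat.le_ceil _).trans (by exact_mod_cast h1)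
    have h3 := Real.log_le_log (Real.exp_pos _) h2
    rwa [Real.log_exp] at h3
  have hXi3 : ∀ i, ρ * Real.log (Xn i) < S (fun n => if EvN f k E c n (Nn i) then 1 else 0) (Xn i) :=
    fun i => hX2 (i + 1) _
  have hXt : Tendsto Xn atTop atTop :=
    tendsto_atTop_mono (fun i => (by omega : i ≤ i + 3).trans (hXi i)) tendsto_id
  set U : Ultrafilter ℕ := (hyperfilter ℕ).map Xn with hU
  have hUt : (U : Filter ℕ) ≤ atTop := by
    rw [hU, Ultrafilter.coe_map]
    exact (map_mono (Nat.hyperfilter_le_atTop)).trans hXt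
  set μ : LM := ulm U hUt with hμ
  have key : ∀ H1 : ℝ, 1 ≤ H1 → c / 2 * ρ ≤ μ.m (fun n => ev f k E (c / 2) n H1) := by
    intro H1 hH1
    have hb := ev_bd f k E (c / 2) H1
    have h1 : Tendsto (avg (fun n => ev f k E (c / 2) n H1)) U (nhds (μ.m (fun n => ev f k E (c / 2) n H1))) :=
      lm_tendsto hUt hb
    rw [hU, Ultrafilter.coe_map, tendsto_map'_iff] at h1
    have h2 : Tendsto (fun i : ℕ => (c / 2 - 2 * ⌈H1⌉₊ / ((i : ℝ) + 1)) * ρ - 3 / ((i : ℝ) + 1)) atTop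
        (nhds ((c / 2 - 0) * ρ - 0)) := by
      have t1 : ∀ a : ℝ, Tendsto (fun i : ℕ => a / ((i : ℝ) + 1)) atTop (nhds 0) := fun a =>
        tendsto_const_nhds.div_atTop (tendsto_atTop_add_const_right _ _ tendsto_natCast_atTop_atTop)
      exact ((tendsto_const_nhds.sub (t1 _)).mul_const ρ).sub (t1 3)
    rw [sub_zero, sub_zero] at h2
    refine le_of_tendsto_of_tendsto (h2.mono_left Nat.hyperfilter_le_atTop) h1 ?_
    apply Nat.hyperfilter_le_atTop
    filter_upwards [eventually_ge_atTop ⌈4 * (⌈H1⌉₊ : ℝ) / c⌉₊] with i hi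
    have hi' : 4 * (⌈H1⌉₊ : ℝ) / c ≤ i := (Nat.le_ceil _).trans (by exact_mod_cast hi)
    have hl := log_split f hf k E c hc (Nn i) (Xn i) H1 hH1
    have hlog : 1 ≤ Real.log (Xn i) := one_le_log (by have := hXi i; omega)
    have hNr : ((i : ℝ) + 1) ≤ Nn i := by exact_mod_cast hNi i
    have hN0 : (0 : ℝ) < Nn i := by linarith [(Nat.cast_nonneg i : (0 : ℝ) ≤ i)]
    have hi1 : (0 : ℝ) < (i : ℝ) + 1 := by positivity
    have hLN : 2 * (⌈H1⌉₊ : ℝ) ≤ c / 2 * Nn i := by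
      rw [div_le_iff₀ hc] at hi'
      nlinarith
    have h5 := mul_le_mul_of_nonneg_left (hXi3 i).le (sub_nonneg.2 hLN)
    have h6 := h5.trans hl
    simp only [Function.comp]
    unfold avg
    rw [one_div_mul_eq_div, le_div_iff₀ (by linarith)]
    -- divide by N
    have h7 : (c / 2 - 2 * ⌈H1⌉₊ / Nn i) * (ρ * Real.log (Xn i)) ≤ S (fun n => ev f k E (c / 2) n H1) (Xn i) + 3 * Nn i := by
      have e : (c / 2 * (Nn i : ℝ) - 2 * ⌈H1⌉₊) * (ρ * Real.log (Xn i)) =
          Nn i * ((c / 2 - 2 * ⌈H1⌉₊ / Nn i) * (ρ * Real.log (Xn i))) := by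
        field_simp
      rw [e] at h6
      exact le_of_mul_le_mul_left h6 hN0
    have h8 : 3 * (Nn i : ℝ) ≤ 3 / ((i : ℝ) + 1) * Real.log (Xn i) := by
      rw [div_mul_eq_mul_div, le_div_iff₀ hi1]
      have := hXi2 i
      linarith
    have h9 : 2 * (⌈H1⌉₊ : ℝ) / Nn i ≤ 2 * ⌈H1⌉₊ / ((i : ℝ) + 1) :=
      div_le_div_of_nonneg_left (by positivity) hi1 hNr
    have h10 : (c / 2 - 2 * ⌈H1⌉₊ / ((i : ℝ) + 1)) * (ρ * Real.log (Xn i)) ≤
        (c / 2 - 2 * ⌈H1⌉₊ / Nn i) * (ρ * Real.log (Xn i)) :=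
      mul_le_mul_of_nonneg_right (by linarith) (by positivity)
    linarith
  obtain ⟨H1, hH1, hsmall⟩ := mean_small μ f hf hm k hk Q R K hWP hQ hK (c / 2) (by positivity) (by linarith) hR E hE hT
    (c / 4 * ε) (by positivity) 1
  have h1 := (key H1 hH1).trans hsmall
  have h2 : c / 2 * ρ = V + c / 2 * ε := by
    rw [hρ]; field_simp
  rw [h2] at h1
  have : 0 < c * ε := by positivity
  linarith

end Pool.Agent.Q259.FQ
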