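import Pool.Agent.Q259.FQ.E2

set_option autoImplicit false

/-!
# The theorem for polynomials
-/

namespace Pool.Agent.Q259.FQ

open Finset MeasureTheory Filter Polynomial
open Pool.Agent.Helper602.MK (ee)
open Pool.Agent.Helper602.MK.N_J5b (norm_ee)
open Pool.Agent.H373R2.NB (Ph Ph_poly)
open Pool.Agent.TH833.BL

lemma Ph_real (k : ℕ) (P : ℝ[X]) (hP : P.natDegree ≤ k) :
    Ph k (k.factorial * P.coeff k) (fun n => P.eval (n : ℝ)) := by
  have h : ∀ m : ℕ, m ≤ k + 1 → Ph k (k.factorial * ∑ i ∈ range m, (if i = k then P.coeff k else 0))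
      (fun n => ∑ i ∈ range m, P.coeff i * (n : ℝ) ^ i) := by
    intro m hm
    induction m with
    | zero =>
      simp only [range_zero, sum_empty, mul_zero]
      have := Ph_poly k (0 : ℤ[X]) (by simp) 0
      simpa using this
    | succ m ih =>
      have h1 := ih (by omega)
      have h2 := Ph_poly k (X ^ m : ℤ[X]) (by rw [natDegree_X_pow]; omega) (P.coeff m)
      have h3 := Q257.MD.Ph_add k _ _ _ _ h1 h2
      have e1 : (fun n : ℕ => (∑ i ∈ range m, P.coeff i * (n : ℝ) ^ i) +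
          P.coeff m * (((X ^ m : ℤ[X]).eval (n : ℤ) : ℤ) : ℝ)) =
          fun n : ℕ => ∑ i ∈ range (m + 1), P.coeff i * (n : ℝ) ^ i := by
        funext n
        rw [sum_range_succ]
        simp
      have e2 : (k.factorial : ℝ) * ∑ i ∈ range m, (if i = k then P.coeff k else 0) +
          P.coeff m * ((k.factorial : ℝ) * (((X ^ m : ℤ[X]).coeff k : ℤ) : ℝ)) =
          k.factorial * ∑ i ∈ range (m + 1), (if i = k then P.coeff k else 0) := by
        rw [sum_range_succ, coeff_X_pow]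
        by_cases hmk : m = k
        · subst hmk
          simp
          ring
        · rw [if_neg hmk, if_neg (Ne.symm hmk)]
          simp
      rw [e1, e2] at h3
      exact h3
  have h1 := h (k + 1) le_rfl
  rw [sum_ite_eq' (range (k + 1)) k, if_pos (mem_range.2 (by omega))] at h1
  have e : (fun n : ℕ => ∑ i ∈ range (k + 1), P.coeff i * (n : ℝ) ^ i) = fun n : ℕ => P.eval (n : ℝ) := by
    funext n
    rw [eval_eq_sum_range' (by omega : P.natDegree < k + 1)]
  rw [e] at h1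
  exact h1

/-- correlation of size at least `c` with a polynomial whose `k`-th coefficient lies in `E` -/
def Big (f : ℕ → ℂ) (k : ℕ) (E : Set UnitAddCircle) (c : ℝ) (n H : ℕ) : Prop :=
  ∃ P : ℝ[X], P.natDegree ≤ k ∧ ((P.coeff k : ℝ) : UnitAddCircle) ∈ E ∧
    c * H ≤ ‖∑ h ∈ range H, f (n + h) * ee (P.eval (h : ℝ))‖

lemma Big_EvN (f : ℕ → ℂ) (k : ℕ) (E : Set UnitAddCircle) (c : ℝ) (n H : ℕ) (h : Big f k E c n H) :
    EvN f k ((fun x : UnitAddCircle => k.factorial • x) '' E) c n H := by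
  obtain ⟨P, hP, hE, hc⟩ := h
  refine ⟨k.factorial * P.coeff k, ⟨_, hE, ?_⟩, _, Ph_real k P hP, hc⟩
  show k.factorial • ((P.coeff k : ℝ) : UnitAddCircle) = _
  rw [← AddCircle.coe_nsmul, nsmul_eq_mul]

open Classical in
/-- **distribution of the leading coefficients** -/
theorem dist (k : ℕ) (hk : 1 ≤ k) : ∃ (D : ℝ) (M : ℕ), 0 < D ∧
    ∀ f : ℕ → ℂ, (∀ n, ‖f n‖ ≤ 1) → (∀ a b : ℕ, a.Coprime b → f (a * b) = f a * f b) →
    ∀ E : Set UnitAddCircle, IsClosed E → (∀ x ∈ E, ¬ IsOfFinAddOrder x) →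
    ∀ c : ℝ, 0 < c → c ≤ 1 → ∀ ε : ℝ, 0 < ε → ∃ H0 : ℕ, ∀ H : ℕ, H0 ≤ H → ∃ X0 : ℕ, ∀ X : ℕ, X0 ≤ X →
      ∑ n ∈ (Icc 1 X).filter (fun n => Big f k E c n H), (1 : ℝ) / n ≤
        (D / c ^ M * volume.real E + ε) * Real.log X := by
  obtain ⟨C, m, hC, hw⟩ := weyl k hk
  have hCr : (1 : ℝ) ≤ C := by exact_mod_cast hC
  have hfac : (0 : ℝ) < k.factorial := by exact_mod_cast Nat.factorial_pos k
  refine ⟨34 * C ^ 2 * 68 ^ (2 * m) * k.factorial, 3 + 4 * m, by positivity, ?_⟩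
  intro f hf hm E hE hT c hc hc1 ε hε
  set R : ℕ := ⌈16 / c ^ 2⌉₊ with hR
  have hR1 : 16 / c ^ 2 ≤ R := Nat.le_ceil _
  have hc2 : c ^ 2 ≤ 1 := pow_le_one₀ hc.le hc1
  have hc20 : 0 < c ^ 2 := by positivity
  have hR2 : (R : ℝ) ≤ 17 / c ^ 2 := by
    have h1 := (Nat.ceil_lt_add_one (show 0 ≤ 16 / c ^ 2 by positivity)).le
    have h2 : 1 ≤ 1 / c ^ 2 := by rw [le_div_iff₀ hc20]; linarith
    calc (R : ℝ) ≤ 16 / c ^ 2 + 1 := h1
      _ ≤ 16 / c ^ 2 + 1 / c ^ 2 := by linarith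
      _ = 17 / c ^ 2 := by rw [← add_div]; norm_num
  have hR16 : (16 : ℝ) ≤ R := by
    refine le_trans ?_ hR1
    rw [le_div_iff₀ hc20]; linarith
  have hR4 : 4 ≤ (c / 2) ^ 2 * R := by
    have : (c / 2) ^ 2 * (16 / c ^ 2) = 4 := by field_simp; norm_num
    rw [← this]
    exact mul_le_mul_of_nonneg_left hR1 (by positivity)
  set u : ℝ := 4 * R with hu
  have hu1 : 1 ≤ u := by rw [hu]; linarith
  set K : ℝ := C * u ^ m with hK
  have hK1 : 1 ≤ K := one_le_mul_of_one_le_of_one_le hCr (one_le_pow₀ hu1)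
  set Q : ℕ := ⌊K⌋₊ with hQ
  have hQ1 : 1 ≤ Q := Nat.le_floor (by simpa using hK1)
  have hQK : (Q : ℝ) ≤ K := Nat.floor_le (by linarith)
  have hWP : WP k Q R K := fun H hH θ φ hφ hS => hw u hu1 H hH θ φ hφ hS
  set E1 : Set UnitAddCircle := (fun x : UnitAddCircle => k.factorial • x) '' E with hE1
  have hd := density f hf hm k hk Q R K hWP hQ1 (by linarith) c hc hc1 hR4 E1 (img_closed E hE _)
    (img_tors E hT _ (Nat.factorial_pos k)) ε hε
  obtain ⟨H0, hd⟩ := hd
  refine ⟨H0, fun H hH => ?_⟩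
  obtain ⟨X0, hd⟩ := hd H hH
  refine ⟨max X0 1, fun X hX => ?_⟩
  have h1 := hd X (le_trans (le_max_left _ _) hX)
  have hlog : 0 ≤ Real.log X := Real.log_natCast_nonneg X
  have h2 : ∑ n ∈ (Icc 1 X).filter (fun n => Big f k E c n H), (1 : ℝ) / n ≤
      S (fun n => if EvN f k E1 c n H then 1 else 0) X := by
    unfold S
    rw [sum_filter]
    refine sum_le_sum fun n _ => ?_
    beta_reduce
    have hn : (0 : ℝ) ≤ 1 / (n : ℝ) := by positivity
    by_cases hB : Big f k E c n H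
    · rw [if_pos hB, if_pos (Big_EvN f k E c n H hB), mul_one]
    · rw [if_neg hB]
      split_ifs
      · rw [mul_one]; exact hn
      · rw [mul_zero]
  refine h2.trans (h1.trans ?_)
  refine mul_le_mul_of_nonneg_right ?_ hlog
  have hv0 : 0 ≤ volume.real E := measureReal_nonneg
  have hv1 : volume.real E1 ≤ k.factorial * volume.real E := img_vol E hE _ (Nat.factorial_pos k)
  have hsum : ∑ q ∈ Icc 1 Q, volume.real ((fun x : UnitAddCircle => q • x) '' E1) ≤
      K ^ 2 * (k.factorial * volume.real E) := by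
    calc ∑ q ∈ Icc 1 Q, volume.real ((fun x : UnitAddCircle => q • x) '' E1)
        ≤ ∑ _q ∈ Icc 1 Q, K * (k.factorial * volume.real E) := by
          refine sum_le_sum fun q hq => ?_
          rw [mem_Icc] at hq
          refine (img_vol E1 (img_closed E hE _) q hq.1).trans ?_
          have hqK : (q : ℝ) ≤ K := le_trans (by exact_mod_cast hq.2) hQK
          exact mul_le_mul hqK hv1 measureReal_nonneg (by linarith)
      _ = Q * (K * (k.factorial * volume.real E)) := by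
          rw [sum_const, Nat.card_Icc, Nat.add_sub_cancel, nsmul_eq_mul]
      _ ≤ K * (K * (k.factorial * volume.real E)) := mul_le_mul_of_nonneg_right hQK (by positivity)
      _ = _ := by ring
  have hKle : K ≤ C * (68 / c ^ 2) ^ m := by
    rw [hK, hu]
    have h3 : 4 * (R : ℝ) ≤ 68 / c ^ 2 := by
      calc 4 * (R : ℝ) ≤ 4 * (17 / c ^ 2) := by linarith
        _ = 68 / c ^ 2 := by ring
    gcongr
  have hK2 : K ^ 2 ≤ C ^ 2 * (68 / c ^ 2) ^ (2 * m) := by
    calc K ^ 2 ≤ (C * (68 / c ^ 2) ^ m) ^ 2 := pow_le_pow_left₀ (by linarith) hKle 2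
      _ = _ := by rw [mul_pow, ← pow_mul, Nat.mul_comm m 2]
  have hfin : 2 / c * (R * ∑ q ∈ Icc 1 Q, volume.real ((fun x : UnitAddCircle => q • x) '' E1)) ≤
      34 * C ^ 2 * 68 ^ (2 * m) * k.factorial / c ^ (3 + 4 * m) * volume.real E := by
    calc 2 / c * (R * ∑ q ∈ Icc 1 Q, volume.real ((fun x : UnitAddCircle => q • x) '' E1))
        ≤ 2 / c * (17 / c ^ 2 * ((C ^ 2 * (68 / c ^ 2) ^ (2 * m)) * (k.factorial * volume.real E))) := by
          refine mul_le_mul_of_nonneg_left ?_ (by positivity)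
          refine mul_le_mul hR2 (hsum.trans ?_) (sum_nonneg fun _ _ => measureReal_nonneg) (by positivity)
          exact mul_le_mul_of_nonneg_right hK2 (by positivity)
      _ = _ := by
          rw [div_pow, ← pow_mul]
          have e : 2 * (2 * m) = 4 * m := by ring
          rw [e, pow_add]
          have hy : (0 : ℝ) < c ^ (4 * m) := by positivity
          generalize c ^ (4 * m) = y at hy ⊢
          generalize (68 : ℝ) ^ (2 * m) = z
          generalize (k.factorial : ℝ) = w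
          generalize volume.real E = v
          generalize (C : ℝ) = x
          field_simp
          norm_num
          ring
  linarith

open Classical in
/-- **averages** -/
theorem aver (k : ℕ) (hk : 1 ≤ k) : ∃ (D κ : ℝ), 0 < D ∧ 0 < κ ∧
    ∀ f : ℕ → ℂ, (∀ n, ‖f n‖ ≤ 1) → (∀ a b : ℕ, a.Coprime b → f (a * b) = f a * f b) →
    ∀ E : Set UnitAddCircle, IsClosed E → (∀ x ∈ E, ¬ IsOfFinAddOrder x) →
    ∀ ε : ℝ, 0 < ε → ∃ H0 : ℕ, ∀ H : ℕ, H0 ≤ H → ∃ X0 : ℕ, ∀ X : ℕ, X0 ≤ X →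
      ∀ P : ℕ → ℝ[X], (∀ n, (P n).natDegree ≤ k ∧ (((P n).coeff k : ℝ) : UnitAddCircle) ∈ E) →
      ∑ n ∈ Icc 1 X, (1 : ℝ) / n * (1 / H * ‖∑ h ∈ range H, f (n + h) * ee ((P n).eval (h : ℝ))‖) ≤
        (D * volume.real E ^ κ + ε) * Real.log X := by
  obtain ⟨D, M, hD, hd⟩ := dist k hk
  refine ⟨D + 1, 1 / (M + 1 : ℕ), by linarith, by positivity, ?_⟩
  intro f hf hm E hE hT ε hε
  set v : ℝ := volume.real E with hv
  have hv0 : 0 ≤ v := measureReal_nonneg
  have hv1 : v ≤ 1 := by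
    have h1 : v ≤ volume.real (Set.univ : Set UnitAddCircle) := measureReal_mono (Set.subset_univ _)
    have h2 : volume.real (Set.univ : Set UnitAddCircle) = 1 := by
      rw [Measure.real, AddCircle.measure_univ]; simp
    rw [h2] at h1
    exact h1
  obtain ⟨c, hc, hc1, hcb⟩ : ∃ c : ℝ, 0 < c ∧ c ≤ 1 ∧
      c + D / c ^ M * v ≤ (D + 1) * v ^ ((1 : ℝ) / (M + 1 : ℕ)) + ε / 4 := by
    rcases hv0.eq_or_lt with h0 | h0
    · refine ⟨min 1 (ε / 4), lt_min one_pos (by positivity), min_le_left _ _, ?_⟩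
      rw [← h0, mul_zero, add_zero, Real.zero_rpow (by positivity), mul_zero, zero_add]
      exact min_le_right _ _
    · refine ⟨v ^ ((1 : ℝ) / (M + 1 : ℕ)), by positivity, Real.rpow_le_one hv0 hv1 (by positivity), ?_⟩
      have h1 : (v ^ ((1 : ℝ) / (M + 1 : ℕ))) ^ (M + 1) = v := by
        rw [← Real.rpow_natCast, ← Real.rpow_mul hv0, one_div, inv_mul_cancel₀ (by positivity), Real.rpow_one]
      set c := v ^ ((1 : ℝ) / (M + 1 : ℕ)) with hcd
      have hc0 : 0 < c := by positivity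
      have h2 : D / c ^ M * v = D * c := by
        rw [← h1, pow_succ]
        field_simp
      rw [h2]
      linarith
  obtain ⟨H0, hd⟩ := hd f hf hm E hE hT c hc hc1 (ε / 4) (by positivity)
  refine ⟨max H0 1, fun H hH => ?_⟩
  obtain ⟨X0, hd⟩ := hd H (le_trans (le_max_left _ _) hH)
  obtain ⟨X1, hX1⟩ : ∃ X1 : ℕ, ∀ X : ℕ, X1 ≤ X → 1 ≤ ε / 2 * Real.log X := by
    have h1 := (log_tendsto.eventually (eventually_ge_atTop (2 / ε)))
    rw [eventually_atTop] at h1
    obtain ⟨X1, h1⟩ := h1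
    refine ⟨X1, fun X hX => ?_⟩
    have := h1 X hX
    rw [div_le_iff₀ hε] at this
    linarith
  refine ⟨max X0 X1, fun X hX P hP => ?_⟩
  have h1 := hd X (le_trans (le_max_left _ _) hX)
  have h2 := hX1 X (le_trans (le_max_right _ _) hX)
  have hHr : (1 : ℝ) ≤ H := by exact_mod_cast (le_trans (le_max_right _ _) hH)
  have hH0 : (0 : ℝ) < H := by linarith
  have h3 : ∀ n ∈ Icc 1 X, (1 : ℝ) / n * (1 / H * ‖∑ h ∈ range H, f (n + h) * ee ((P n).eval (h : ℝ))‖) ≤
      c * (1 / n) + (if Big f k E c n H then (1 : ℝ) / n else 0) := by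
    intro n _
    have hn : (0 : ℝ) ≤ 1 / (n : ℝ) := by positivity
    by_cases hB : Big f k E c n H
    · rw [if_pos hB]
      have h4 := sum_range_le (fun h => f (n + h) * ee ((P n).eval (h : ℝ))) (fun h => norm_term f hf _ _) H
      have h5 : 1 / (H : ℝ) * ‖∑ h ∈ range H, f (n + h) * ee ((P n).eval (h : ℝ))‖ ≤ 1 := by
        rw [one_div, inv_mul_le_iff₀ hH0, mul_one]; exact h4
      have h6 := mul_le_mul_of_nonneg_left h5 hn
      have h7 : 0 ≤ c * (1 / (n : ℝ)) := by positivity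
      linarith
    · rw [if_neg hB, add_zero]
      have h4 : ‖∑ h ∈ range H, f (n + h) * ee ((P n).eval (h : ℝ))‖ < c * H := by
        by_contra hcon
        push Not at hcon
        exact hB ⟨P n, (hP n).1, (hP n).2, hcon⟩
      have h5 : 1 / (H : ℝ) * ‖∑ h ∈ range H, f (n + h) * ee ((P n).eval (h : ℝ))‖ ≤ c := by
        rw [one_div, inv_mul_le_iff₀ hH0]; linarith
      have h6 := mul_le_mul_of_nonneg_left h5 hn
      linarith
  refine (sum_le_sum h3).trans ?_
  rw [sum_add_distrib, ← mul_sum, ← sum_filter]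
  have h4 : ∑ n ∈ Icc 1 X, 1 / (n : ℝ) ≤ 1 + Real.log X := H_le X
  have hlog : 0 ≤ Real.log X := Real.log_natCast_nonneg X
  have h5 : c * ∑ n ∈ Icc 1 X, 1 / (n : ℝ) ≤ c * Real.log X + c := by
    have := mul_le_mul_of_nonneg_left h4 hc.le
    linarith
  have h6 := mul_le_mul_of_nonneg_right hcb hlog
  have h7 : (c + D / c ^ M * v) * Real.log X = c * Real.log X + D / c ^ M * v * Real.log X := by ring
  have h8 : (D / c ^ M * v + ε / 4) * Real.log X = D / c ^ M * v * Real.log X + ε / 4 * Real.log X := by ring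
  rw [h8] at h1
  rw [h7] at h6
  have h9 : ((D + 1) * v ^ ((1 : ℝ) / (M + 1 : ℕ)) + ε / 4) * Real.log X =
    (D + 1) * v ^ ((1 : ℝ) / (M + 1 : ℕ)) * Real.log X + ε / 4 * Real.log X := by ring
  rw [h9] at h6
  have h10 : ((D + 1) * v ^ ((1 : ℝ) / (M + 1 : ℕ)) + ε) * Real.log X =
    (D + 1) * v ^ ((1 : ℝ) / (M + 1 : ℕ)) * Real.log X + ε * Real.log X := by ring
  rw [h10]
  linarith

end Pool.Agent.Q259.FQ
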