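import Pool.Agent.Q259.FQ.F

set_option autoImplicit false

/-!
# Uniformity: windows of every length up to a power of the length of the average
-/

namespace Pool.Agent.Q259.FQ

open Finset MeasureTheory Filter Polynomial
open Pool.Agent.Helper602.MK (ee)
open Pool.Agent.Helper602.MK.N_J5b (norm_ee)
open Pool.Agent.TH833.BL

lemma S_mono {φ ψ : ℕ → ℝ} (h : ∀ n, φ n ≤ ψ n) (X : ℕ) : S φ X ≤ S ψ X :=
  sum_le_sum fun n _ => mul_le_mul_of_nonneg_left (h n) (by positivity)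

/-- averaging over windows inside a logarithmic average -/
lemma unif (G : ℕ → ℝ) (h0 : ∀ n, 0 ≤ G n) (h1 : ∀ n, G n ≤ 1) (B : ℝ) (hB : 0 ≤ B) (X1 : ℕ)
    (hG : ∀ X : ℕ, X1 ≤ X → S G X ≤ B * Real.log X) (ε : ℝ) (hε : 0 < ε) (hε1 : ε ≤ 1) :
    ∃ H0 A : ℕ, 1 ≤ H0 ∧ 1 ≤ A ∧ ∀ H X : ℕ, H0 ≤ H → H ^ A ≤ X →
      S (fun n => (1 / H : ℝ) * ∑ j ∈ range H, G (n + j)) X ≤ (B + ε) * Real.log X := by
  set η : ℝ := ε / (8 * (B + 1)) with hη
  have hη0 : 0 < η := by positivity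
  obtain ⟨K, hK⟩ := exists_nat_ge (1 / η)
  have hK0 : (0 : ℝ) < K := lt_of_lt_of_le (by positivity) hK
  have hK1 : 1 ≤ K := by exact_mod_cast hK0
  have hKη : 1 / (K : ℝ) ≤ η := by
    rw [div_le_iff₀ hK0]; rw [div_le_iff₀ hη0] at hK; linarith
  obtain ⟨A, hA⟩ := exists_nat_ge (8 / ε)
  have hA0 : (0 : ℝ) < A := lt_of_lt_of_le (by positivity) hA
  obtain ⟨L, hL⟩ : ∃ L : ℕ, ∀ X : ℕ, L ≤ X → 8 * (B + 3 + Real.log K) / ε ≤ Real.log X := by
    have h1 := (log_tendsto.eventually (eventually_ge_atTop (8 * (B + 3 + Real.log K) / ε)))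
    rw [eventually_atTop] at h1
    exact h1
  refine ⟨max (max X1 L) 3, A, by omega, by exact_mod_cast hA0, fun H X hH hX => ?_⟩
  have hH3 : 3 ≤ H := le_trans (le_max_right _ _) hH
  have hA1 : 1 ≤ A := by exact_mod_cast hA0
  have hHX : H ≤ X := (Nat.le_self_pow (by omega) H).trans hX
  have hXX1 : X1 ≤ X := (le_trans (le_trans (le_max_left _ _) (le_max_left _ _)) hH).trans hHX
  have hXL : L ≤ X := (le_trans (le_trans (le_max_right _ _) (le_max_left _ _)) hH).trans hHX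
  have hlogX := hL X hXL
  have hHr : (3 : ℝ) ≤ H := by exact_mod_cast hH3
  have hH0 : (0 : ℝ) < H := by linarith
  have hXr : (3 : ℝ) ≤ X := by exact_mod_cast hH3.trans hHX
  have hlogH : Real.log H ≤ ε / 8 * Real.log X := by
    have h2 : ((H : ℝ)) ^ A ≤ X := by exact_mod_cast hX
    have h3 := Real.log_le_log (by positivity) h2
    rw [Real.log_pow] at h3
    have h4 : 0 ≤ Real.log H := Real.log_natCast_nonneg H
    rw [div_le_iff₀ hε] at hA
    nlinarith
  have hlogX0 : 0 ≤ Real.log X := Real.log_natCast_nonneg X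
  -- pointwise weights
  have hpt : ∀ n ∈ Icc 1 X, ∀ j ∈ range H, (1 / (n : ℝ)) * G (n + j) ≤
      (if n ≤ K * H then 1 / (n : ℝ) else 0) + (1 + η) * ((1 / ((n + j : ℕ) : ℝ)) * G (n + j)) := by
    intro n hn j hj
    rw [mem_Icc] at hn
    rw [mem_range] at hj
    have hn0 : (0 : ℝ) < n := by exact_mod_cast hn.1
    have hg0 := h0 (n + j)
    have hg1 := h1 (n + j)
    by_cases hnK : n ≤ K * H
    · rw [if_pos hnK]
      have a1 : (1 / (n : ℝ)) * G (n + j) ≤ 1 / n := mul_le_of_le_one_right (by positivity) hg1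
      have a2 : 0 ≤ (1 + η) * ((1 / ((n + j : ℕ) : ℝ)) * G (n + j)) := by positivity
      linarith
    · rw [if_neg hnK, zero_add, ← mul_assoc]
      refine mul_le_mul_of_nonneg_right ?_ hg0
      push Not at hnK
      have a1 : (K : ℝ) * H < n := by exact_mod_cast hnK
      have a2 : (j : ℝ) ≤ H := by exact_mod_cast hj.le
      push_cast
      rw [mul_one_div, div_le_div_iff₀ hn0 (by positivity)]
      have a3 : (j : ℝ) ≤ η * n := by
        have b1 : (H : ℝ) ≤ 1 / K * n := by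
          rw [one_div, ← div_eq_inv_mul, le_div_iff₀ hK0]; linarith
        have b2 : 1 / (K : ℝ) * n ≤ η * n := mul_le_mul_of_nonneg_right hKη hn0.le
        linarith
      linarith
  have hsum : S (fun n => (1 / H : ℝ) * ∑ j ∈ range H, G (n + j)) X ≤
      (1 / H : ℝ) * ∑ j ∈ range H, ∑ n ∈ Icc 1 X, ((if n ≤ K * H then 1 / (n : ℝ) else 0) +
        (1 + η) * ((1 / ((n + j : ℕ) : ℝ)) * G (n + j))) := by
    unfold S
    rw [sum_comm (s := range H), mul_sum]
    refine sum_le_sum fun n hn => ?_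
    have e : (1 / (n : ℝ)) * ((1 / H : ℝ) * ∑ j ∈ range H, G (n + j)) =
        (1 / H : ℝ) * ∑ j ∈ range H, (1 / (n : ℝ)) * G (n + j) := by rw [← mul_sum]; ring
    beta_reduce
    rw [e]
    exact mul_le_mul_of_nonneg_left (sum_le_sum fun j hj => hpt n hn j hj) (by positivity)
  refine hsum.trans ?_
  -- the initial part
  have hinit : ∑ n ∈ Icc 1 X, (if n ≤ K * H then 1 / (n : ℝ) else 0) ≤ 1 + Real.log K + ε / 8 * Real.log X := by
    have a1 : ∑ n ∈ Icc 1 X, (if n ≤ K * H then 1 / (n : ℝ) else 0) ≤ ∑ n ∈ Icc 1 (K * H), 1 / (n : ℝ) := by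
      rw [← sum_filter]
      apply sum_le_sum_of_subset_of_nonneg
      · intro n hn
        rw [mem_filter, mem_Icc] at hn
        rw [mem_Icc]; exact ⟨hn.1.1, hn.2⟩
      · intro n _ _; positivity
    have a2 : ∑ n ∈ Icc 1 (K * H), 1 / (n : ℝ) ≤ 1 + Real.log ((K * H : ℕ) : ℝ) := H_le (K * H)
    have a3 : Real.log ((K * H : ℕ) : ℝ) = Real.log K + Real.log H := by
      push_cast
      rw [Real.log_mul (by positivity) (by positivity)]
    linarith
  have hmain : ∀ j ∈ range H, ∑ n ∈ Icc 1 X, (1 / ((n + j : ℕ) : ℝ)) * G (n + j) ≤ B * (Real.log X + 1) := by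
    intro j hj
    rw [mem_range] at hj
    have a1 : ∑ n ∈ Icc 1 X, (1 / ((n + j : ℕ) : ℝ)) * G (n + j) ≤ S G (X + H) := by
      unfold S
      rw [← sum_image (f := fun m : ℕ => (1 / (m : ℝ)) * G m) (g := fun n => n + j) (fun a _ b _ h => by
        simpa using h)]
      apply sum_le_sum_of_subset_of_nonneg
      · intro m hm
        rw [mem_image] at hm
        obtain ⟨n, hn, rfl⟩ := hm
        rw [mem_Icc] at hn ⊢
        omega
      · intro m _ _
        exact mul_nonneg (by positivity) (h0 m)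
    refine a1.trans ((hG _ (by omega)).trans (mul_le_mul_of_nonneg_left ?_ hB))
    have a2 : ((X + H : ℕ) : ℝ) ≤ 2 * X := by
      have : X + H ≤ 2 * X := by omega
      exact_mod_cast this
    have a3 := Real.log_le_log (by positivity) a2
    rw [Real.log_mul (by norm_num) (by positivity)] at a3
    have := Real.log_two_lt_d9
    linarith
  have hfin : (1 / H : ℝ) * ∑ j ∈ range H, ∑ n ∈ Icc 1 X, ((if n ≤ K * H then 1 / (n : ℝ) else 0) +
        (1 + η) * ((1 / ((n + j : ℕ) : ℝ)) * G (n + j))) ≤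
      (1 + Real.log K + ε / 8 * Real.log X) + (1 + η) * (B * (Real.log X + 1)) := by
    have a1 : ∑ j ∈ range H, ∑ n ∈ Icc 1 X, ((if n ≤ K * H then 1 / (n : ℝ) else 0) +
        (1 + η) * ((1 / ((n + j : ℕ) : ℝ)) * G (n + j))) ≤
        ∑ _j ∈ range H, ((1 + Real.log K + ε / 8 * Real.log X) + (1 + η) * (B * (Real.log X + 1))) := by
      refine sum_le_sum fun j hj => ?_
      rw [sum_add_distrib, ← mul_sum]
      exact add_le_add hinit (mul_le_mul_of_nonneg_left (hmain j hj) (by positivity))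
    rw [sum_const, card_range, nsmul_eq_mul] at a1
    rw [one_div, inv_mul_le_iff₀ hH0]
    exact a1
  refine hfin.trans ?_
  have hηB : η * B ≤ ε / 8 := by
    rw [hη, div_mul_eq_mul_div, div_le_div_iff₀ (by positivity) (by norm_num)]
    nlinarith
  have hη1 : η ≤ 1 := by
    rw [hη, div_le_one (by positivity)]
    nlinarith
  rw [div_le_iff₀ hε] at hlogX
  have hlogK : 0 ≤ Real.log K := Real.log_natCast_nonneg K
  have b1 : (1 + η) * (B * (Real.log X + 1)) ≤ B * Real.log X + ε / 8 * Real.log X + 2 * B := by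
    have c1 : η * (B * Real.log X) ≤ ε / 8 * Real.log X := by
      have := mul_le_mul_of_nonneg_right hηB hlogX0
      linarith
    have c2 : η * B ≤ B := mul_le_of_le_one_left hB hη1
    nlinarith
  nlinarith

lemma win_avg (a : ℕ → ℂ) (ha : ∀ h, ‖a h‖ ≤ 1) (N L : ℕ) (hL : 1 ≤ L) :
    ‖∑ h ∈ range N, a h‖ ≤ ∑ j ∈ range N, (1 / L : ℝ) * ‖∑ h ∈ range L, a (j + h)‖ + 2 * L := by
  have hL0 : (0 : ℝ) < L := by exact_mod_cast hL
  have h1 : ∀ h, h < L → ‖∑ x ∈ range N, a x - ∑ j ∈ range N, a (j + h)‖ ≤ 2 * L := by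
    intro h hh
    have e1 : ∑ j ∈ range N, a (j + h) = ∑ x ∈ range (h + N), a x - ∑ x ∈ range h, a x := by
      rw [sum_range_add, add_sub_cancel_left]
      exact sum_congr rfl fun j _ => by rw [Nat.add_comm]
    have h2 := trunc a ha N (h + N) h (by omega) (by omega)
    have h3 := sum_range_le a ha h
    have hhr : (h : ℝ) ≤ L := by exact_mod_cast hh.le
    rw [e1]
    calc ‖∑ x ∈ range N, a x - (∑ x ∈ range (h + N), a x - ∑ x ∈ range h, a x)‖
        = ‖(∑ x ∈ range N, a x - ∑ x ∈ range (h + N), a x) + ∑ x ∈ range h, a x‖ := by congr 1; ring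
      _ ≤ _ := (norm_add_le _ _).trans (by linarith)
  have h2 : ‖(L : ℂ) * ∑ x ∈ range N, a x - ∑ j ∈ range N, ∑ h ∈ range L, a (j + h)‖ ≤ L * (2 * L) := by
    rw [sum_comm]
    have e1 : (L : ℂ) * ∑ x ∈ range N, a x = ∑ _h ∈ range L, ∑ x ∈ range N, a x := by
      rw [sum_const, card_range, nsmul_eq_mul]
    rw [e1, ← sum_sub_distrib]
    refine (norm_sum_le _ _).trans ?_
    calc _ ≤ ∑ _h ∈ range L, 2 * (L : ℝ) := sum_le_sum fun h hh => h1 h (mem_range.1 hh)
      _ = _ := by rw [sum_const, card_range, nsmul_eq_mul]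
  have h5 : L * ‖∑ x ∈ range N, a x‖ ≤ L * (2 * L) + ∑ j ∈ range N, ‖∑ h ∈ range L, a (j + h)‖ := by
    calc L * ‖∑ x ∈ range N, a x‖ = ‖(L : ℂ) * ∑ x ∈ range N, a x‖ := by rw [norm_mul, Complex.norm_natCast]
      _ = ‖((L : ℂ) * ∑ x ∈ range N, a x - ∑ j ∈ range N, ∑ h ∈ range L, a (j + h)) +
          ∑ j ∈ range N, ∑ h ∈ range L, a (j + h)‖ := by congr 1; ring
      _ ≤ _ := (norm_add_le _ _).trans (add_le_add h2 (norm_sum_le _ _))
  have h6 : L * ‖∑ x ∈ range N, a x‖ ≤ L * (∑ j ∈ range N, (1 / L : ℝ) * ‖∑ h ∈ range L, a (j + h)‖ + 2 * L) := by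
    rw [← mul_sum, mul_add, ← mul_assoc, mul_one_div, div_self hL0.ne', one_mul]
    linarith
  exact le_of_mul_le_mul_left h6 hL0

/-- translating a polynomial keeps the `k`-th coefficient -/
lemma taylor_ok (k : ℕ) (P : ℝ[X]) (hP : P.natDegree ≤ k) (j : ℕ) :
    (P.comp (Polynomial.X + C (j : ℝ))).natDegree ≤ k ∧ (P.comp (Polynomial.X + C (j : ℝ))).coeff k = P.coeff k := by
  have h1 : P.comp (X + C (j : ℝ)) = taylor (j : ℝ) P := by rw [taylor_apply]
  rw [h1]
  refine ⟨by rw [natDegree_taylor]; exact hP, ?_⟩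
  rcases hP.eq_or_lt with h | h
  · rw [← h, coeff_taylor_natDegree]
    rfl
  · rw [coeff_eq_zero_of_natDegree_lt h, coeff_eq_zero_of_natDegree_lt]
    rw [natDegree_taylor]; exact h

lemma eval_shift (P : ℝ[X]) (j h : ℕ) : (P.comp (Polynomial.X + C (j : ℝ))).eval (h : ℝ) = P.eval ((j + h : ℕ) : ℝ) := by
  rw [eval_comp, eval_add, eval_X, eval_C, add_comm]
  push_cast
  rfl

open Classical in
/-- distribution, uniformly for windows up to a power of `X` -/
theorem dist' (k : ℕ) (hk : 1 ≤ k) : ∃ (D : ℝ) (M : ℕ), 0 < D ∧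
    ∀ f : ℕ → ℂ, (∀ n, ‖f n‖ ≤ 1) → (∀ a b : ℕ, a.Coprime b → f (a * b) = f a * f b) →
    ∀ E : Set UnitAddCircle, IsClosed E → (∀ x ∈ E, ¬ IsOfFinAddOrder x) →
    ∀ c : ℝ, 0 < c → c ≤ 1 → ∀ ε : ℝ, 0 < ε → ∃ H0 A : ℕ, ∀ H X : ℕ, H0 ≤ H → H ^ A ≤ X →
      ∑ n ∈ (Icc 1 X).filter (fun n => Big f k E c n H), (1 : ℝ) / n ≤
        (D / c ^ M * volume.real E + ε) * Real.log X := by
  obtain ⟨D, M, hD, hd⟩ := dist k hk
  refine ⟨4 * 2 ^ M * D, M + 1, by positivity, ?_⟩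
  intro f hf hm E hE hT c hc hc1 ε hε
  obtain ⟨H1, hd⟩ := hd f hf hm E hE hT (c / 2) (by positivity) (by linarith) (c * ε / 16) (by positivity)
  set L := max H1 1 with hL
  obtain ⟨X1, hd⟩ := hd L (le_max_left _ _)
  set G : ℕ → ℝ := fun n => if Big f k E (c / 2) n L then 1 else 0 with hG
  set v := volume.real E with hv
  have hv0 : 0 ≤ v := measureReal_nonneg
  have hG0 : ∀ n, 0 ≤ G n := fun n => by simp only [hG]; split_ifs <;> norm_num
  have hG1 : ∀ n, G n ≤ 1 := fun n => by simp only [hG]; split_ifs <;> norm_num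
  have hSG : ∀ X : ℕ, X1 ≤ X → S G X ≤ (D / (c / 2) ^ M * v + c * ε / 16) * Real.log X := by
    intro X hX
    refine le_trans (le_of_eq ?_) (hd X hX)
    unfold S
    rw [sum_filter]
    refine sum_congr rfl fun n _ => ?_
    simp only [hG]
    split_ifs <;> ring
  have hcε : c * ε / 16 > 0 := by positivity
  obtain ⟨H0, A, hH0, hA, hu⟩ := unif G hG0 hG1 _ (by positivity) X1 hSG (min (c * ε / 16) 1) (by positivity) (min_le_right _ _)
  have hL1 : 1 ≤ L := le_max_right _ _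
  have hL0 : (0 : ℝ) < L := by exact_mod_cast hL1
  refine ⟨max H0 ⌈8 * (L : ℝ) / c⌉₊, A, fun H X hH hX => ?_⟩
  have h1 := hu H X (le_trans (le_max_left _ _) hH) hX
  have hH8 : 8 * (L : ℝ) / c ≤ H := (Nat.le_ceil _).trans (by exact_mod_cast le_trans (le_max_right _ _) hH)
  have hHpos : (0 : ℝ) < H := lt_of_lt_of_le (by positivity) hH8
  rw [div_le_iff₀ hc] at hH8
  have h2 : ∀ n, (if Big f k E c n H then (1 : ℝ) else 0) ≤ 4 / c * ((1 / H : ℝ) * ∑ j ∈ range H, G (n + j)) := by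
    intro n
    have hs0 : 0 ≤ ∑ j ∈ range H, G (n + j) := sum_nonneg fun j _ => hG0 _
    split_ifs with hB
    · obtain ⟨P, hP, hPE, hPc⟩ := hB
      have h3 := win_avg (fun h => f (n + h) * ee (P.eval (h : ℝ))) (fun h => norm_term f hf _ _) H L hL1
      have h4 : ∀ j ∈ range H, (1 / L : ℝ) * ‖∑ h ∈ range L, f (n + (j + h)) * ee (P.eval ((j + h : ℕ) : ℝ))‖ ≤
          c / 2 + G (n + j) := by
        intro j _
        have e1 : ∑ h ∈ range L, f (n + (j + h)) * ee (P.eval ((j + h : ℕ) : ℝ)) =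
            ∑ h ∈ range L, f (n + j + h) * ee ((P.comp (Polynomial.X + C (j : ℝ))).eval (h : ℝ)) := by
          refine sum_congr rfl fun h _ => ?_
          rw [← Nat.add_assoc, eval_shift]
        rw [e1]
        by_cases hBj : Big f k E (c / 2) (n + j) L
        · have h5 : G (n + j) = 1 := by simp only [hG]; rw [if_pos hBj]
          rw [h5]
          have h6 := sum_range_le (fun h => f (n + j + h) * ee ((P.comp (Polynomial.X + C (j : ℝ))).eval (h : ℝ)))
            (fun h => norm_term f hf _ _) L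
          have h7 : (1 / L : ℝ) * ‖∑ h ∈ range L, f (n + j + h) * ee ((P.comp (Polynomial.X + C (j : ℝ))).eval (h : ℝ))‖ ≤ 1 := by
            rw [one_div, inv_mul_le_iff₀ hL0, mul_one]; exact h6
          linarith
        · have h5 : G (n + j) = 0 := by simp only [hG]; rw [if_neg hBj]
          rw [h5, add_zero]
          have h6 : ‖∑ h ∈ range L, f (n + j + h) * ee ((P.comp (Polynomial.X + C (j : ℝ))).eval (h : ℝ))‖ < c / 2 * L := by
            by_contra hcon
            push Not at hcon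
            obtain ⟨t1, t2⟩ := taylor_ok k P hP j
            exact hBj ⟨_, t1, by rw [t2]; exact hPE, hcon⟩
          rw [one_div, inv_mul_le_iff₀ hL0]
          linarith
      have h5 : c * H ≤ c / 2 * H + ∑ j ∈ range H, G (n + j) + 2 * L := by
        have h6 := sum_le_sum h4
        rw [sum_add_distrib, sum_const, card_range, nsmul_eq_mul] at h6
        have h7 : ∑ j ∈ range H, (1 / L : ℝ) * ‖∑ h ∈ range L, (fun h => f (n + h) * ee (P.eval (h : ℝ))) (j + h)‖ ≤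
            H * (c / 2) + ∑ j ∈ range H, G (n + j) := h6
        linarith
      rw [← mul_assoc, ← div_le_iff₀' (by positivity)]
      have e2 : 1 / (4 / c * (1 / H)) = c * H / 4 := by field_simp
      rw [e2]
      linarith
    · positivity
  have h3 : ∑ n ∈ (Icc 1 X).filter (fun n => Big f k E c n H), (1 : ℝ) / n ≤
      4 / c * S (fun n => (1 / H : ℝ) * ∑ j ∈ range H, G (n + j)) X := by
    unfold S
    rw [sum_filter, mul_sum]
    refine sum_le_sum fun n _ => ?_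
    have hn : (0 : ℝ) ≤ 1 / (n : ℝ) := by positivity
    have := mul_le_mul_of_nonneg_left (h2 n) hn
    have e1 : (if Big f k E c n H then (1 : ℝ) / n else 0) = 1 / (n : ℝ) * (if Big f k E c n H then (1 : ℝ) else 0) := by
      split_ifs <;> ring
    rw [e1]
    refine this.trans (le_of_eq ?_)
    ring
  refine h3.trans ?_
  have hlog : 0 ≤ Real.log X := Real.log_natCast_nonneg X
  have h4 : 4 / c * S (fun n => (1 / H : ℝ) * ∑ j ∈ range H, G (n + j)) X ≤
      4 / c * ((D / (c / 2) ^ M * v + c * ε / 16 + min (c * ε / 16) 1) * Real.log X) :=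
    mul_le_mul_of_nonneg_left h1 (by positivity)
  refine h4.trans ?_
  rw [← mul_assoc]
  refine mul_le_mul_of_nonneg_right ?_ hlog
  have h5 : min (c * ε / 16) 1 ≤ c * ε / 16 := min_le_left _ _
  calc 4 / c * (D / (c / 2) ^ M * v + c * ε / 16 + min (c * ε / 16) 1)
      ≤ 4 / c * (D / (c / 2) ^ M * v + c * ε / 16 + c * ε / 16) := by gcongr
    _ = 4 * 2 ^ M * D / c ^ (M + 1) * v + ε / 2 := by
        rw [div_pow, pow_succ]
        field_simp
        ring
    _ ≤ _ := by linarith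

open Classical in
/-- **averages**, uniformly for windows up to a power of `X` -/
theorem aver' (k : ℕ) (hk : 1 ≤ k) : ∃ (D κ : ℝ), 0 < D ∧ 0 < κ ∧
    ∀ f : ℕ → ℂ, (∀ n, ‖f n‖ ≤ 1) → (∀ a b : ℕ, a.Coprime b → f (a * b) = f a * f b) →
    ∀ E : Set UnitAddCircle, IsClosed E → (∀ x ∈ E, ¬ IsOfFinAddOrder x) →
    ∀ ε : ℝ, 0 < ε → ∃ H0 A : ℕ, ∀ H X : ℕ, H0 ≤ H → H ^ A ≤ X →
      ∀ P : ℕ → ℝ[X], (∀ n, (P n).natDegree ≤ k ∧ (((P n).coeff k : ℝ) : UnitAddCircle) ∈ E) →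
      ∑ n ∈ Icc 1 X, (1 : ℝ) / n * (1 / H * ‖∑ h ∈ range H, f (n + h) * ee ((P n).eval (h : ℝ))‖) ≤
        (D * volume.real E ^ κ + ε) * Real.log X := by
  obtain ⟨D, κ, hD, hκ, hd⟩ := aver k hk
  refine ⟨D, κ, hD, hκ, ?_⟩
  intro f hf hm E hE hT ε hε
  obtain ⟨H1, hd⟩ := hd f hf hm E hE hT (ε / 8) (by positivity)
  set L := max H1 1 with hL
  obtain ⟨X1, hd⟩ := hd L (le_max_left _ _)
  have hL1 : 1 ≤ L := le_max_right _ _
  have hL0 : (0 : ℝ) < L := by exact_mod_cast hL1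
  set v := volume.real E with hv
  have hv0 : 0 ≤ v := measureReal_nonneg
  by_cases hPex : ∃ P₀ : ℝ[X], P₀.natDegree ≤ k ∧ ((P₀.coeff k : ℝ) : UnitAddCircle) ∈ E
  swap
  · refine ⟨1, 1, fun H X hH hX P hP => ?_⟩
    exact absurd ⟨P 0, hP 0⟩ hPex
  obtain ⟨P₀, hP₀⟩ := hPex
  haveI : Nonempty {P : ℝ[X] // P.natDegree ≤ k ∧ ((P.coeff k : ℝ) : UnitAddCircle) ∈ E} := ⟨⟨P₀, hP₀⟩⟩
  set T : ℕ → ℝ[X] → ℝ := fun n P => (1 / L : ℝ) * ‖∑ h ∈ range L, f (n + h) * ee (P.eval (h : ℝ))‖ with hT'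
  have hT1 : ∀ n P, T n P ≤ 1 := by
    intro n P
    have h6 := sum_range_le (fun h => f (n + h) * ee (P.eval (h : ℝ))) (fun h => norm_term f hf _ _) L
    simp only [hT']
    rw [one_div, inv_mul_le_iff₀ hL0, mul_one]; exact h6
  set G : ℕ → ℝ := fun n => ⨆ P : {P : ℝ[X] // P.natDegree ≤ k ∧ ((P.coeff k : ℝ) : UnitAddCircle) ∈ E}, T n P with hG
  have hbdd : ∀ n, BddAbove (Set.range fun P : {P : ℝ[X] // P.natDegree ≤ k ∧ ((P.coeff k : ℝ) : UnitAddCircle) ∈ E} => T n P) :=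
    fun n => ⟨1, by rintro _ ⟨P, rfl⟩; exact hT1 n P⟩
  have hTG : ∀ n P, P.natDegree ≤ k → ((P.coeff k : ℝ) : UnitAddCircle) ∈ E → T n P ≤ G n :=
    fun n P h1 h2 => le_ciSup (hbdd n) ⟨P, h1, h2⟩
  have hG0 : ∀ n, 0 ≤ G n := fun n => le_trans (by simp only [hT']; positivity) (hTG n P₀ hP₀.1 hP₀.2)
  have hG1 : ∀ n, G n ≤ 1 := fun n => ciSup_le fun P => hT1 n P
  have hnear : ∀ n, ∃ P : {P : ℝ[X] // P.natDegree ≤ k ∧ ((P.coeff k : ℝ) : UnitAddCircle) ∈ E}, G n - ε / 16 < T n P :=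
    fun n => exists_lt_of_lt_ciSup (show G n - ε / 16 < G n by linarith)
  choose Pn hPn using hnear
  have hSG : ∀ X : ℕ, max X1 3 ≤ X → S G X ≤ (D * v ^ κ + ε / 4) * Real.log X := by
    intro X hX
    have h1 := hd X (le_trans (le_max_left _ _) hX) (fun n => (Pn n).1) (fun n => (Pn n).2)
    have h2 := H_le X
    have h3 : 1 ≤ Real.log X := one_le_log (le_trans (le_max_right _ _) hX)
    have h4 : S G X ≤ S (fun n => T n (Pn n).1) X + ε / 16 * Pool.Agent.TH833.BL.H X := by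
      unfold S Pool.Agent.TH833.BL.H
      rw [mul_sum, ← sum_add_distrib]
      refine sum_le_sum fun n _ => ?_
      have hn : (0 : ℝ) ≤ 1 / (n : ℝ) := by positivity
      have := mul_le_mul_of_nonneg_left (hPn n).le hn
      linarith
    have h5 : S (fun n => T n (Pn n).1) X ≤ (D * v ^ κ + ε / 8) * Real.log X := h1
    have h6 : ε / 16 * Pool.Agent.TH833.BL.H X ≤ ε / 16 * (1 + Real.log X) := mul_le_mul_of_nonneg_left h2 (by positivity)
    nlinarith
  obtain ⟨H0, A, hH0, hA, hu⟩ := unif G hG0 hG1 _ (by positivity) _ hSG (min (ε / 4) 1) (by positivity) (min_le_right _ _)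
  refine ⟨max (max H0 3) ⌈16 * (L : ℝ) / ε⌉₊, A, fun H X hH hX P hP => ?_⟩
  have h1 := hu H X (le_trans (le_trans (le_max_left _ _) (le_max_left _ _)) hH) hX
  have hH3 : 3 ≤ H := le_trans (le_trans (le_max_right _ _) (le_max_left _ _)) hH
  have hHX : H ≤ X := (Nat.le_self_pow (by omega) H).trans hX
  have hH8 : 16 * (L : ℝ) / ε ≤ H := (Nat.le_ceil _).trans (by exact_mod_cast le_trans (le_max_right _ _) hH)
  have hHpos : (0 : ℝ) < H := lt_of_lt_of_le (by positivity) hH8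
  rw [div_le_iff₀ hε] at hH8
  have h2 : ∀ n, 1 / H * ‖∑ h ∈ range H, f (n + h) * ee ((P n).eval (h : ℝ))‖ ≤
      (1 / H : ℝ) * ∑ j ∈ range H, G (n + j) + ε / 8 := by
    intro n
    have h3 := win_avg (fun h => f (n + h) * ee ((P n).eval (h : ℝ))) (fun h => norm_term f hf _ _) H L hL1
    have h4 : ∀ j ∈ range H, (1 / L : ℝ) * ‖∑ h ∈ range L, f (n + (j + h)) * ee ((P n).eval ((j + h : ℕ) : ℝ))‖ ≤
        G (n + j) := by
      intro j _
      have e1 : ∑ h ∈ range L, f (n + (j + h)) * ee ((P n).eval ((j + h : ℕ) : ℝ)) =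
          ∑ h ∈ range L, f (n + j + h) * ee (((P n).comp (Polynomial.X + C (j : ℝ))).eval (h : ℝ)) := by
        refine sum_congr rfl fun h _ => ?_
        rw [← Nat.add_assoc, eval_shift]
      rw [e1]
      obtain ⟨t1, t2⟩ := taylor_ok k (P n) (hP n).1 j
      exact hTG (n + j) _ t1 (by rw [t2]; exact (hP n).2)
    have h5 : ‖∑ h ∈ range H, f (n + h) * ee ((P n).eval (h : ℝ))‖ ≤ ∑ j ∈ range H, G (n + j) + 2 * L :=
      h3.trans (add_le_add (sum_le_sum h4) le_rfl)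
    rw [one_div, inv_mul_le_iff₀ hHpos, mul_add, ← mul_assoc, mul_inv_cancel₀ hHpos.ne', one_mul]
    linarith
  have h3 : ∑ n ∈ Icc 1 X, (1 : ℝ) / n * (1 / H * ‖∑ h ∈ range H, f (n + h) * ee ((P n).eval (h : ℝ))‖) ≤
      S (fun n => (1 / H : ℝ) * ∑ j ∈ range H, G (n + j)) X + ε / 8 * Pool.Agent.TH833.BL.H X := by
    unfold S Pool.Agent.TH833.BL.H
    rw [mul_sum, ← sum_add_distrib]
    refine sum_le_sum fun n _ => ?_
    have hn : (0 : ℝ) ≤ 1 / (n : ℝ) := by positivity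
    have := mul_le_mul_of_nonneg_left (h2 n) hn
    linarith
  have h4 := H_le X
  have h5 : 1 ≤ Real.log X := one_le_log (hH3.trans hHX)
  have h6 : ε / 8 * Pool.Agent.TH833.BL.H X ≤ ε / 8 * (1 + Real.log X) := mul_le_mul_of_nonneg_left h4 (by positivity)
  have h7 : min (ε / 4) 1 ≤ ε / 4 := min_le_left _ _
  have h8 : (D * v ^ κ + ε / 4 + min (ε / 4) 1) * Real.log X ≤ (D * v ^ κ + ε / 4 + ε / 4) * Real.log X :=
    mul_le_mul_of_nonneg_right (by linarith) (by linarith)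
  nlinarith

end Pool.Agent.Q259.FQ
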